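import Pool.Agent.X257.PS.Inv

/-!
# Project PS: the good pairs and the positive proportion
-/

set_option autoImplicit false

namespace Pool.Agent.X257.PS

open Finset Filter Pool.Agent.TH841.LS Pool.Agent.TH841.NO Pool.Agent.W307.SE Polynomial
  Pool.Agent.Y212.RZ Pool.Agent.W262.RK Pool.Agent.W307.FK Pool.Agent.Y667.RP Pool.Agent.Y667.RZ
  Pool.Agent.Y535.RZ Pool.Agent.W307.RT Pool.Agent.W307.RS Pool.Agent.Y667.MT Pool.Agent.Y667.PA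
open Pool.Agent.Y285.RP Pool.Agent.Y285.RZ Pool.Agent.Y738.MT

/-- the elements of a 2-Selmer group of order at most 4 -/
theorem sel_four {A B e1 e2 : ℤ} (hA : A ≠ 0) (hB : B ≠ 0) (hAB : A ≠ B) (nA : ¬ IsSquare A)
    (nB : ¬ IsSquare B) (nAB : ¬ IsSquare (A * B)) (hf : (Sel A B).Finite)
    (hc : (Sel A B).ncard ≤ 4) (he : ((e1, e2) : ℤ × ℤ) ∈ Sel A B) :
    (e1 = 1 ∧ e2 = 1) ∨ (∃ y w : ℤ, A * B = e1 * y ^ 2 ∧ -A = e2 * w ^ 2) ∨
      (∃ y w : ℤ, A = e1 * y ^ 2 ∧ A * (A - B) = e2 * w ^ 2) ∨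
      (∃ y w : ℤ, B = e1 * y ^ 2 ∧ B - A = e2 * w ^ 2) := by
  by_contra hne
  push Not at hne
  obtain ⟨k1, k2, k3, k4⟩ := hne
  obtain ⟨x1, y1, sx1, hy1, e1', -, -⟩ := exists_sf (A * B) (mul_ne_zero hA hB)
  obtain ⟨x2, y2, sx2, hy2, e2', -, -⟩ := exists_sf A hA
  obtain ⟨x3, y3, sx3, hy3, e3', -, -⟩ := exists_sf B hB
  obtain ⟨z1, w1, sz1, hw1, g1, -, -⟩ := exists_sf (-A) (neg_ne_zero.2 hA)
  obtain ⟨z2, w2, sz2, hw2, g2, -, -⟩ := exists_sf (A * (A - B))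
    (mul_ne_zero hA (sub_ne_zero.2 hAB))
  obtain ⟨z3, w3, sz3, hw3, g3, -, -⟩ := exists_sf (B - A) (sub_ne_zero.2 hAB.symm)
  have m0 : ((1, 1) : ℤ × ℤ) ∈ Sel A B :=
    ⟨squarefree_one, squarefree_one, loc_one A B, fun p _ => loc_one A B⟩
  have m1 : ((x1, z1) : ℤ × ℤ) ∈ Sel A B :=
    ⟨sx1, sz1, loc_zero hA hB e1' hy1 g1 hw1, fun p _ => loc_zero hA hB e1' hy1 g1 hw1⟩
  have m2 : ((x2, z2) : ℤ × ℤ) ∈ Sel A B :=
    ⟨sx2, sz2, loc_A hA hAB e2' hy2 g2 hw2, fun p _ => loc_A hA hAB e2' hy2 g2 hw2⟩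
  have m3 : ((x3, z3) : ℤ × ℤ) ∈ Sel A B :=
    ⟨sx3, sz3, loc_B hB hAB e3' hy3 g3 hw3, fun p _ => loc_B hB hAB e3' hy3 g3 hw3⟩
  have n1 := sqf_part e1' nAB
  have n2 := sqf_part e2' nA
  have n3 := sqf_part e3' nB
  have sqc : ∀ {u v : ℤ}, u ≠ 0 → IsSquare (u ^ 2 * v) → IsSquare v := by
    intro u v hu h
    obtain ⟨r, hr⟩ := h
    have h1 : u ∣ r := by
      have : u ^ 2 ∣ r ^ 2 := ⟨v, by rw [hr]; ring⟩
      exact (Int.pow_dvd_pow_iff two_ne_zero).1 this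
    obtain ⟨c, rfl⟩ := h1
    refine ⟨c, mul_left_cancel₀ (pow_ne_zero 2 hu) (by linear_combination hr)⟩
  have n12 : x1 ≠ x2 := by
    intro h
    apply nB
    apply sqc hA
    refine ⟨x1 * y1 * y2, ?_⟩
    calc A ^ 2 * B = (A * B) * A := by ring
      _ = (x1 * y1 ^ 2) * (x2 * y2 ^ 2) := by rw [e1', ← e2']
      _ = _ := by rw [← h]; ring
  have n13 : x1 ≠ x3 := by
    intro h
    apply nA
    apply sqc hB
    refine ⟨x1 * y1 * y3, ?_⟩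
    calc B ^ 2 * A = (A * B) * B := by ring
      _ = (x1 * y1 ^ 2) * (x3 * y3 ^ 2) := by rw [e1', ← e3']
      _ = _ := by rw [← h]; ring
  have n23 : x2 ≠ x3 := by
    intro h
    apply nAB
    refine ⟨x2 * y2 * y3, ?_⟩
    calc A * B = (x2 * y2 ^ 2) * (x3 * y3 ^ 2) := by rw [← e2', ← e3']
      _ = _ := by rw [← h]; ring
  have hsub : ({(e1, e2), (1, 1), (x1, z1), (x2, z2), (x3, z3)} : Set (ℤ × ℤ)) ⊆ Sel A B := by
    rintro z (rfl | rfl | rfl | rfl | rfl)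
    · exact he
    · exact m0
    · exact m1
    · exact m2
    · exact m3
  have hcard : ({(e1, e2), (1, 1), (x1, z1), (x2, z2), (x3, z3)} : Set (ℤ × ℤ)).ncard = 5 := by
    rw [Set.ncard_insert_of_notMem, Set.ncard_insert_of_notMem, Set.ncard_insert_of_notMem,
      Set.ncard_pair]
    · exact fun h => n23 (congrArg Prod.fst h)
    · rintro (h | h)
      · exact n12 (congrArg Prod.fst h)
      · exact n13 (congrArg Prod.fst h)
    · rintro (h | h | h)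
      · exact n1 (congrArg Prod.fst h).symm
      · exact n2 (congrArg Prod.fst h).symm
      · exact n3 (congrArg Prod.fst h).symm
    · rintro (h | h | h | h)
      · exact k1 (congrArg Prod.fst h) (congrArg Prod.snd h)
      · have h1 : e1 = x1 := congrArg Prod.fst h
        have h2 : e2 = z1 := congrArg Prod.snd h
        exact k2 y1 w1 (by rw [h1]; exact e1') (by rw [h2]; exact g1)
      · have h1 : e1 = x2 := congrArg Prod.fst h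
        have h2 : e2 = z2 := congrArg Prod.snd h
        exact k3 y2 w2 (by rw [h1]; exact e2') (by rw [h2]; exact g2)
      · have h1 : e1 = x3 := congrArg Prod.fst h
        have h2 : e2 = z3 := congrArg Prod.snd h
        exact k4 y3 w3 (by rw [h1]; exact e3') (by rw [h2]; exact g3)
  have := Set.ncard_le_ncard hsub hf
  omega

lemma nsq_sqf {n : ℕ} (hn : Squarefree n) (h1 : 1 < n) : ¬ IsSquare (n : ℤ) := by
  rintro ⟨r, hr⟩
  have h2 : n = r.natAbs * r.natAbs := by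
    have := congrArg Int.natAbs hr
    rwa [Int.natAbs_natCast, Int.natAbs_mul] at this
  have h3 := Nat.isUnit_iff.1 (hn r.natAbs ⟨1, by rw [mul_one]; exact h2⟩)
  rw [h3] at h2
  omega

lemma nsq32 {m : ℤ} (hm : m % 2 = 1) : ¬ IsSquare (32 * m) := by
  rintro ⟨r, hr⟩
  have e2 : ∀ x : ℤ, (x * x) % 2 = 0 → ∃ y, x = 2 * y := by
    intro x hx
    rcases Int.emod_two_eq_zero_or_one x with h | h
    · exact ⟨x / 2, by omega⟩
    · exfalso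
      rw [Int.mul_emod, h] at hx
      norm_num at hx
  obtain ⟨r1, rfl⟩ := e2 r (by rw [← hr]; omega)
  have h1 : 8 * m = r1 * r1 := by linarith
  obtain ⟨r2, rfl⟩ := e2 r1 (by rw [← h1]; omega)
  have h2 : 2 * m = r2 * r2 := by linarith
  obtain ⟨r3, rfl⟩ := e2 r2 (by rw [← h2]; omega)
  have h3 : m = 2 * (r3 * r3) := by linarith
  omega

lemma nsq_neg {m : ℤ} (hm : m < 0) : ¬ IsSquare m := by
  rintro ⟨r, hr⟩
  have := mul_self_nonneg r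
  omega

/-- translation of the classes -/
lemma loc_t1 {K : Type} [Field K] {A B d : ℤ} (h : Loc K (-A) (B - A) 1 d) : Loc K A B d 1 := by
  obtain ⟨x, y, hy, h1, ⟨r, hr⟩, ⟨t, ht⟩⟩ := h
  push_cast at h1 hr ht
  refine ⟨x + A, y, hy, ?_, ⟨t, ?_⟩, ⟨r, ?_⟩⟩
  · rw [h1]; ring
  · rw [← ht]; ring
  · push_cast
    rw [← hr]; ring

lemma loc_t2 {K : Type} [Field K] {A B d : ℤ} (hd : (d : K) ≠ 0)
    (h : Loc K (-B) (A - B) 1 d) : Loc K A B d d := by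
  obtain ⟨x, y, hy, h1, ⟨r, hr⟩, ⟨t, ht⟩⟩ := h
  push_cast at h1 hr ht
  have hp : x * (x - -B) * (x - (A - B)) ≠ 0 := by rw [← h1]; exact pow_ne_zero 2 hy
  have hx : x ≠ 0 := left_ne_zero_of_mul (left_ne_zero_of_mul hp)
  have hxB : x - -B ≠ 0 := right_ne_zero_of_mul (left_ne_zero_of_mul hp)
  have hr0 : r ≠ 0 := by
    rintro rfl
    apply hx
    linear_combination hr
  have ht0 : t ≠ 0 := by
    rintro rfl
    exact mul_ne_zero hxB hd (by rw [ht, mul_zero])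
  refine ⟨x + B, y, hy, ?_, ⟨t, ?_⟩, ⟨y * d / (r * t), ?_⟩⟩
  · rw [h1]; ring
  · rw [← ht]; ring
  · rw [div_mul_div_comm, eq_div_iff (mul_ne_zero (mul_ne_zero hr0 ht0) (mul_ne_zero hr0 ht0))]
    have e : r * t * (r * t) = x * ((x - -B) * d) := by
      linear_combination (-(t * t)) * hr - x * ht
    rw [e]
    linear_combination (-(d : K) ^ 2) * h1

section

variable {s : Fin 3 → ℕ} {D : ℕ}

lemma even_log {n g c : ℕ} (h : n * 2 ^ (c + 2) = 2 ^ g) (he : Even (g + c)) :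
    Even (Nat.log 2 n) := by
  obtain ⟨f, -, hf⟩ := (Nat.dvd_prime_pow Nat.prime_two).1 (Dvd.intro _ h)
  rw [hf, ← pow_add] at h
  have h1 := Nat.pow_right_injective (le_refl 2) h
  rw [hf, Nat.log_pow (by norm_num)]
  obtain ⟨k, hk⟩ := he
  exact ⟨k - c - 1, by omega⟩

lemma even_log2 {n g c : ℕ} (h : n * 2 ^ c = 2 ^ (g + 2)) (he : Even (g + c)) :
    Even (Nat.log 2 n) := by
  obtain ⟨f, -, hf⟩ := (Nat.dvd_prime_pow Nat.prime_two).1 (Dvd.intro _ h)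
  rw [hf, ← pow_add] at h
  have h1 := Nat.pow_right_injective (le_refl 2) h
  rw [hf, Nat.log_pow (by norm_num)]
  obtain ⟨k, hk⟩ := he
  exact ⟨k + 1 - c, by omega⟩

/-- the three statements for a good triple -/
theorem Hy.good (h : Hy s D) (hP : PH s D) (hf : (Sel ((D : ℤ) * s 0) ((D : ℤ) * s 1)).Finite)
    (hc : (Sel ((D : ℤ) * s 0) ((D : ℤ) * s 1)).ncard ≤ 4) :
    GE ((D : ℤ) * s 0) ((D : ℤ) * s 1) ∧
    GE (-((D : ℤ) * s 0)) ((D : ℤ) * s 1 - (D : ℤ) * s 0) ∧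
    GE (-((D : ℤ) * s 1)) ((D : ℤ) * s 0 - (D : ℤ) * s 1) := by
  have hD0 : (0 : ℤ) < D := by exact_mod_cast h.dat.D0
  have p0 : (0 : ℤ) < s 0 := by exact_mod_cast h.dat.pos 0
  have p1 : (0 : ℤ) < s 1 := by exact_mod_cast h.dat.pos 1
  have p2 : (0 : ℤ) < s 2 := by exact_mod_cast h.dat.pos 2
  have hdif := h.dat.dif'
  have hd1 := h.dat.dif
  have A0 : (0 : ℤ) < (D : ℤ) * s 0 := mul_pos hD0 p0
  have B0 : (0 : ℤ) < (D : ℤ) * s 1 := mul_pos hD0 p1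
  have C0 : (0 : ℤ) < (D : ℤ) * s 2 := mul_pos hD0 p2
  have hBA : (D : ℤ) * s 1 < (D : ℤ) * s 0 := by linarith
  have hDo : D % 2 = 1 := by have := h.D8; omega
  have o0 : s 0 % 2 = 1 := by have := h.m0; omega
  have o2 : s 2 % 2 = 1 := by
    have h1 := h.dat.odd
    rw [h.dat.P3] at h1
    exact Nat.odd_iff.1 (Nat.odd_mul.1 h1).2
  have sD : Squarefree D := by
    rcases h.hD with h1 | h1
    · rw [h1]; exact squarefree_one
    · rw [h1]; exact (by norm_num : Nat.Prime 17).squarefree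
  have hco := h.dat.co
  rw [h.dat.P3] at hco
  have cD : ∀ x, x ∣ s 0 * s 1 * s 2 → D.Coprime x := fun x hx =>
    (Nat.Coprime.coprime_dvd_left hx hco).symm
  have g0 : 1 < s 0 := by omega
  have g1 : 1 < s 1 := by have := h.n1; omega
  have q0 : Squarefree (D * s 0) := by
    rw [Nat.squarefree_mul_iff]
    exact ⟨cD _ ⟨s 1 * s 2, by ring⟩, sD, h.dat.sqj 0⟩
  have q1 : Squarefree (D * s 1) := by
    rw [Nat.squarefree_mul_iff]
    exact ⟨cD _ ⟨s 0 * s 2, by ring⟩, sD, h.dat.sqj 1⟩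
  have q01 : Squarefree (s 0 * s 1) := by
    rw [Nat.squarefree_mul_iff]
    exact ⟨h.dat.cop01, h.dat.sqj 0, h.dat.sqj 1⟩
  have nA : ¬ IsSquare ((D : ℤ) * s 0) := by
    have := nsq_sqf q0 (lt_of_lt_of_le g0 (Nat.le_mul_of_pos_left _ h.dat.D0))
    push_cast at this
    exact this
  have nB : ¬ IsSquare ((D : ℤ) * s 1) := by
    have := nsq_sqf q1 (lt_of_lt_of_le g1 (Nat.le_mul_of_pos_left _ h.dat.D0))
    push_cast at this
    exact this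
  have sqc : ∀ {u v : ℤ}, u ≠ 0 → IsSquare (u ^ 2 * v) → IsSquare v := by
    intro u v hu h
    obtain ⟨r, hr⟩ := h
    have h1 : u ∣ r := by
      have : u ^ 2 ∣ r ^ 2 := ⟨v, by rw [hr]; ring⟩
      exact (Int.pow_dvd_pow_iff two_ne_zero).1 this
    obtain ⟨c, rfl⟩ := h1
    refine ⟨c, mul_left_cancel₀ (pow_ne_zero 2 hu) (by linear_combination hr)⟩
  have nAB : ¬ IsSquare ((D : ℤ) * s 0 * ((D : ℤ) * s 1)) := by
    intro h1
    have h2 : (D : ℤ) * s 0 * ((D : ℤ) * s 1) = (D : ℤ) ^ 2 * ((s 0 * s 1 : ℕ) : ℤ) := by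
      push_cast; ring
    rw [h2] at h1
    exact nsq_sqf q01 (lt_of_lt_of_le g0 (Nat.le_mul_of_pos_right _ (by omega)))
      (sqc hD0.ne' h1)
  have od : ((D : ℤ) * s 2) % 2 = 1 := by
    have : (D * s 2) % 2 = 1 := by rw [Nat.mul_mod, hDo, o2]
    have h2 : ((D * s 2 : ℕ) : ℤ) % 2 = 1 := by omega
    push_cast at h2
    exact h2
  have od2 : ((D : ℤ) * s 0 * ((D : ℤ) * s 2)) % 2 = 1 := by
    have h1 : ((D : ℤ) * s 0) % 2 = 1 := by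
      have : (D * s 0) % 2 = 1 := by rw [Nat.mul_mod, hDo, o0]
      have h2 : ((D * s 0 : ℕ) : ℤ) % 2 = 1 := by omega
      push_cast at h2
      exact h2
    rw [Int.mul_emod, h1, od]
    rfl
  have nd : ¬ IsSquare ((D : ℤ) * s 0 - (D : ℤ) * s 1) := by
    rw [hdif]
    exact nsq32 od
  have nAd : ¬ IsSquare ((D : ℤ) * s 0 * ((D : ℤ) * s 0 - (D : ℤ) * s 1)) := by
    have e : (D : ℤ) * s 0 * ((D : ℤ) * s 0 - (D : ℤ) * s 1) =
        32 * ((D : ℤ) * s 0 * ((D : ℤ) * s 2)) := by rw [hdif]; ring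
    rw [e]
    exact nsq32 od2
  have F := fun {e1 e2 : ℤ} (he : ((e1, e2) : ℤ × ℤ) ∈ Sel ((D : ℤ) * s 0) ((D : ℤ) * s 1)) =>
    sel_four A0.ne' B0.ne' hBA.ne' nA nB nAB hf hc he
  have t0 : ∀ e : ℤ, ((1, e) : ℤ × ℤ) ∈ Sel ((D : ℤ) * s 0) ((D : ℤ) * s 1) → e = 1 := by
    intro e he
    rcases F he with ⟨-, h2⟩ | ⟨y, w, h1, -⟩ | ⟨y, w, h1, -⟩ | ⟨y, w, h1, -⟩
    · exact h2
    · exact absurd ⟨y, by rw [h1]; ring⟩ nAB
    · exact absurd ⟨y, by rw [h1]; ring⟩ nA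
    · exact absurd ⟨y, by rw [h1]; ring⟩ nB
  have t1 : ∀ e : ℤ, ((e, 1) : ℤ × ℤ) ∈ Sel ((D : ℤ) * s 0) ((D : ℤ) * s 1) → e = 1 := by
    intro e he
    rcases F he with ⟨h2, -⟩ | ⟨y, w, -, h1⟩ | ⟨y, w, -, h1⟩ | ⟨y, w, -, h1⟩
    · exact h2
    · exact absurd ⟨w, by rw [h1]; ring⟩ (nsq_neg (by omega : -((D : ℤ) * s 0) < 0))
    · exact absurd ⟨w, by rw [h1]; ring⟩ nAd
    · exact absurd ⟨w, by rw [h1]; ring⟩ (nsq_neg (by omega : (D : ℤ) * s 1 - (D : ℤ) * s 0 < 0))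
  have t2 : ∀ e : ℤ, ((e, e) : ℤ × ℤ) ∈ Sel ((D : ℤ) * s 0) ((D : ℤ) * s 1) → e = 1 := by
    intro e he
    rcases F he with ⟨h2, -⟩ | ⟨y, w, h3, h1⟩ | ⟨y, w, h3, h1⟩ | ⟨y, w, h3, h1⟩
    · exact h2
    · exfalso
      have h4 : IsSquare (((D : ℤ) * s 0) ^ 2 * (-((D : ℤ) * s 1))) := by
        refine ⟨e * y * w, ?_⟩
        linear_combination (-((D : ℤ) * s 0)) * h3 + e * y ^ 2 * h1
      exact nsq_neg (by omega : -((D : ℤ) * s 1) < 0) (sqc A0.ne' h4)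
    · exfalso
      have h4 : IsSquare (((D : ℤ) * s 0) ^ 2 * ((D : ℤ) * s 0 - (D : ℤ) * s 1)) := by
        refine ⟨e * y * w, ?_⟩
        linear_combination ((D : ℤ) * s 0 * ((D : ℤ) * s 0 - (D : ℤ) * s 1)) * h3 + e * y ^ 2 * h1
      exact nd (sqc A0.ne' h4)
    · exfalso
      have h4 : IsSquare ((D : ℤ) * s 1 * ((D : ℤ) * s 1 - (D : ℤ) * s 0)) := by
        refine ⟨e * y * w, ?_⟩
        linear_combination ((D : ℤ) * s 1 - (D : ℤ) * s 0) * h3 + e * y ^ 2 * h1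
      exact nsq_neg (mul_neg_of_pos_of_neg B0 (by omega)) h4
  refine ⟨⟨fun d hd hr hp => t0 d ⟨squarefree_one, hd, hr, fun p _ => hp p⟩,
      even_log (h.sq0 t0) (h.par0 hP)⟩, ⟨fun d hd hr hp => t1 d ⟨hd, squarefree_one, loc_t1 hr,
      fun p _ => loc_t1 (hp p)⟩, even_log2 (h.sq1 t1) (h.par1 hP).1⟩,
    ⟨fun d hd hr hp => t2 d ⟨hd, hd, loc_t2 (by exact_mod_cast hd.ne_zero) hr,
      fun p _ => loc_t2 (by exact_mod_cast hd.ne_zero) (hp p)⟩,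
      even_log2 (h.sq2 t2) (h.par1 hP).2⟩⟩

end

open WeierstrassCurve in
/-- the property of the curves -/
def TQ (c : ℤ × ℤ) : Prop := TPR 0 c ∧
  (∃ (a b : ℤ) (C : VariableChange ℚ),
    C • (⟨0, 0, 0, (c.1 : ℚ), (c.2 : ℚ)⟩ : WeierstrassCurve ℚ) = ⟨0, a, 0, b, 0⟩) ∧
  ∀ (a b : ℤ) (C : VariableChange ℚ),
    C • (⟨0, 0, 0, (c.1 : ℚ), (c.2 : ℚ)⟩ : WeierstrassCurve ℚ) = ⟨0, a, 0, b, 0⟩ → Gd a b ∧
      Nonempty ((⟨0, 0, 0, (c.1 : ℚ), (c.2 : ℚ)⟩ : WeierstrassCurve ℚ).toAffine.Point ≃+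
        (⟨0, a, 0, b, 0⟩ : WeierstrassCurve ℚ).toAffine.Point)

lemma pair2 {X : ℕ} {t : ℕ × ℕ} (ht : t ∈ Icc 1 X ×ˢ Icc 1 X) (h : GoodR 0 X t) :
    ∃ s : Fin 3 → ℕ, (s 0 : ℤ) = t.1 ∧ (s 1 : ℤ) = t.2 ∧
      (s 0 : ℤ) + s 1 = 3 * (((t.1 + t.2) / 3 : ℕ) : ℤ) ∧
      ((Hy s 1 ∧ PH s 1 ∧ (Sel (s 0 : ℤ) (s 1)).Finite ∧ (Sel (s 0 : ℤ) (s 1)).ncard = 2 ^ 2 ∧
          TPR 0 (cc (t.1 : ℤ) (t.2 : ℤ) (((t.1 + t.2) / 3 : ℕ) : ℤ))) ∨
        (Hy s 17 ∧ PH s 17 ∧ (Sel (17 * (s 0 : ℤ)) (17 * (s 1))).Finite ∧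
          (Sel (17 * (s 0 : ℤ)) (17 * (s 1))).ncard = 2 ^ 2 ∧
          TPR 0 (cc (17 * (t.1 : ℤ)) (17 * (t.2 : ℤ)) (17 * (((t.1 + t.2) / 3 : ℕ) : ℤ))))) := by
  obtain ⟨f1, f2, f3, f4, f5, f6, f7⟩ := factsN ht (goodN_of h)
  obtain ⟨-, -, -, -, -, -, -, s, e0, e1, hsq, hodd, hp, heq, m0, m1, m2, m3, hσ,
    ⟨v0, c0, l0⟩, v1, c1, l1⟩ := h
  have h17 : ¬ 17 ∣ ∏ j, s j := by
    intro h
    have := hp 17 (by norm_num) h
    omega
  have hp17 : Nat.Prime 17 := by norm_num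
  have hy1 : Hy s 1 := ⟨⟨hsq, hodd, Nat.coprime_one_right _, heq, one_pos⟩, Or.inl rfl, hp, m0, m1,
    m2, m3⟩
  have hy17 : Hy s 17 := ⟨⟨hsq, hodd, ((Nat.Prime.coprime_iff_not_dvd hp17).2 h17).symm, heq,
    by norm_num⟩, Or.inr rfl, hp, m0, m1, m2, m3⟩
  have hD : DP s := ⟨hsq, hodd, heq, m0, m1⟩
  obtain ⟨k, k', hk, hk', hodd'⟩ := Pool.Agent.Y655.RZ.PAR Pool.Agent.Y212.RZ.LAG s hsq hodd h17 heq
    m0 m1 m2 m3 hσ
  obtain ⟨k1, hk1, hev⟩ := abs s hsq hodd heq m0 m1 hσ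
  have hkk1 : k1 = k := Nat.pow_right_injective (le_refl 2) (hk1.symm.trans hk)
  subst hkk1
  obtain ⟨g0, g1⟩ := Pool.Agent.Y535.RZ.SEL17 s hsq hodd h17 heq m0 m1 m2 m3
  obtain ⟨r0, r1⟩ := Pool.Agent.Y535.RZ.SURJ Pool.Agent.Y105.RZ.GOODS s hsq hodd hp heq m0 m1 m2 m3
  have E0 := Set.Subset.antisymm g0 r0
  have E1 := Set.Subset.antisymm g1 r1
  rw [hk] at c0 l0
  rw [hk'] at c1 l1
  rw [← E0] at v0 hk
  rw [← E1] at v1 hk'
  have hkk : (s 0 : ℤ) + s 1 = 3 * (((t.1 + t.2) / 3 : ℕ) : ℤ) := by rw [e0, e1]; exact f1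
  refine ⟨s, by rw [e0], by rw [e1], hkk, ?_⟩
  have R1 := hD.root1 hkk
  have R2 := hD.root17 h17 m2 m3 hkk
  have G1 := hD.glob1 hkk
  have G2 := hD.glob17 h17 m2 m3 hkk
  obtain ⟨n, hn⟩ : ∃ n, n = ((∏ j, s j).primeFactors \ sgF (s 0) (s 1) (∏ j, s j)).card := ⟨_, rfl⟩
  have PH1 : PH s 1 ↔ Even (n + 0) := by
    unfold PH
    rw [← hn]
    simp
  have PH17 : PH s 17 ↔ Even (n + 1 + 0) := by
    unfold PH
    rw [← hn, hp17.primeFactors, card_singleton]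
  rw [← hn] at R1 R2 G1 G2 hev
  have S1 := v0
  have S2 := hk
  have S3 := v1
  have S4 := hk'
  rw [e0, e1] at R1 R2 G1 G2 v0 v1 hk hk'
  rcases par_mid hodd' c0 c1 l0 l1 with h | h
  · left
    obtain ⟨t1, t2⟩ := tgN f1 f2 f3 v0 (hk.trans h)
    have hkr : k1 = 0 + 2 := Nat.pow_right_injective (le_refl 2) h
    have hnr : Even (n + 0) := by
      rw [hkr] at hev
      have : 0 + 2 + n = n + 0 + 2 := by ring
      rw [this] at hev
      exact (Nat.even_add.1 hev).2 (by decide)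
    rw [npow_eq hnr] at R1 G1
    exact ⟨hy1, PH1.2 hnr, S1, S2.trans h, ⟨t1, t2, R1, G1⟩⟩
  · right
    obtain ⟨t1, t2⟩ := tgN (N := 2 ^ (0 + 2)) (a := 17 * (t.1 : ℤ)) (b := 17 * (t.2 : ℤ))
      (k := 17 * (((t.1 + t.2) / 3 : ℕ) : ℤ)) (by linarith) (by linarith) (by linarith) v1
      (hk'.trans h)
    have hkr : k' = 0 + 2 := Nat.pow_right_injective (le_refl 2) h
    have hnr : Even (n + 1 + 0) := by
      rw [hkr] at hodd'
      obtain ⟨x, hx⟩ := hodd'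
      obtain ⟨y, hy⟩ := hev
      exact ⟨y + x - k1, by omega⟩
    rw [npow_eq hnr] at R2 G2
    exact ⟨hy17, PH17.2 hnr, S3, S4.trans h, ⟨t1, t2, R2, G2⟩⟩

open WeierstrassCurve in
/-- the equations of a good curve -/
lemma tq_of {s : Fin 3 → ℕ} {D : ℕ} (h : Hy s D) (hP : PH s D)
    (hf : (Sel ((D : ℤ) * s 0) ((D : ℤ) * s 1)).Finite)
    (hc : (Sel ((D : ℤ) * s 0) ((D : ℤ) * s 1)).ncard ≤ 4) {A B k : ℤ} (hA : A = (D : ℤ) * s 0)
    (hB : B = (D : ℤ) * s 1) (hk : A + B = 3 * k) (hT : TPR 0 (cc A B k)) : TQ (cc A B k) := by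
  obtain ⟨g0, g1, g2⟩ := h.good hP hf hc
  rw [← hA, ← hB] at g0 g1 g2
  have hD0 : (0 : ℤ) < D := by exact_mod_cast h.dat.D0
  have p0 : (0 : ℤ) < s 0 := by exact_mod_cast h.dat.pos 0
  have p1 : (0 : ℤ) < s 1 := by exact_mod_cast h.dat.pos 1
  have p2 : (0 : ℤ) < s 2 := by exact_mod_cast h.dat.pos 2
  have hdif := h.dat.dif'
  have A0 : A ≠ 0 := by rw [hA]; exact (mul_pos hD0 p0).ne'
  have B0 : B ≠ 0 := by rw [hB]; exact (mul_pos hD0 p1).ne'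
  have AB : A ≠ B := by
    intro h1
    rw [hA, hB] at h1
    have := mul_pos hD0 p2
    omega
  refine ⟨hT, ⟨-(A + B), A * B, ⟨1, -k, 0, 0⟩, ?_⟩, fun a b C hC => gd_all hk A0 B0 AB g0 g1 g2 C hC⟩
  have hkQ : (A : ℚ) + B = 3 * k := by exact_mod_cast hk
  ext
  · simp [variableChange_a₁]
  · simp only [variableChange_a₂, inv_one, Units.val_one, one_pow, one_mul, mul_zero, sub_zero,
      zero_pow two_ne_zero]
    push_cast
    linear_combination hkQ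
  · simp [variableChange_a₃]
  · simp only [variableChange_a₄, inv_one, Units.val_one, one_pow, one_mul, mul_zero, sub_zero,
      zero_mul, add_zero]
    unfold cc
    push_cast
    ring
  · simp only [variableChange_a₆, inv_one, Units.val_one, one_pow, one_mul, mul_zero, sub_zero,
      zero_mul, add_zero]
    unfold cc
    push_cast
    linear_combination (-(k : ℚ) ^ 2) * hkQ

open Classical in
/-- **a positive proportion of the curves** -/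
theorem main : ∃ c : ℝ, 0 < c ∧ ∃ H0 : ℕ, ∀ H : ℕ, H0 ≤ H →
    c * ((Cv 2 H).card : ℝ) ≤ (((Cv 2 H).filter TQ).card : ℝ) := by
  refine transR 0 TQ fun X t ht h => ?_
  obtain ⟨s, e0, e1, hk, ⟨h1, h2, h3, h4, h5⟩ | ⟨h1, h2, h3, h4, h5⟩⟩ := pair2 ht h
  · left
    refine tq_of h1 h2 ?_ ?_ (by rw [← e0, Nat.cast_one, one_mul]) (by rw [← e1, Nat.cast_one,
      one_mul]) (by rw [← e0, ← e1]; exact hk) h5
    · rw [Nat.cast_one, one_mul, one_mul]; exact h3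
    · rw [Nat.cast_one, one_mul, one_mul, h4]; norm_num
  · right
    refine tq_of h1 h2 ?_ ?_ (by rw [← e0]; rfl) (by rw [← e1]; rfl)
      (by rw [← e0, ← e1]; linarith) h5
    · exact h3
    · have : (Sel (((17 : ℕ) : ℤ) * (s 0 : ℤ)) (((17 : ℕ) : ℤ) * (s 1))).ncard = 2 ^ 2 := h4
      rw [this]
      norm_num

end Pool.Agent.X257.PS
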