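import Pool.Agent.X257.PS.Lin

/-!
# Project PS: the transposed system
-/

set_option autoImplicit false

namespace Pool.Agent.X257.PS

open Finset Pool.Agent.TH841.LS Pool.Agent.TH841.LS.LINf Pool.Agent.TH841.NO

lemma sj_one (p : ℕ) : sj p 1 = 0 := by
  unfold sj
  rw [jacobiSym.one_left]
  decide

lemma sj_neg_one {q : ℕ} (hq : q % 2 = 1) : sj q (-1) = s4 q := by
  unfold sj s4
  rw [jacobiSym.at_neg_one (Nat.odd_iff.2 hq)]
  have h : q % 4 = 1 ∨ q % 4 = 3 := by omega
  rcases h with h | h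
  · rw [ZMod.χ₄_nat_one_mod_four h, if_neg (by decide), if_neg (by omega)]
  · rw [ZMod.χ₄_nat_three_mod_four h, if_pos rfl, if_pos (by omega)]

lemma sj_two {q : ℕ} (hq : q % 2 = 1) : sj q 2 = s8 q := by
  unfold sj s8
  rw [jacobiSym.at_two (Nat.odd_iff.2 hq)]
  have h : q % 8 = 1 ∨ q % 8 = 3 ∨ q % 8 = 5 ∨ q % 8 = 7 := by omega
  rw [ZMod.χ₈_nat_eq_if_mod_eight]
  rcases h with h | h | h | h
  · have h' : (q : ℤ) % 8 = 1 := by omega
    simp [h, h', hq]
  · have h' : (q : ℤ) % 8 = 3 := by omega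
    simp [h, h', hq]
  · have h' : (q : ℤ) % 8 = 5 := by omega
    simp [h, h', hq]
  · have h' : (q : ℤ) % 8 = 7 := by omega
    simp [h, h', hq]

lemma jac_st {r q : ℕ} (hr : r % 2 = 1) (hq : q % 2 = 1) : jacobiSym (st r) q = jacobiSym q r := by
  have ho : Odd r := Nat.odd_iff.2 hr
  have hoq : Odd q := Nat.odd_iff.2 hq
  unfold st
  by_cases h : r % 4 = 1
  · rw [if_pos h]
    exact jacobiSym.quadratic_reciprocity_one_mod_four h hoq
  · have h3 : r % 4 = 3 := by omega
    rw [if_neg h]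
    have h4 : q % 4 = 1 ∨ q % 4 = 3 := by omega
    rw [← neg_one_mul, jacobiSym.mul_left, jacobiSym.at_neg_one hoq]
    rcases h4 with h4 | h4
    · rw [ZMod.χ₄_nat_one_mod_four h4, one_mul]
      exact jacobiSym.quadratic_reciprocity_one_mod_four' ho h4
    · rw [ZMod.χ₄_nat_three_mod_four h4, jacobiSym.quadratic_reciprocity_three_mod_four h3 h4]
      ring

lemma sj_st {r q : ℕ} (hr : r % 2 = 1) (hq : q % 2 = 1) : sj q (st r) = sj r q := by
  unfold sj
  rw [jac_st hr hq]

/-- the factors -/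
def fq (C : Finset ℕ) (q : ℕ) : RR C → ℤ
  | .inl i => rho C (.inl i)
  | .inr r => if (r : ℕ) = q then 1 else st r

/-- the integer of `y` without the factor `q` -/
def eq2 (C : Finset ℕ) (y : RR C → ZMod 2) (q : ℕ) : ℤ := ∏ r, if y r = 1 then fq C q r else 1

lemma odd_of {p : ℕ} (h : p.Prime ∧ p ≠ 2) : p % 2 = 1 := by
  have := h.1.eq_two_or_odd
  have := h.2
  omega

lemma natAbs_st (r : ℕ) : (st r).natAbs = r := by
  unfold st
  split_ifs <;> simp

lemma not_dvd_fq {C : Finset ℕ} (hC : ∀ p ∈ C, p.Prime ∧ p ≠ 2) {q : ℕ} (hq : q.Prime ∧ q ≠ 2)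
    (r : RR C) : ¬ (q : ℤ) ∣ fq C q r := by
  have h1 : ¬ (q : ℤ) ∣ 1 := by
    intro h1
    have : q ∣ 1 := by exact_mod_cast h1
    exact hq.1.one_lt.ne' (Nat.dvd_one.1 this)
  rcases r with i | r
  · show ¬ (q : ℤ) ∣ (if i = 0 then -1 else 2)
    split_ifs
    · rwa [dvd_neg]
    · intro h
      have : q ∣ 2 := by exact_mod_cast h
      exact hq.2 ((Nat.prime_dvd_prime_iff_eq hq.1 Nat.prime_two).1 this)
  · show ¬ (q : ℤ) ∣ (if (r : ℕ) = q then 1 else st r)
    split_ifs with h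
    · exact h1
    · intro h2
      rw [Int.natCast_dvd, natAbs_st] at h2
      exact h ((Nat.prime_dvd_prime_iff_eq hq.1 (hC r.1 r.2).1).1 h2).symm

/-- **columns** -/
theorem cols {G C : Finset ℕ} (hG : ∀ p ∈ G, p.Prime ∧ p ≠ 2) (hC : ∀ p ∈ C, p.Prime ∧ p ≠ 2)
    (y : RR C → ZMod 2) (q : G) : ¬ ((q : ℕ) : ℤ) ∣ eq2 C y q ∧
      (∑ r, y r * chi C G r q = 0 ↔ jacobiSym (eq2 C y q) (q : ℕ) = 1) := by
  have hq := hG q.1 q.2
  have h1 : ¬ ((q : ℕ) : ℤ) ∣ 1 := by
    intro h1
    have : (q : ℕ) ∣ 1 := by exact_mod_cast h1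
    exact hq.1.one_lt.ne' (Nat.dvd_one.1 this)
  obtain ⟨j1, j2⟩ := s_prod (sj q) (fun n => ¬ ((q : ℕ) : ℤ) ∣ n) h1 (sj_one _)
    (fun a b ha hb => ⟨fun h => by
      rcases (Nat.prime_iff_prime_int.1 hq.1).dvd_or_dvd h with h | h
      · exact ha h
      · exact hb h, sj_mul hq.1 ha hb⟩) univ
    (fq C q) y (fun r _ => not_dvd_fq hC hq r)
  refine ⟨j1, ?_⟩
  change _ ↔ jacobiSym (∏ k, if y k = 1 then fq C (↑q) k else 1) ↑q = 1
  rw [← sj_zero hq.1 j1, j2]
  have hsum : ∑ r, y r * chi C G r q = ∑ r, y r * sj q (fq C q r) := by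
    refine Finset.sum_congr rfl fun r _ => ?_
    congr 1
    rcases r with i | r
    · show (if i = 0 then s4 (q : ℕ) else s8 (q : ℕ)) = sj q (if i = 0 then -1 else 2)
      split_ifs
      · exact (sj_neg_one (odd_of hq)).symm
      · exact (sj_two (odd_of hq)).symm
    · show sj r (fp r (q : ℕ)) = sj q (if (r : ℕ) = q then 1 else st r)
      by_cases h : (r : ℕ) = q
      · rw [if_pos h, sj_one]
        unfold fp
        rw [if_pos (by exact_mod_cast h.symm), sj_one]
      · rw [if_neg h, sj_st (odd_of (hC r.1 r.2)) (odd_of hq)]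
        unfold fp
        rw [if_neg (fun h' => h (by exact_mod_cast h'.symm))]
  rw [hsum]

/-- the integer of `y` -/
lemma ee_split (C : Finset ℕ) (y : RR C → ZMod 2) : ee C y =
    (if y (.inl 0) = 1 then -1 else 1) * (if y (.inl 1) = 1 then 2 else 1) *
      ∏ r : C, if y (.inr r) = 1 then st r else 1 := by
  unfold ee
  rw [Fintype.prod_sum_type, Fin.prod_univ_two]
  rfl

lemma natAbs_ee (C : Finset ℕ) (y : RR C → ZMod 2) : (ee C y).natAbs =
    (if y (.inl 1) = 1 then 2 else 1) * (dd C (fun r => y (.inr r))).natAbs := by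
  rw [ee_split, Int.natAbs_mul, Int.natAbs_mul]
  have h1 : (∏ r : C, if y (.inr r) = 1 then st r else 1).natAbs =
      (dd C (fun r => y (.inr r))).natAbs := by
    unfold dd
    rw [← Int.natAbsHom_apply, ← Int.natAbsHom_apply, map_prod, map_prod]
    refine Finset.prod_congr rfl fun r _ => ?_
    simp only [Int.natAbsHom_apply]
    split_ifs
    · rw [natAbs_st]; rfl
    · rfl
  rw [h1]
  split_ifs <;> simp

lemma ee_sqf {C : Finset ℕ} (hC : ∀ p ∈ C, p.Prime ∧ p ≠ 2) (y : RR C → ZMod 2) :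
    Squarefree (ee C y) := by
  rw [← Int.squarefree_natAbs, natAbs_ee]
  have h1 : Squarefree (dd C (fun r => y (.inr r))).natAbs := by
    rw [Int.squarefree_natAbs]
    exact dd_sqf (fun p hp => (hC p hp).1) _
  split_ifs
  · rw [Nat.squarefree_mul_iff]
    refine ⟨?_, Nat.prime_two.squarefree, h1⟩
    rw [Nat.Prime.coprime_iff_not_dvd Nat.prime_two]
    have := (row4 hC (fun r => y (.inr r))).1
    omega
  · rwa [one_mul]

lemma ee_dvd {C : Finset ℕ} (hC : ∀ p ∈ C, p.Prime ∧ p ≠ 2) (y : RR C → ZMod 2) {p : ℕ}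
    (hp : p.Prime) (h : (p : ℤ) ∣ ee C y) : p = 2 ∨ p ∈ C := by
  rw [Int.natCast_dvd, natAbs_ee] at h
  rcases (hp.dvd_mul).1 h with h | h
  · left
    split_ifs at h
    · exact (Nat.prime_dvd_prime_iff_eq hp Nat.prime_two).1 h
    · exact absurd (Nat.dvd_one.1 h) hp.one_lt.ne'
  · right
    exact dvd_dd (fun p hp => (hC p hp).1) _ hp (Int.natCast_dvd.2 h)

lemma ee_one {C : Finset ℕ} (hC : ∀ p ∈ C, p.Prime ∧ p ≠ 2) {y : RR C → ZMod 2}
    (h : ee C y = 1) : y = 0 := by
  have h1 := congrArg Int.natAbs h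
  rw [natAbs_ee, Int.natAbs_one] at h1
  have h2 := Nat.eq_one_of_mul_eq_one_right h1
  have h3 := Nat.eq_one_of_mul_eq_one_left h1
  have h01 : ∀ z : ZMod 2, z ≠ 1 → z = 0 := by decide
  have h4 : y (.inl 1) = 0 := by
    apply h01
    intro h4
    rw [if_pos h4] at h2
    exact absurd h2 (by norm_num)
  have hCp : ∀ p ∈ C, p.Prime := fun p hp => (hC p hp).1
  have h5 : (fun r : C => y (.inr r)) = 0 := by
    apply dd_inj hCp
    have h6 : dd C (0 : C → ZMod 2) = 1 := by
      unfold dd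
      refine Finset.prod_eq_one fun r _ => ?_
      rw [if_neg]
      show ¬ (0 : ZMod 2) = 1
      decide
    rw [h6]
    have := dd_pos hCp (fun r => y (.inr r))
    omega
  have h7 : y (.inl 0) = 0 := by
    apply h01
    intro h7
    rw [ee_split, if_pos h7, if_neg (by rw [h4]; decide)] at h
    have h8 : ∏ r : C, (if y (.inr r) = 1 then st r else 1) = 1 := by
      refine Finset.prod_eq_one fun r _ => ?_
      rw [if_neg]
      have h9 : y (.inr r) = 0 := congrFun h5 r
      rw [h9]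
      decide
    rw [h8] at h
    norm_num at h
  funext r
  rcases r with i | r
  · by_cases hi : i = 0
    · rw [hi]; exact h7
    · have : i = 1 := by omega
      rw [this]; exact h4
  · exact congrFun h5 r

/-- `ee` and `eq2` -/
lemma ee_eq2 {C : Finset ℕ} (y : RR C → ZMod 2) {q : ℕ} (hq : q ∉ C) : eq2 C y q = ee C y := by
  unfold eq2 ee
  refine Finset.prod_congr rfl fun r _ => ?_
  rcases r with i | r
  · rfl
  · have : (r : ℕ) ≠ q := fun h => hq (h ▸ r.2)
    show (if y (.inr r) = 1 then (if (r : ℕ) = q then 1 else st r) else 1) =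
      if y (.inr r) = 1 then st r else 1
    rw [if_neg this]

/-- for `q ∈ C` the integer is `eq2` times `1` or `st q` -/
lemma ee_eq2' {C : Finset ℕ} (y : RR C → ZMod 2) (q : C) :
    ee C y = eq2 C y q * (if y (.inr q) = 1 then st q else 1) := by
  classical
  unfold ee eq2
  rw [← Finset.mul_prod_erase univ _ (mem_univ (Sum.inr q : RR C)),
    ← Finset.mul_prod_erase univ (fun r => if y r = 1 then fq C q r else 1)
      (mem_univ (Sum.inr q : RR C))]
  have h1 : (if y (.inr q) = 1 then fq C q (.inr q) else 1) = 1 := by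
    show (if y (.inr q) = 1 then (if (q : ℕ) = q then 1 else st q) else 1) = 1
    rw [if_pos rfl, ite_self]
  rw [h1, one_mul, mul_comm]
  congr 1
  refine Finset.prod_congr rfl fun r hr => ?_
  rcases r with i | r
  · rfl
  · have : (r : ℕ) ≠ q := fun h => (ne_of_mem_erase hr) (by rw [Subtype.ext h])
    show (if y (.inr r) = 1 then st r else 1) =
      if y (.inr r) = 1 then (if (r : ℕ) = q then 1 else st r) else 1
    rw [if_neg this]

end Pool.Agent.X257.PS
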