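import Pool.Agent.X257.PS.Sel
import Pool.Agent.Y535.RZ.SURJ

/-!
# Project PS: the data of the good pairs, the isogeny with kernel `(0, 0)`
-/

set_option autoImplicit false

namespace Pool.Agent.X257.PS

open Finset Pool.Agent.TH841.LS Pool.Agent.TH841.LS.LINf Pool.Agent.TH841.NO Pool.Agent.W307.SE
  Pool.Agent.Y212.RZ Pool.Agent.W262.RK Pool.Agent.W307.FK Pool.Agent.Y667.RP Pool.Agent.Y667.RZ
  Pool.Agent.Y535.RZ

/-- the hypotheses -/
structure Hy (s : Fin 3 → ℕ) (D : ℕ) : Prop where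
  dat : Dat s D
  hD : D = 1 ∨ D = 17
  big : ∀ p : ℕ, p.Prime → p ∣ ∏ j, s j → 17 < p
  m0 : s 0 % 8 = 1
  m1 : s 1 % 8 = 1
  n0 : s 0 % 17 = 1
  n1 : s 1 % 17 = 15

/-- the primes of `A B` -/
def G0 (s : Fin 3 → ℕ) (D : ℕ) : Finset ℕ := (s 0 * s 1 * D).primeFactors

/-- the split primes of `A - B` -/
def C0 (s : Fin 3 → ℕ) (D : ℕ) : Finset ℕ :=
  (s 2).primeFactors.filter (fun p => jacobiSym ((D : ℤ) * s 0) p = 1) ∪ D.primeFactors

section

variable {s : Fin 3 → ℕ} {D : ℕ}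

lemma Hy.pD (h : Hy s D) {p : ℕ} (hp : p.Prime) (hpD : p ∣ D) : D = 17 ∧ p = 17 := by
  rcases h.hD with h1 | h1
  · rw [h1] at hpD
    exact absurd (Nat.dvd_one.1 hpD) hp.one_lt.ne'
  · rw [h1] at hpD
    exact ⟨h1, (Nat.prime_dvd_prime_iff_eq hp (by norm_num)).1 hpD⟩

lemma Hy.D8 (h : Hy s D) : D % 8 = 1 := by
  rcases h.hD with h1 | h1 <;> rw [h1]

lemma Hy.bj (h : Hy s D) {p : ℕ} (hp : p.Prime) {j : Fin 3} (hj : p ∣ s j) : 17 < p :=
  h.big p hp (hj.trans (h.dat.sj_dvd j))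

lemma Hy.memG (h : Hy s D) {p : ℕ} : p ∈ G0 s D ↔ p.Prime ∧ (p ∣ s 0 ∨ p ∣ s 1 ∨ p ∣ D) := by
  unfold G0
  rw [Nat.mem_primeFactors]
  have h0 : s 0 * s 1 * D ≠ 0 :=
    mul_ne_zero (mul_ne_zero (h.dat.pos 0).ne' (h.dat.pos 1).ne') h.dat.D0.ne'
  constructor
  · rintro ⟨h1, h2, -⟩
    refine ⟨h1, ?_⟩
    rcases h1.dvd_mul.1 h2 with h3 | h3
    · rcases h1.dvd_mul.1 h3 with h4 | h4
      · exact Or.inl h4
      · exact Or.inr (Or.inl h4)
    · exact Or.inr (Or.inr h3)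
  · rintro ⟨h1, h2 | h2 | h2⟩
    · exact ⟨h1, (h2.mul_right _).mul_right _, h0⟩
    · exact ⟨h1, (h2.mul_left _).mul_right _, h0⟩
    · exact ⟨h1, h2.mul_left _, h0⟩

lemma Hy.memC (h : Hy s D) {p : ℕ} : p ∈ C0 s D ↔
    p.Prime ∧ ((p ∣ s 2 ∧ jacobiSym ((D : ℤ) * s 0) p = 1) ∨ p ∣ D) := by
  unfold C0
  rw [mem_union, mem_filter, Nat.mem_primeFactors, Nat.mem_primeFactors]
  constructor
  · rintro (⟨⟨h1, h2, -⟩, h3⟩ | ⟨h1, h2, -⟩)
    · exact ⟨h1, Or.inl ⟨h2, h3⟩⟩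
    · exact ⟨h1, Or.inr h2⟩
  · rintro ⟨h1, ⟨h2, h3⟩ | h2⟩
    · exact Or.inl ⟨⟨h1, h2, (h.dat.pos 2).ne'⟩, h3⟩
    · exact Or.inr ⟨h1, h2, h.dat.D0.ne'⟩

lemma Hy.s0z (h : Hy s D) : (s 0 : ℤ) % 17 = 1 := by have := h.n0; omega
lemma Hy.s1z (h : Hy s D) : (s 1 : ℤ) % 17 = 15 := by have := h.n1; omega

lemma jac17 {x y : ℤ} (h : x % 17 = y % 17) : jacobiSym x 17 = jacobiSym y 17 := by
  rw [jacobiSym.mod_left x, jacobiSym.mod_left y]
  congr 1

/-- **the data for the first isogeny** -/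
theorem Hy.dta (h : Hy s D) : Dta ((D : ℤ) * s 0) ((D : ℤ) * s 1) (G0 s D) (C0 s D) := by
  have hD0 : (0 : ℤ) < D := by exact_mod_cast h.dat.D0
  have p0 : (0 : ℤ) < s 0 := by exact_mod_cast h.dat.pos 0
  have p1 : (0 : ℤ) < s 1 := by exact_mod_cast h.dat.pos 1
  have p2 : (0 : ℤ) < s 2 := by exact_mod_cast h.dat.pos 2
  have hdif := h.dat.dif'
  have h17 : ¬ 17 ∣ s 2 := fun h1 => by
    have := h.bj (j := 2) (by norm_num) h1
    omega
  refine ⟨mul_pos hD0 p1, ?_, ?_, ?_, ?_, ?_, ?_, ?_, ?_, ?_⟩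
  · have : (0 : ℤ) < (D : ℤ) * s 2 := mul_pos hD0 p2
    linarith
  · have h1 := h.D8
    have h2 := h.m0
    have h3 : (D * s 0) % 8 = 1 := by rw [Nat.mul_mod, h1, h2]
    have h4 : ((D * s 0 : ℕ) : ℤ) % 8 = 1 := by omega
    push_cast at h4
    exact h4
  · exact ⟨_, hdif⟩
  · intro p hp
    obtain ⟨h1, h2 | h2 | h2⟩ := h.memG.1 hp
    · have := h.bj h1 h2
      exact ⟨h1, by omega⟩
    · have := h.bj h1 h2
      exact ⟨h1, by omega⟩
    · have := (h.pD h1 h2).2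
      exact ⟨h1, by omega⟩
  · intro p hp
    rw [h.memG]
    have e : (D : ℤ) * s 0 * ((D : ℤ) * s 1) = ((D * s 0 * (D * s 1) : ℕ) : ℤ) := by push_cast; ring
    rw [e, Int.natCast_dvd_natCast]
    constructor
    · intro h1
      refine ⟨hp, ?_⟩
      rcases hp.dvd_mul.1 h1 with h2 | h2
      · rcases hp.dvd_mul.1 h2 with h3 | h3
        · exact Or.inr (Or.inr h3)
        · exact Or.inl h3
      · rcases hp.dvd_mul.1 h2 with h3 | h3
        · exact Or.inr (Or.inr h3)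
        · exact Or.inr (Or.inl h3)
    · rintro ⟨-, h2 | h2 | h2⟩
      · exact (h2.mul_left _).mul_right _
      · exact (h2.mul_left _).mul_left _
      · exact (h2.mul_right _).mul_right _
  · intro p hp
    obtain ⟨hpp, h2 | h2 | h2⟩ := h.memG.1 hp
    · left
      have hD := h.dat.hD hpp h2
      refine ⟨(dvd_D hpp hD).2 h2, nsq_D hpp hD (h.dat.sqj 0), ?_⟩
      rw [dvd_D hpp hD]
      exact cop_nd hpp h.dat.cop01 h2
    · right; left
      have hD := h.dat.hD hpp h2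
      refine ⟨(dvd_D hpp hD).2 h2, nsq_D hpp hD (h.dat.sqj 1), ?_⟩
      rw [dvd_D hpp hD]
      exact cop_nd hpp h.dat.cop01.symm h2
    · right; right
      obtain ⟨e1, e2⟩ := h.pD hpp h2
      have z0 := h.s0z
      have z1 := h.s1z
      have hC : p ∈ C0 s D := h.memC.2 ⟨hpp, Or.inr h2⟩
      subst e1 e2
      have k : ∀ x : ℤ, ((17 : ℕ) : ℤ) * x / ((17 : ℕ) : ℤ) = x := fun x =>
        Int.mul_ediv_cancel_left x (by norm_num)
      refine ⟨dvd_mul_right _ _, dvd_mul_right _ _, ?_, ?_, ?_, ?_, ?_, hC⟩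
      · intro h1
        have : ((17 : ℕ) : ℤ) ^ 2 ∣ ((17 : ℕ) : ℤ) * s 0 := h1
        rw [pow_two] at this
        have := (mul_dvd_mul_iff_left (by norm_num)).1 this
        omega
      · intro h1
        have : ((17 : ℕ) : ℤ) ^ 2 ∣ ((17 : ℕ) : ℤ) * s 1 := h1
        rw [pow_two] at this
        have := (mul_dvd_mul_iff_left (by norm_num)).1 this
        omega
      · intro h1
        have : ((17 : ℕ) : ℤ) ^ 2 ∣ ((17 : ℕ) : ℤ) * (32 * s 2) := by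
          rw [hdif] at h1
          have e : 32 * (((17 : ℕ) : ℤ) * (s 2 : ℤ)) = ((17 : ℕ) : ℤ) * (32 * s 2) := by ring
          rwa [e] at h1
        rw [pow_two] at this
        have := (mul_dvd_mul_iff_left (by norm_num)).1 this
        omega
      · rw [k, k]
        have : ((s 0 : ℤ) * s 1) % 17 = 15 % 17 := by rw [Int.mul_emod, z0, z1]; rfl
        rw [jac17 this]
        norm_num
      · rw [k, jac17 (y := 1) (by omega), jacobiSym.one_left]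
  · intro p hp
    obtain ⟨hpp, ⟨h2, h3⟩ | h2⟩ := h.memC.1 hp
    · have hD := h.dat.hD hpp h2
      have hp2 := h.dat.ne2 h2
      refine ⟨hpp, by have := h.bj hpp h2; omega, Or.inl ⟨(h.dat.dvdC hpp hp2 hD).2 h2, ?_, h3⟩⟩
      rw [dvd_D hpp hD]
      exact fun h' => cop_nd hpp h.dat.cop012.symm h2 (h'.mul_right _)
    · have := (h.pD hpp h2).2
      refine ⟨hpp, by omega, Or.inr ⟨?_, ?_⟩⟩
      · exact dvd_mul_of_dvd_left (Int.natCast_dvd_natCast.2 h2) _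
      · exact dvd_mul_of_dvd_left (Int.natCast_dvd_natCast.2 h2) _
  · intro p hpp hp2 h1 h2
    have hD : ¬ p ∣ D := fun h3 => h2 (h.memC.2 ⟨hpp, Or.inr h3⟩)
    have h3 := (h.dat.dvdC hpp hp2 hD).1 h1
    have h4 : ¬ (p : ℤ) ∣ (D : ℤ) * s 0 := by
      rw [dvd_D hpp hD]
      exact fun h' => cop_nd hpp h.dat.cop012.symm h3 (h'.mul_right _)
    refine ⟨h4, ?_⟩
    have h5 : jacobiSym ((D : ℤ) * s 0) p ≠ 1 := fun h5 => h2 (h.memC.2 ⟨hpp, Or.inl ⟨h3, h5⟩⟩)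
    have h6 : jacobiSym ((D : ℤ) * s 0) p ≠ 0 := by
      rw [Ne, jacobiSym.eq_zero_iff, not_and, not_not]
      intro _
      exact Int.isCoprime_iff_gcd_eq_one.1
        ((Nat.prime_iff_prime_int.1 hpp).coprime_iff_not_dvd.2 h4).symm
    rcases jacobiSym.trichotomy ((D : ℤ) * s 0) p with h7 | h7 | h7
    · exact absurd h7 h6
    · exact absurd h7 h5
    · exact h7
  · intro p hpp hp2 h11 h1
    have hD : ¬ p ∣ D := fun h3 => by
      have := (h.pD hpp h3).2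
      omega
    have := h.bj hpp ((h.dat.dvdC hpp hp2 hD).1 h1)
    omega

/-- the local conditions of a pair of classes -/
structure LC (s : Fin 3 → ℕ) (D : ℕ) (d1 d2 : ℤ) : Prop where
  q1 : Squarefree d1
  q2 : Squarefree d2
  pos : 0 < d1
  h8 : d1 % 8 = 1
  f1 : ∀ q : ℕ, q.Prime → (q : ℤ) ∣ d1 → q ∣ D * ∏ j, s j
  f2 : ∀ q : ℕ, q.Prime → (q : ℤ) ∣ d2 → q = 2 ∨ q ∣ D * ∏ j, s j
  c0 : ∀ p : ℕ, p.Prime → p ∣ s 0 →
    LR 0 (sg0 p (-((D : ℤ) * s 1))) (dv p d1) (dv p d2) (sgn p d1) (sgn p d2)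
  c1 : ∀ p : ℕ, p.Prime → p ∣ s 1 →
    LR 1 (sg0 p (-((D : ℤ) * s 0))) (dv p d1) (dv p d2) (sgn p d1) (sgn p d2)
  c2 : ∀ p : ℕ, p.Prime → p ∣ s 2 →
    LR 2 (sg0 p ((D : ℤ) * s 0)) (dv p d1) (dv p d2) (sgn p d1) (sgn p d2)
  c17 : D = 17 → sgn 17 d1 = false ∧ sgn 17 d2 = dv 17 d1

/-- **membership in the 2-Selmer group** -/
theorem Hy.mem (h : Hy s D) {d1 d2 : ℤ} (hL : LC s D d1 d2) :
    ((d1, d2) : ℤ × ℤ) ∈ Sel ((D : ℤ) * s 0) ((D : ℤ) * s 1) := by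
  have hD0 : (0 : ℤ) < D := by exact_mod_cast h.dat.D0
  have p1 : (0 : ℤ) < s 1 := by exact_mod_cast h.dat.pos 1
  have p2 : (0 : ℤ) < s 2 := by exact_mod_cast h.dat.pos 2
  have hdif := h.dat.dif'
  have hBA : (D : ℤ) * s 1 < (D : ℤ) * s 0 := by
    have : (0 : ℤ) < (D : ℤ) * s 2 := mul_pos hD0 p2
    linarith
  refine ⟨hL.q1, hL.q2, pt_real (mul_pos hD0 p1) hBA hL.pos hL.q2.ne_zero, fun p hpf => ?_⟩
  have hpp := hpf.out
  by_cases h0 : p ∣ s 0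
  · have hD := h.dat.hD hpp h0
    exact pt0 (by have := h.bj hpp h0; omega) ((dvd_D hpp hD).2 h0) (nsq_D hpp hD (h.dat.sqj 0))
      (fun h' => cop_nd hpp h.dat.cop01 h0 ((dvd_D hpp hD).1 h')) hL.q1 hL.q2 (hL.c0 p hpp h0)
  by_cases h1 : p ∣ s 1
  · have hD := h.dat.hD hpp h1
    exact pt1 (by have := h.bj hpp h1; omega) ((dvd_D hpp hD).2 h1) (nsq_D hpp hD (h.dat.sqj 1))
      (fun h' => h0 ((dvd_D hpp hD).1 h')) hL.q1 (hL.c1 p hpp h1)
  by_cases h2 : p ∣ s 2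
  · have hD := h.dat.hD hpp h2
    have hp2 := h.dat.ne2 h2
    refine pt2 (by have := h.bj hpp h2; omega) ((h.dat.dvdC hpp hp2 hD).2 h2) ?_
      (fun h' => h0 ((dvd_D hpp hD).1 h')) hL.q2 (hL.c2 p hpp h2)
    intro h'
    rw [hdif] at h'
    have h3 : p ^ 2 ∣ 32 * (D * s 2) := by exact_mod_cast h'
    have h4 : (p ^ 2).Coprime 32 := by
      have : p.Coprime 2 := (Nat.coprime_primes hpp Nat.prime_two).2 hp2
      have h5 : (p ^ 2).Coprime (2 ^ 5) := Nat.Coprime.pow 2 5 this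
      exact h5
    have h5 : (p ^ 2).Coprime D :=
      Nat.Coprime.pow_left 2 ((Nat.Prime.coprime_iff_not_dvd hpp).2 hD)
    exact nsq hpp (h.dat.sqj 2) (h5.dvd_of_dvd_mul_left (h4.dvd_of_dvd_mul_left h3))
  by_cases hD : p ∣ D
  · obtain ⟨e1, e2⟩ := h.pD hpp hD
    subst e1 e2
    obtain ⟨c1, c2⟩ := hL.c17 rfl
    exact pt17 h.s0z h.s1z hL.q1 hL.q2 c1 c2
  have hpM : ¬ p ∣ D * ∏ j, s j := by
    intro h'
    rcases hpp.dvd_mul.1 h' with h' | h'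
    · exact hD h'
    · rw [h.dat.P3] at h'
      rcases hpp.dvd_mul.1 h' with h' | h'
      · rcases hpp.dvd_mul.1 h' with h' | h'
        · exact h0 h'
        · exact h1 h'
      · exact h2 h'
  by_cases hp2 : p = 2
  · subst hp2
    have m8 : ∀ x : ℕ, x % 8 = 1 → ((D : ℤ) * (x : ℤ)) % 8 = 1 := by
      intro x hx
      have : (D * x) % 8 = 1 := by rw [Nat.mul_mod, h.D8, hx]
      have h2 : ((D * x : ℕ) : ℤ) % 8 = 1 := by omega
      rw [← h2]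
      push_cast
      rfl
    have hodd : ((D : ℤ) * (s 2 : ℤ)) % 2 = 1 := by
      have h2 : ¬ 2 ∣ D * s 2 := by
        intro h'
        rcases Nat.prime_two.dvd_mul.1 h' with h' | h'
        · exact hpM (h'.mul_right _)
        · exact hpM ((h'.trans (h.dat.sj_dvd 2)).mul_left _)
      have h3 : (D * s 2) % 2 = 1 := by omega
      have h4 : ((D * s 2 : ℕ) : ℤ) % 2 = 1 := by omega
      rw [← h4]
      push_cast
      rfl
    exact pt_two (m8 _ h.m0) (m8 _ h.m1) hdif hodd hL.h8 hL.q2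
  · have hqi := Nat.prime_iff_prime_int.1 hpp
    refine Pool.Agent.Y105.RZ.GOODS p _ _ d1 d2 ?_ ?_ ?_
    · intro h'
      rcases hqi.dvd_or_dvd h' with h' | h'
      · rcases hqi.dvd_or_dvd h' with h' | h'
        · rcases hqi.dvd_or_dvd h' with h' | h'
          · have : p ∣ 2 := by exact_mod_cast h'
            exact hp2 ((Nat.prime_dvd_prime_iff_eq hpp Nat.prime_two).1 this)
          · exact h0 ((dvd_D hpp hD).1 h')
        · exact h1 ((dvd_D hpp hD).1 h')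
      · exact h2 ((h.dat.dvdC hpp hp2 hD).1 h')
    · intro h'
      exact hpM (hL.f1 p hpp h')
    · intro h'
      rcases hL.f2 p hpp h' with h'' | h''
      · exact hp2 h''
      · exact hpM h''

lemma dv_one {p : ℕ} (hp : p.Prime) : dv p 1 = false ∧ sgn p 1 = false :=
  dv_sgn hp (by rw [jacobiSym.one_left])

/-- the transposed system of the first isogeny -/
theorem Hy.trans0 (h : Hy s D) (h1 : ∀ e : ℤ, ((1, e) : ℤ × ℤ) ∈ Sel ((D : ℤ) * s 0) ((D : ℤ) * s 1)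
    → e = 1) (y : RR (C0 s D) → ZMod 2)
    (hy : ∀ q ∈ G0 s D, jacobiSym (eq2 (C0 s D) y q) q = 1) : ee (C0 s D) y = 1 := by
  have hC : ∀ p ∈ C0 s D, p.Prime ∧ p ≠ 2 := fun p hp => ⟨(h.dta.hC p hp).1, by
    have := (h.dta.hC p hp).2.1; omega⟩
  have hmem : ∀ p : ℕ, p.Prime → (p ∣ s 0 ∨ p ∣ s 1) → jacobiSym (ee (C0 s D) y) p = 1 := by
    intro p hp h2
    have hpG : p ∈ G0 s D := h.memG.2 ⟨hp, by tauto⟩
    have hpC : p ∉ C0 s D := by
      intro h3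
      obtain ⟨-, ⟨h4, -⟩ | h4⟩ := h.memC.1 h3
      · rcases h2 with h2 | h2
        · exact cop_nd hp h.dat.cop012.symm h4 (h2.mul_right _)
        · exact cop_nd hp h.dat.cop012.symm h4 (h2.mul_left _)
      · rcases h2 with h2 | h2
        · exact h.dat.hD hp h2 h4
        · exact h.dat.hD hp h2 h4
    rw [← ee_eq2 y hpC]
    exact hy p hpG
  apply h1
  apply h.mem
  refine ⟨squarefree_one, ee_sqf hC y, one_pos, rfl, ?_, ?_, ?_, ?_, ?_, ?_⟩
  · intro q hq h2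
    have : q ∣ 1 := by exact_mod_cast h2
    exact absurd (Nat.dvd_one.1 this) hq.one_lt.ne'
  · intro q hq h2
    rcases ee_dvd hC y hq h2 with h3 | h3
    · exact Or.inl h3
    · right
      obtain ⟨-, ⟨h4, -⟩ | h4⟩ := h.memC.1 h3
      · exact (h4.trans (h.dat.sj_dvd 2)).mul_left _
      · exact h4.mul_right _
  · intro p hp h2
    obtain ⟨u1, u2⟩ := dv_one hp
    obtain ⟨v1, v2⟩ := dv_sgn hp (hmem p hp (Or.inl h2))
    rw [u1, u2, v1, v2]
    unfold LR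
    rw [if_pos rfl]
    exact ⟨rfl, rfl⟩
  · intro p hp h2
    obtain ⟨u1, u2⟩ := dv_one hp
    obtain ⟨v1, v2⟩ := dv_sgn hp (hmem p hp (Or.inr h2))
    rw [u1, u2, v1, v2]
    unfold LR
    rw [if_neg (by decide), if_pos rfl]
    exact ⟨rfl, rfl⟩
  · intro p hp h2
    obtain ⟨u1, u2⟩ := dv_one hp
    rw [u1, u2]
    unfold LR
    rw [if_neg (by decide), if_neg (by decide)]
    refine ⟨rfl, ?_⟩
    by_cases h3 : (p : ℤ) ∣ ee (C0 s D) y
    · rcases ee_dvd hC y hp h3 with h4 | h4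
      · exact absurd h4 (h.dat.ne2 h2)
      · obtain ⟨-, ⟨-, h5⟩ | h5⟩ := h.memC.1 h4
        · unfold sg0
          rw [h5]
          simp
        · exact absurd h5 (h.dat.hD hp h2)
    · unfold dv
      rw [decide_eq_false h3]
      rfl
  · intro hD
    have hp17 : Nat.Prime 17 := by norm_num
    have h17D : 17 ∣ D := by rw [hD]
    have hC17 : 17 ∈ C0 s D := h.memC.2 ⟨hp17, Or.inr h17D⟩
    have hG17 : 17 ∈ G0 s D := h.memG.2 ⟨hp17, Or.inr (Or.inr h17D)⟩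
    obtain ⟨u1, u2⟩ := dv_one hp17
    rw [u1, u2]
    refine ⟨rfl, ?_⟩
    have h3 := ee_eq2' y ⟨17, hC17⟩
    simp only at h3
    refine sgn_fac hp17 ?_ h3 (hy 17 hG17)
    by_cases h4 : y (Sum.inr ⟨17, hC17⟩) = 1
    · right
      rw [if_pos h4]
      rfl
    · left
      rw [if_neg h4]

/-- **the group of the quartics of the first isogeny** -/
theorem Hy.sq0 (h : Hy s D) (h1 : ∀ e : ℤ, ((1, e) : ℤ × ℤ) ∈ Sel ((D : ℤ) * s 0) ((D : ℤ) * s 1)
    → e = 1) : (SQ (-((D : ℤ) * s 0 + (D : ℤ) * s 1)) ((D : ℤ) * s 0 * ((D : ℤ) * s 1))).ncard *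
      2 ^ ((C0 s D).card + 2) = 2 ^ (G0 s D).card := by
  rw [sq_eq h.dta]
  exact cnt (fun p hp => ⟨(h.dta.hG p hp).1, by have := (h.dta.hG p hp).2; omega⟩)
    (fun p hp => ⟨(h.dta.hC p hp).1, by have := (h.dta.hC p hp).2.1; omega⟩) (h.trans0 h1)

end

end Pool.Agent.X257.PS
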