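import Pool.Agent.X257.PS.Sel

/-!
# Project PS: the everywhere locally solvable quartics, the other two isogenies
-/

set_option autoImplicit false

namespace Pool.Agent.X257.PS

open Finset Pool.Agent.TH841.LS Pool.Agent.TH841.LS.LINf Pool.Agent.TH841.NO Pool.Agent.W307.SE

lemma dd_abs {G : Finset ℕ} (hG : ∀ p ∈ G, p.Prime) (x : G → ZMod 2) :
    ((dd G x).natAbs : ℤ) = dd G x := Int.natAbs_of_nonneg (dd_pos hG x).le

lemma ee_inj {C : Finset ℕ} (hC : ∀ p ∈ C, p.Prime ∧ p ≠ 2) {y z : RR C → ZMod 2}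
    (h : ee C y = ee C z) : y = z := by
  have hCp : ∀ p ∈ C, p.Prime := fun p hp => (hC p hp).1
  have h1 := congrArg Int.natAbs h
  rw [natAbs_ee, natAbs_ee] at h1
  have oy := (row4 hC (fun r => y (.inr r))).1
  have oz := (row4 hC (fun r => z (.inr r))).1
  have h01 : ∀ a b : ZMod 2, (a = 1 ↔ b = 1) → a = b := by decide
  have h2 : y (.inl 1) = z (.inl 1) := by
    apply h01
    constructor
    · intro h3
      by_contra h4
      rw [if_pos h3, if_neg h4] at h1
      omega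
    · intro h3
      by_contra h4
      rw [if_pos h3, if_neg h4] at h1
      omega
  rw [h2] at h1
  have h3 : (dd C (fun r => y (.inr r))).natAbs = (dd C (fun r => z (.inr r))).natAbs :=
    Nat.eq_of_mul_eq_mul_left (by split_ifs <;> norm_num) h1
  have h4 : (fun r : C => y (.inr r)) = fun r : C => z (.inr r) := by
    apply dd_inj hCp
    calc dd C (fun r : C => y (.inr r)) = ((dd C (fun r : C => y (.inr r))).natAbs : ℤ) :=
          (dd_abs hCp _).symm
      _ = ((dd C (fun r : C => z (.inr r))).natAbs : ℤ) := by rw [h3]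
      _ = _ := dd_abs hCp _
  have h5 : y (.inl 0) = z (.inl 0) := by
    have e1 : ∏ r : C, (if y (.inr r) = 1 then st r else 1) =
        ∏ r : C, (if z (.inr r) = 1 then st r else 1) := by
      refine Finset.prod_congr rfl fun r _ => ?_
      have : y (.inr r) = z (.inr r) := congrFun h4 r
      rw [this]
    rw [ee_split, ee_split, h2, e1] at h
    have h6 : ∏ r : C, (if z (.inr r) = 1 then st r else 1) ≠ 0 := by
      rw [Finset.prod_ne_zero_iff]
      intro r _
      split_ifs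
      · intro h7
        have := natAbs_st r
        rw [h7] at this
        exact (hCp r.1 r.2).ne_zero this.symm
      · exact one_ne_zero
    have h7 := mul_right_cancel₀ h6 h
    have h8 : ((if z (.inl 1) = 1 then 2 else 1 : ℤ)) ≠ 0 := by split_ifs <;> norm_num
    have h9 := mul_right_cancel₀ h8 h7
    apply h01
    constructor
    · intro h10
      by_contra h11
      rw [if_pos h10, if_neg h11] at h9
      norm_num at h9
    · intro h10
      by_contra h11
      rw [if_pos h10, if_neg h11] at h9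
      norm_num at h9
  funext r
  rcases r with i | r
  · by_cases hi : i = 0
    · rw [hi]; exact h5
    · have : i = 1 := by omega
      rw [this]; exact h2
  · exact congrFun h4 r

/-- every squarefree integer with the odd prime factors in `G` -/
lemma exists_ee {G : Finset ℕ} (hG : ∀ p ∈ G, p.Prime ∧ p ≠ 2) {d : ℤ} (hs : Squarefree d)
    (hd : ∀ p : ℕ, p.Prime → p ≠ 2 → (p : ℤ) ∣ d → p ∈ G) : ∃ x : RR G → ZMod 2, ee G x = d := by
  classical
  have hGp : ∀ p ∈ G, p.Prime := fun p hp => (hG p hp).1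
  -- the odd part
  obtain ⟨d', c, hc, hodd, hd'⟩ : ∃ (d' : ℤ) (c : ℤ), (c = 1 ∨ c = 2) ∧ ¬ (2 : ℤ) ∣ d' ∧ d = c * d' := by
    by_cases h2 : (2 : ℤ) ∣ d
    · obtain ⟨e, he⟩ := h2
      refine ⟨e, 2, Or.inr rfl, ?_, he⟩
      intro h3
      obtain ⟨f, hf⟩ := h3
      have h4 : (2 : ℤ) * 2 ∣ d := ⟨f, by rw [he, hf]; ring⟩
      have := hs 2 h4
      rw [Int.isUnit_iff] at this
      omega
    · exact ⟨d, 1, Or.inl rfl, h2, by ring⟩
  have hs' : Squarefree |d'| := by
    rw [← Int.squarefree_natAbs, Int.natAbs_abs, Int.squarefree_natAbs]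
    exact hs.squarefree_of_dvd ⟨c, by rw [hd']; ring⟩
  have h0 : (0 : ℤ) < |d'| := abs_pos.2 (by
    rintro rfl
    exact hodd (dvd_zero _))
  obtain ⟨x, hx⟩ := exists_dd hGp h0 hs' (fun p hp hpd => by
    rw [dvd_abs] at hpd
    refine hd p hp ?_ (hd' ▸ hpd.mul_left c)
    rintro rfl
    exact hodd (by exact_mod_cast hpd))
  obtain ⟨P, hP⟩ : ∃ P, P = ∏ r : G, (if x r = 1 then st r else 1) := ⟨_, rfl⟩
  have hPabs : P.natAbs = d'.natAbs := by
    have h1 : P.natAbs = (dd G x).natAbs := by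
      rw [hP]
      unfold dd
      rw [← Int.natAbsHom_apply, ← Int.natAbsHom_apply, map_prod, map_prod]
      refine Finset.prod_congr rfl fun r _ => ?_
      simp only [Int.natAbsHom_apply]
      split_ifs
      · rw [natAbs_st]; rfl
      · rfl
    rw [h1, hx, Int.natAbs_abs]
  have hsgn : d' = P ∨ d' = -P := (Int.natAbs_eq_natAbs_iff.1 hPabs.symm)
  obtain ⟨x', g0, g1, g2⟩ : ∃ x' : RR G → ZMod 2, x' (.inl 0) = (if d' = P then 0 else 1) ∧
      x' (.inl 1) = (if c = 2 then 1 else 0) ∧ ∀ r, x' (.inr r) = x r :=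
    ⟨fun k => match k with
      | .inl i => if i = 0 then (if d' = P then 0 else 1) else (if c = 2 then 1 else 0)
      | .inr r => x r, rfl, rfl, fun _ => rfl⟩
  refine ⟨x', ?_⟩
  rw [ee_split, hd', g0, g1]
  have e1 : ∏ r : G, (if x' (.inr r) = 1 then st r else 1) = P := by
    rw [hP]
    refine Finset.prod_congr rfl fun r _ => ?_
    rw [g2]
  have e2 : (if (if c = 2 then (1 : ZMod 2) else 0) = 1 then (2 : ℤ) else 1) = c := by
    rcases hc with rfl | rfl <;> decide
  rw [e1, e2]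
  by_cases h3 : d' = P
  · have e3 : (if (if d' = P then (0 : ZMod 2) else 1) = 1 then (-1 : ℤ) else 1) = 1 := by
      rw [if_pos h3]
      decide
    rw [e3, h3]
    ring
  · have e3 : (if (if d' = P then (0 : ZMod 2) else 1) = 1 then (-1 : ℤ) else 1) = -1 := by
      rw [if_neg h3]
      decide
    rw [e3, hsgn.resolve_left h3]
    ring

/-- the integers of the solutions of the linear system -/
def Ks2 (C G : Finset ℕ) : Set ℤ :=
  (ee G) '' {x | ∀ r ∈ C, jacobiSym (eq2 G x r) r = 1}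

/-- the number of the solutions -/
theorem cnt2 {G C : Finset ℕ} (hG : ∀ p ∈ G, p.Prime ∧ p ≠ 2) (hC : ∀ p ∈ C, p.Prime ∧ p ≠ 2)
    (H : ∀ y : C → ZMod 2, dd C y % 8 = 1 → (∀ q ∈ G, jacobiSym (ddr C y q) q = 1) →
      dd C y = 1) :
    (Ks2 C G).ncard * 2 ^ C.card = 2 ^ (G.card + 2) := by
  classical
  have hCp : ∀ p ∈ C, p.Prime := fun p hp => (hC p hp).1
  have h1 := card_ker (fun (r : C) (k : RR G) => chi G C k r) (fun y hy => by
    obtain ⟨h2, h3⟩ := (rows hC hG y).1 hy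
    have h4 := H y h2 h3
    apply dd_inj hCp
    rw [h4]
    symm
    unfold dd
    refine Finset.prod_eq_one fun r _ => ?_
    rw [if_neg]
    show ¬ (0 : ZMod 2) = 1
    decide)
  have h2 : (Ks2 C G).ncard = Nat.card {x : RR G → ZMod 2 //
      ∀ r : C, ∑ k, x k * chi G C k r = 0} := by
    unfold Ks2
    rw [Set.ncard_image_of_injective _ (fun x y h => ee_inj hG h)]
    rw [← Nat.card_coe_set_eq]
    refine Nat.card_congr (Equiv.subtypeEquivRight fun x => ?_)
    constructor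
    · intro h r
      exact ((cols hC hG x r).2).2 (h r.1 r.2)
    · intro h r hr
      exact ((cols hC hG x ⟨r, hr⟩).2).1 (h ⟨r, hr⟩)
  rw [h2]
  have h3 : Fintype.card (RR G) = G.card + 2 := by
    rw [Fintype.card_sum, Fintype.card_fin, Fintype.card_coe, add_comm]
  rw [h3, Fintype.card_coe] at h1
  exact h1

/-- the data -/
structure Dtb (A B : ℤ) (G C : Finset ℕ) : Prop where
  A0 : A < 0
  B0 : B ≠ 0
  AB : A ≠ B
  two : (2 : ℤ) ∣ A * B
  l2 : ∀ (_ : Fact (Nat.Prime 2)) (d : ℤ), Squarefree d → LocI ℚ_[2] A B d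
  hG : ∀ p ∈ G, p.Prime ∧ 11 ≤ p
  hd : ∀ p : ℕ, p.Prime → p ≠ 2 → ((p : ℤ) ∣ A * B ↔ p ∈ G)
  ty : ∀ p ∈ G, ((p : ℤ) ∣ A ∧ ¬ (p : ℤ) ^ 2 ∣ A ∧ ¬ (p : ℤ) ∣ B) ∨
    ((p : ℤ) ∣ B ∧ ¬ (p : ℤ) ^ 2 ∣ B ∧ ¬ (p : ℤ) ∣ A) ∨ ((p : ℤ) ∣ A ∧ (p : ℤ) ∣ B)
  hC : ∀ p ∈ C, p.Prime ∧ 11 ≤ p ∧ (p : ℤ) ∣ A - B ∧ ¬ (p : ℤ) ∣ A ∧ jacobiSym A p = 1
  hn : ∀ p : ℕ, p.Prime → p ≠ 2 → (p : ℤ) ∣ A - B → p ∉ C →
    (¬ (p : ℤ) ∣ A ∧ jacobiSym A p = -1) ∨
      ((p : ℤ) ∣ A ∧ ∀ (_ : Fact p.Prime) (d : ℤ), Squarefree d → LocI ℚ_[p] A B d)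

section

variable {A B : ℤ} {G C : Finset ℕ}

lemma Dtb.Cnd (h : Dtb A B G C) {r : ℕ} (hr : r ∈ C) : r ∉ G := by
  obtain ⟨hrp, h11, t1, t2, t3⟩ := h.hC r hr
  intro h1
  have t4 : ¬ (r : ℤ) ∣ B := fun t4 => t2 (by
    have := dvd_add t1 t4
    simpa using this)
  rcases (Nat.prime_iff_prime_int.1 hrp).dvd_or_dvd ((h.hd r hrp (by omega)).2 h1) with h2 | h2
  · exact t2 h2
  · exact t4 h2

/-- **the necessary conditions** -/
theorem sub3 (h : Dtb A B G C) : SQ (-(A + B)) (A * B) ⊆ Ks2 C G := by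
  have hA0 := h.A0.ne
  have hB0 := h.B0
  have hAB := h.AB
  rintro d ⟨hs, hdv, hr, hp⟩
  have hd0 : d ≠ 0 := hs.ne_zero
  obtain ⟨q1, q2⟩ := QULf.qul A B d hA0 hB0 hAB hd0 hdv
  have hG : ∀ p ∈ G, p.Prime ∧ p ≠ 2 := fun p hp => ⟨(h.hG p hp).1, by
    have := (h.hG p hp).2; omega⟩
  have hpr : ∀ p : ℕ, p.Prime → p ≠ 2 → (p : ℤ) ∣ d → p ∈ G := fun p hp hp2 hpd =>
    (h.hd p hp hp2).1 (hpd.trans hdv)
  obtain ⟨x, hx⟩ := exists_ee hG hs hpr
  refine ⟨x, fun r hr => ?_, hx⟩
  obtain ⟨hrp, h11, t1, t2, t3⟩ := h.hC r hr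
  have hrG := h.Cnd hr
  have : Fact r.Prime := ⟨hrp⟩
  rw [ee_eq2 x hrG, hx]
  exact PRf.pra r A B d (by omega) hAB t2 t1 t3 (fun h1 => hrG (hpr r hrp (by omega) h1))
    ((q2 r).1 (hp r))

lemma padic_one {p : ℕ} (hp : p.Prime) {A : ℤ} (hA0 : A ≠ 0) (k1 : (p : ℤ) ∣ A)
    (k2 : ¬ (p : ℤ) ^ 2 ∣ A) : Odd (padicValInt p A) := by
  have : Fact p.Prime := ⟨hp⟩
  have k3 : 1 ≤ padicValInt p A := by
    have := (padicValInt_dvd_iff (p := p) 1 A).1 (by simpa using k1)
    exact this.resolve_left hA0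
  have k4 : ¬ 2 ≤ padicValInt p A := fun k4 =>
    k2 ((padicValInt_dvd_iff (p := p) 2 A).2 (Or.inr k4))
  have k5 : padicValInt p A = 1 := by omega
  rw [k5]
  exact odd_one

/-- **the sufficient conditions** -/
theorem sub4 (h : Dtb A B G C) : Ks2 C G ⊆ SQ (-(A + B)) (A * B) := by
  have hA0 := h.A0.ne
  have hB0 := h.B0
  have hAB := h.AB
  have hG : ∀ p ∈ G, p.Prime ∧ p ≠ 2 := fun p hp => ⟨(h.hG p hp).1, by
    have := (h.hG p hp).2; omega⟩
  rintro _ ⟨x, hj, rfl⟩
  have hsf := ee_sqf hG x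
  have hd0 : ee G x ≠ 0 := hsf.ne_zero
  have hdv : ee G x ∣ A * B := by
    rw [← Int.natAbs_dvd_natAbs]
    have h1 : Squarefree (ee G x).natAbs := Int.squarefree_natAbs.2 hsf
    rw [← Nat.prod_primeFactors_of_squarefree h1]
    apply Finset.prod_primes_dvd
    · intro p hp
      exact (Nat.prime_of_mem_primeFactors hp).prime
    · intro p hp
      have hpp := Nat.prime_of_mem_primeFactors hp
      have hpd : (p : ℤ) ∣ ee G x := Int.natCast_dvd.2 (Nat.dvd_of_mem_primeFactors hp)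
      rw [← Int.natCast_dvd]
      rcases ee_dvd hG x hpp hpd with h2 | h2
      · rw [h2]; exact_mod_cast h.two
      · exact (h.hd p hpp (hG p h2).2).2 h2
  obtain ⟨q1, q2⟩ := QULf.qul A B (ee G x) hA0 hB0 hAB hd0 hdv
  obtain ⟨c1, c2⟩ := LOCBf.locc A B (ee G x) hA0 hB0 hAB hd0
  have hreal : LocI ℝ A B (ee G x) := by
    rcases lt_or_gt_of_ne hd0 with h1 | h1
    · have hA1 : (A : ℝ) < 0 := by exact_mod_cast h.A0
      have hd1 : ((ee G x : ℤ) : ℝ) < 0 := by exact_mod_cast h1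
      refine ⟨A, 0, Real.sqrt (A / (ee G x : ℤ)), hA1.ne, by ring, ?_⟩
      rw [Real.sq_sqrt (div_nonneg_of_nonpos hA1.le hd1.le), mul_div_cancel₀ _ hd1.ne]
    · exact c2 h1
  refine ⟨hsf, hdv, q1.2 hreal, fun p hpf => (q2 p).2 ?_⟩
  have hp := hpf.out
  by_cases hp2 : p = 2
  · subst hp2
    exact h.l2 hpf _ hsf
  by_cases hpC : p ∈ C
  · have hjp := hj p hpC
    rw [ee_eq2 x (h.Cnd hpC)] at hjp
    exact c1 p (Or.inl (sq_jac hp2 hjp))
  · by_cases hpD : (p : ℤ) ∣ A - B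
    · rcases h.hn p hp hp2 hpD hpC with ⟨n1, n2⟩ | ⟨n1, n2⟩
      · have n3 : ¬ (p : ℤ) ∣ ee G x := by
          intro h1
          rcases ee_dvd hG x hp h1 with h3 | hpG
          · exact hp2 h3
          rcases (Nat.prime_iff_prime_int.1 hp).dvd_or_dvd ((h.hd p hp hp2).2 hpG) with h2 | h2
          · exact n1 h2
          · exact n1 (by
              have := dvd_add hpD h2
              simpa using this)
        apply c1 p
        have n4 : jacobiSym (ee G x) p ≠ 0 := by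
          rw [Ne, jacobiSym.eq_zero_iff, not_and, not_not]
          intro _
          exact Int.isCoprime_iff_gcd_eq_one.1
            ((Nat.prime_iff_prime_int.1 hp).coprime_iff_not_dvd.2 n3).symm
        rcases jacobiSym.trichotomy (ee G x) p with h1 | h1 | h1
        · exact absurd h1 n4
        · exact Or.inl (sq_jac hp2 h1)
        · right
          have h2 : jacobiSym (ee G x * A) p = 1 := by
            rw [jacobiSym.mul_left, h1, n2]
            norm_num
          have h3 := sq_jac hp2 h2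
          push_cast at h3
          exact h3
      · exact n2 hpf _ hsf
    · by_cases hpd : (p : ℤ) ∣ ee G x
      · have hpG : p ∈ G := (ee_dvd hG x hp hpd).resolve_left hp2
        have h11 := (h.hG p hpG).2
        have hsq : ¬ (p : ℤ) ^ 2 ∣ ee G x := by
          intro h1
          rw [pow_two] at h1
          have := hsf _ h1
          rw [Int.isUnit_iff] at this
          have := hp.two_le
          omega
        rcases h.ty p hpG with ⟨u1, u2, u3⟩ | ⟨u1, u2, u3⟩ | ⟨u1, u2⟩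
        · exact LOCBf.locb p A B (ee G x) h11 hA0 hB0 hd0 u3 (padic_one hp hA0 u1 u2) hpd hsq
        · exact locI_swap (LOCBf.locb p B A (ee G x) h11 hB0 hA0 hd0 u3 (padic_one hp hB0 u1 u2)
            hpd hsq)
        · exact absurd (dvd_sub u1 u2) hpD
      · by_cases h11 : 11 ≤ p
        · exact LOCAf.loca p A B (ee G x) h11 hA0 hB0 hpD hpd
        · have hpG : p ∉ G := fun h1 => h11 (h.hG p h1).2
          have h1 : ¬ (p : ℤ) ∣ A * B := fun h1 => hpG ((h.hd p hp hp2).1 h1)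
          apply locI_of_loc (by exact_mod_cast hd0)
          apply Pool.Agent.Y105.RZ.GOODS p A B (ee G x) 1
          · intro h2
            have hpi := Nat.prime_iff_prime_int.1 hp
            rcases hpi.dvd_or_dvd h2 with h3 | h3
            · rw [mul_assoc] at h3
              rcases hpi.dvd_or_dvd h3 with h4 | h4
              · have : p ∣ 2 := by exact_mod_cast h4
                exact hp2 ((Nat.prime_dvd_prime_iff_eq hp Nat.prime_two).1 this)
              · exact h1 h4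
            · exact hpD h3
          · exact hpd
          · intro h2
            have : p ∣ 1 := by exact_mod_cast h2
            exact hp.one_lt.ne' (Nat.dvd_one.1 this)

/-- **the group of the everywhere locally solvable quartics** -/
theorem sq_eq2 (h : Dtb A B G C) : SQ (-(A + B)) (A * B) = Ks2 C G :=
  Set.Subset.antisymm (sub3 h) (sub4 h)

end

/-- translation of the points -/
lemma loc_tr {K : Type} [Field K] {A B d1 d2 d : ℤ} (hd1 : (d1 : K) ≠ 0) (hd2 : (d2 : K) ≠ 0)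
    (hd : (d : K) ≠ 0) (h : Loc K A B d1 d2) :
    (IsSquare ((d : K) * d2) → LocI K (-A) (B - A) d) ∧
      (IsSquare ((d : K) * (d1 * d2)) → LocI K (-B) (A - B) d) := by
  obtain ⟨x, y, hy, h1, ⟨r, hr⟩, ⟨t, ht⟩⟩ := h
  have hprod : x * (x - A) * (x - B) ≠ 0 := by rw [← h1]; exact pow_ne_zero 2 hy
  have hx : x ≠ 0 := left_ne_zero_of_mul (left_ne_zero_of_mul hprod)
  have hxA : x - A ≠ 0 := right_ne_zero_of_mul (left_ne_zero_of_mul hprod)
  have hxB : x - B ≠ 0 := right_ne_zero_of_mul hprod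
  constructor
  · rintro ⟨w, hw⟩
    have hw0 : w ≠ 0 := by
      rintro rfl
      exact mul_ne_zero hd hd2 (by rw [hw, mul_zero])
    refine ⟨x - A, y, t * w / (d * d2), hxA, ?_, ?_⟩
    · push_cast
      rw [h1]
      ring
    · field_simp
      linear_combination (d * d2 : K) * ht + t * t * hw
  · rintro ⟨w, hw⟩
    have hw0 : w ≠ 0 := by
      rintro rfl
      exact mul_ne_zero hd (mul_ne_zero hd1 hd2) (by rw [hw, mul_zero])
    have hr0 : r ≠ 0 := by
      rintro rfl
      exact mul_ne_zero hx hd1 (by rw [hr, mul_zero])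
    have ht0 : t ≠ 0 := by
      rintro rfl
      exact mul_ne_zero hxA hd2 (by rw [ht, mul_zero])
    -- `x - B = y² / (x (x - A)) = y² d1 d2 / (r t)²`, `d1 d2 = w² / d`
    refine ⟨x - B, y, y * w / (d * (r * t)), hxB, ?_, ?_⟩
    · push_cast
      rw [h1]
      ring
    · have h2 : (x - B) * (r * t) ^ 2 = y ^ 2 * (d1 * d2) := by
        rw [h1]
        linear_combination (-(x - B) * (x - A) * d2) * hr - (x - B) * (r * r) * ht
      have h3 : (d : K) * (y * w / (d * (r * t))) ^ 2 = y ^ 2 * (w * w) / (d * (r * t) ^ 2) := by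
        field_simp
      rw [h3, ← hw, eq_div_iff (mul_ne_zero hd (pow_ne_zero 2 (mul_ne_zero hr0 ht0)))]
      linear_combination (d : K) * h2

end Pool.Agent.X257.PS
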