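import Pool.Agent.X257.PS.D0
import Pool.Agent.X257.PS.Loc2

/-!
# Project PS: the data of the good pairs, the other two isogenies
-/

set_option autoImplicit false

namespace Pool.Agent.X257.PS

open Finset Pool.Agent.TH841.LS Pool.Agent.TH841.LS.LINf Pool.Agent.TH841.NO Pool.Agent.W307.SE
  Pool.Agent.Y212.RZ Pool.Agent.W262.RK Pool.Agent.W307.FK Pool.Agent.Y667.RP Pool.Agent.Y667.RZ
  Pool.Agent.Y535.RZ

/-- the hypotheses -/
structure H2 (a b c D : ℕ) : Prop where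
  pa : 0 < a
  pb : 0 < b
  pc : 0 < c
  pD : 0 < D
  ab : a.Coprime b
  ac : a.Coprime c
  sa : Squarefree a
  sc : Squarefree c
  dif : (b : ℤ) - a = 32 * c ∨ (b : ℤ) - a = -(32 * c)
  hD : ∀ p : ℕ, p.Prime → p ∣ D → p = 17
  big : ∀ p : ℕ, p.Prime → (p ∣ a ∨ p ∣ b ∨ p ∣ c) → 17 < p
  l2 : ∀ (_ : Fact (Nat.Prime 2)) (d : ℤ), Squarefree d →
    LocI ℚ_[2] (-((D : ℤ) * a)) ((D : ℤ) * b - (D : ℤ) * a) d
  l17 : 17 ∣ D → ∀ (_ : Fact (Nat.Prime 17)) (d : ℤ), Squarefree d →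
    LocI ℚ_[17] (-((D : ℤ) * a)) ((D : ℤ) * b - (D : ℤ) * a) d

/-- the primes of `A B` -/
def G1 (a c D : ℕ) : Finset ℕ := (a * c * D).primeFactors

/-- the split primes -/
def C1 (a b D : ℕ) : Finset ℕ := b.primeFactors.filter (fun p => jacobiSym (-((D : ℤ) * a)) p = 1)

section

variable {a b c D : ℕ}

lemma H2.memG (h : H2 a b c D) {p : ℕ} : p ∈ G1 a c D ↔ p.Prime ∧ (p ∣ a ∨ p ∣ c ∨ p ∣ D) := by
  unfold G1
  rw [Nat.mem_primeFactors]
  have h0 : a * c * D ≠ 0 := mul_ne_zero (mul_ne_zero h.pa.ne' h.pc.ne') h.pD.ne'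
  constructor
  · rintro ⟨h1, h2, -⟩
    refine ⟨h1, ?_⟩
    rcases h1.dvd_mul.1 h2 with h3 | h3
    · rcases h1.dvd_mul.1 h3 with h4 | h4
      · exact Or.inl h4
      · exact Or.inr (Or.inl h4)
    · exact Or.inr (Or.inr h3)
  · rintro ⟨h1, h2 | h2 | h2⟩
    · exact ⟨h1, (h2.mul_right _).mul_right _, h0⟩
    · exact ⟨h1, (h2.mul_left _).mul_right _, h0⟩
    · exact ⟨h1, h2.mul_left _, h0⟩

lemma H2.memC (h : H2 a b c D) {p : ℕ} : p ∈ C1 a b D ↔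
    p.Prime ∧ p ∣ b ∧ jacobiSym (-((D : ℤ) * a)) p = 1 := by
  unfold C1
  rw [mem_filter, Nat.mem_primeFactors]
  constructor
  · rintro ⟨⟨h1, h2, -⟩, h3⟩
    exact ⟨h1, h2, h3⟩
  · rintro ⟨h1, h2, h3⟩
    exact ⟨⟨h1, h2, h.pb.ne'⟩, h3⟩

lemma H2.nD (h : H2 a b c D) {p : ℕ} (hp : p.Prime) (h1 : p ∣ a ∨ p ∣ b ∨ p ∣ c) : ¬ p ∣ D := by
  intro h2
  have := h.hD p hp h2
  have := h.big p hp h1
  omega

/-- the primes of `B` -/
lemma H2.dvdB (h : H2 a b c D) {p : ℕ} (hp : p.Prime) (hp2 : p ≠ 2) :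
    (p : ℤ) ∣ (D : ℤ) * b - (D : ℤ) * a ↔ p ∣ D ∨ p ∣ c := by
  have e : ((p : ℤ) ∣ (D : ℤ) * b - (D : ℤ) * a) ↔ (p : ℤ) ∣ ((D * (32 * c) : ℕ) : ℤ) := by
    rw [← mul_sub]
    rcases h.dif with h1 | h1 <;> rw [h1]
    · push_cast
      rfl
    · rw [mul_neg, dvd_neg]
      push_cast
      rfl
  rw [e, Int.natCast_dvd_natCast]
  constructor
  · intro h1
    rcases hp.dvd_mul.1 h1 with h2 | h2
    · exact Or.inl h2
    · rcases hp.dvd_mul.1 h2 with h3 | h3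
      · exfalso
        have h4 : p ∣ 2 ^ 5 := h3
        exact hp2 ((Nat.prime_dvd_prime_iff_eq hp Nat.prime_two).1 (hp.dvd_of_dvd_pow h4))
      · exact Or.inr h3
  · rintro (h1 | h1)
    · exact h1.mul_right _
    · exact (h1.mul_left _).mul_left _

/-- **the data for the other isogenies** -/
theorem H2.dtb (h : H2 a b c D) :
    Dtb (-((D : ℤ) * a)) ((D : ℤ) * b - (D : ℤ) * a) (G1 a c D) (C1 a b D) := by
  have hD0 : (0 : ℤ) < D := by exact_mod_cast h.pD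
  have p0 : (0 : ℤ) < a := by exact_mod_cast h.pa
  have p1 : (0 : ℤ) < b := by exact_mod_cast h.pb
  have p2 : (0 : ℤ) < c := by exact_mod_cast h.pc
  have hA : ∀ p : ℕ, p.Prime → ((p : ℤ) ∣ -((D : ℤ) * a) ↔ p ∣ D ∨ p ∣ a) := by
    intro p hp
    rw [dvd_neg]
    have e : (D : ℤ) * a = ((D * a : ℕ) : ℤ) := by push_cast; ring
    rw [e, Int.natCast_dvd_natCast, hp.dvd_mul]
  have hAB : ∀ p : ℕ, p.Prime → ((p : ℤ) ∣ -((D : ℤ) * a) - ((D : ℤ) * b - (D : ℤ) * a) ↔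
      p ∣ D ∨ p ∣ b) := by
    intro p hp
    have e : -((D : ℤ) * a) - ((D : ℤ) * b - (D : ℤ) * a) = -((D * b : ℕ) : ℤ) := by
      push_cast; ring
    rw [e, dvd_neg, Int.natCast_dvd_natCast, hp.dvd_mul]
  have hodd : ∀ p : ℕ, p.Prime → (p ∣ a ∨ p ∣ b ∨ p ∣ c) → p ≠ 2 := fun p hp h1 => by
    have := h.big p hp h1
    omega
  refine ⟨?_, ?_, ?_, ?_, h.l2, ?_, ?_, ?_, ?_, ?_⟩
  · have := mul_pos hD0 p0
    omega
  · rw [← mul_sub]
    apply mul_ne_zero hD0.ne'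
    rcases h.dif with h1 | h1 <;> rw [h1] <;> omega
  · intro h1
    have : (D : ℤ) * b = 0 := by linarith
    have := mul_pos hD0 p1
    omega
  · apply dvd_mul_of_dvd_right
    rw [← mul_sub]
    apply dvd_mul_of_dvd_right
    rcases h.dif with h1 | h1 <;> rw [h1] <;> omega
  · intro p hp
    obtain ⟨h1, h2 | h2 | h2⟩ := h.memG.1 hp
    · have := h.big p h1 (Or.inl h2)
      exact ⟨h1, by omega⟩
    · have := h.big p h1 (Or.inr (Or.inr h2))
      exact ⟨h1, by omega⟩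
    · have := h.hD p h1 h2
      exact ⟨h1, by omega⟩
  · intro p hp hp2
    rw [h.memG]
    constructor
    · intro h1
      refine ⟨hp, ?_⟩
      rcases (Nat.prime_iff_prime_int.1 hp).dvd_or_dvd h1 with h2 | h2
      · rcases (hA p hp).1 h2 with h3 | h3
        · exact Or.inr (Or.inr h3)
        · exact Or.inl h3
      · rcases (h.dvdB hp hp2).1 h2 with h3 | h3
        · exact Or.inr (Or.inr h3)
        · exact Or.inr (Or.inl h3)
    · rintro ⟨-, h2 | h2 | h2⟩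
      · exact dvd_mul_of_dvd_left ((hA p hp).2 (Or.inr h2)) _
      · exact dvd_mul_of_dvd_right ((h.dvdB hp hp2).2 (Or.inr h2)) _
      · exact dvd_mul_of_dvd_left ((hA p hp).2 (Or.inl h2)) _
  · intro p hp
    obtain ⟨hpp, h2 | h2 | h2⟩ := h.memG.1 hp
    · left
      have hD := h.nD hpp (Or.inl h2)
      have hp2 := hodd p hpp (Or.inl h2)
      refine ⟨(hA p hpp).2 (Or.inr h2), ?_, ?_⟩
      · rw [dvd_neg]
        exact nsq_D hpp hD h.sa
      · rw [h.dvdB hpp hp2]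
        rintro (h3 | h3)
        · exact hD h3
        · exact cop_nd hpp h.ac h2 h3
    · right; left
      have hD := h.nD hpp (Or.inr (Or.inr h2))
      have hp2 := hodd p hpp (Or.inr (Or.inr h2))
      refine ⟨(h.dvdB hpp hp2).2 (Or.inr h2), ?_, ?_⟩
      · intro h1
        have h3 : (p : ℤ) ^ 2 ∣ ((D * (32 * c) : ℕ) : ℤ) := by
          rw [← mul_sub] at h1
          rcases h.dif with h4 | h4 <;> rw [h4] at h1
          · push_cast
            exact h1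
          · rw [mul_neg, dvd_neg] at h1
            push_cast
            exact h1
        have h4 : p ^ 2 ∣ D * (32 * c) := by exact_mod_cast h3
        have h5 : (p ^ 2).Coprime 32 := by
          have : p.Coprime 2 := (Nat.coprime_primes hpp Nat.prime_two).2 hp2
          have h5 : (p ^ 2).Coprime (2 ^ 5) := Nat.Coprime.pow 2 5 this
          exact h5
        have h6 : (p ^ 2).Coprime D :=
          Nat.Coprime.pow_left 2 ((Nat.Prime.coprime_iff_not_dvd hpp).2 hD)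
        exact nsq hpp h.sc (h5.dvd_of_dvd_mul_left (h6.dvd_of_dvd_mul_left h4))
      · rw [hA p hpp]
        rintro (h3 | h3)
        · exact hD h3
        · exact cop_nd hpp h.ac h3 h2
    · right; right
      have h17 := h.hD p hpp h2
      exact ⟨(hA p hpp).2 (Or.inl h2), (h.dvdB hpp (by omega)).2 (Or.inl h2)⟩
  · intro p hp
    obtain ⟨hpp, h2, h3⟩ := h.memC.1 hp
    have hD := h.nD hpp (Or.inr (Or.inl h2))
    refine ⟨hpp, by have := h.big p hpp (Or.inr (Or.inl h2)); omega, (hAB p hpp).2 (Or.inr h2), ?_,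
      h3⟩
    rw [hA p hpp]
    rintro (h4 | h4)
    · exact hD h4
    · exact cop_nd hpp h.ab h4 h2
  · intro p hpp hp2 h1 h2
    by_cases hD : p ∣ D
    · right
      have h17 := h.hD p hpp hD
      subst h17
      exact ⟨(hA 17 hpp).2 (Or.inl hD), h.l17 hD⟩
    · left
      have h3 : p ∣ b := ((hAB p hpp).1 h1).resolve_left hD
      have h4 : ¬ (p : ℤ) ∣ -((D : ℤ) * a) := by
        rw [hA p hpp]
        rintro (h4 | h4)
        · exact hD h4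
        · exact cop_nd hpp h.ab h4 h3
      refine ⟨h4, ?_⟩
      have h5 : jacobiSym (-((D : ℤ) * a)) p ≠ 1 := fun h5 => h2 (h.memC.2 ⟨hpp, h3, h5⟩)
      have h6 : jacobiSym (-((D : ℤ) * a)) p ≠ 0 := by
        rw [Ne, jacobiSym.eq_zero_iff, not_and, not_not]
        intro _
        exact Int.isCoprime_iff_gcd_eq_one.1
          ((Nat.prime_iff_prime_int.1 hpp).coprime_iff_not_dvd.2 h4).symm
      rcases jacobiSym.trichotomy (-((D : ℤ) * a)) p with h7 | h7 | h7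
      · exact absurd h7 h6
      · exact absurd h7 h5
      · exact h7

lemma H2.Gp (h : H2 a b c D) : ∀ p ∈ G1 a c D, p.Prime ∧ p ≠ 2 := fun p hp =>
  ⟨(h.dtb.hG p hp).1, by have := (h.dtb.hG p hp).2; omega⟩

lemma H2.Cp (h : H2 a b c D) : ∀ p ∈ C1 a b D, p.Prime ∧ p ≠ 2 := fun p hp =>
  ⟨(h.dtb.hC p hp).1, by have := (h.dtb.hC p hp).2.1; omega⟩

/-- the number of the quartics -/
theorem H2.sq (h : H2 a b c D)
    (H : ∀ e : ℤ, Squarefree e → 0 < e → e % 8 = 1 → (∀ p : ℕ, p.Prime → (p : ℤ) ∣ e → p ∣ b ∧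
      jacobiSym (-((D : ℤ) * a)) p = 1) → (∀ p : ℕ, p.Prime → (p ∣ a ∨ p ∣ c ∨ p ∣ D) →
      jacobiSym e p = 1) → e = 1) :
    (SQ (-(-((D : ℤ) * a) + ((D : ℤ) * b - (D : ℤ) * a)))
      (-((D : ℤ) * a) * ((D : ℤ) * b - (D : ℤ) * a))).ncard * 2 ^ (C1 a b D).card =
      2 ^ ((G1 a c D).card + 2) := by
  rw [sq_eq2 h.dtb]
  refine cnt2 h.Gp h.Cp fun y hy hq => ?_
  have hCp : ∀ p ∈ C1 a b D, p.Prime := fun p hp => (h.Cp p hp).1
  apply H _ (dd_sqf hCp y) (dd_pos hCp y) hy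
  · intro p hp hpd
    obtain ⟨h1, h2, h3⟩ := h.memC.1 (dvd_dd hCp y hp hpd)
    exact ⟨h2, h3⟩
  · intro p hp h1
    have hpG : p ∈ G1 a c D := h.memG.2 ⟨hp, h1⟩
    have hpC : p ∉ C1 a b D := fun h2 => h.dtb.Cnd h2 hpG
    rw [← ddr_not y hpC]
    exact hq p hpG

end

section

variable {s : Fin 3 → ℕ} {D : ℕ}

lemma Hy.two (h : Hy s D) (hf : Fact (Nat.Prime 2)) {d : ℤ} (hd : Squarefree d) :
    Loc ℚ_[2] ((D : ℤ) * s 0) ((D : ℤ) * s 1) 1 d := by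
  have hdif := h.dat.dif'
  have m8 : ∀ x : ℕ, x % 8 = 1 → ((D : ℤ) * (x : ℤ)) % 8 = 1 := by
    intro x hx
    have : (D * x) % 8 = 1 := by rw [Nat.mul_mod, h.D8, hx]
    have h2 : ((D * x : ℕ) : ℤ) % 8 = 1 := by omega
    rw [← h2]
    push_cast
    rfl
  have hodd : ((D : ℤ) * (s 2 : ℤ)) % 2 = 1 := by
    have h2 : ¬ 2 ∣ D * s 2 := by
      intro h'
      rcases Nat.prime_two.dvd_mul.1 h' with h' | h'
      · have := (h.pD Nat.prime_two h').2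
        omega
      · exact (h.dat.ne2 h') rfl
    have h3 : (D * s 2) % 2 = 1 := by omega
    have h4 : ((D * s 2 : ℕ) : ℤ) % 2 = 1 := by omega
    rw [← h4]
    push_cast
    rfl
  exact pt_two (m8 _ h.m0) (m8 _ h.m1) hdif hodd rfl hd

lemma sgn17_17 : sgn 17 17 = false ∧ dv 17 17 = true := by
  constructor
  · have := sgn_fac (p := 17) (by norm_num) (e := 17) (e' := 1) (c := 17) (Or.inr rfl) (by norm_num)
      (by rw [jacobiSym.one_left])
    exact this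
  · unfold dv
    rw [decide_eq_true]
    norm_num

lemma sgn17_mul {d : ℤ} (hd : ¬ (17 : ℤ) ∣ d) : sgn 17 (17 * d) = sgn 17 d := by
  have h1 : Int.gcd (17 * d) ((17 : ℕ) : ℤ) = 17 := by
    rw [Int.gcd_comm, Int.gcd_eq_natAbs_left (by exact_mod_cast dvd_mul_right _ _)]
    rfl
  have h2 : Int.gcd d ((17 : ℕ) : ℤ) = 1 := by
    have hp : Prime (17 : ℤ) := by
      have := Nat.prime_iff_prime_int.1 (by norm_num : Nat.Prime 17)
      exact_mod_cast this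
    have := Int.isCoprime_iff_gcd_eq_one.1 (hp.coprime_iff_not_dvd.2 hd).symm
    exact_mod_cast this
  unfold sgn
  rw [h1, h2]
  have e1 : 17 * d / ((17 : ℕ) : ℤ) = d := Int.mul_ediv_cancel_left d (by norm_num)
  rw [e1, Nat.cast_one, Int.ediv_one]

lemma Hy.seventeen (h : Hy s D) (hD : 17 ∣ D) (hf : Fact (Nat.Prime 17)) {d : ℤ}
    (hd : Squarefree d) : LocI ℚ_[17] (-((D : ℤ) * s 0)) ((D : ℤ) * s 1 - (D : ℤ) * s 0) d ∧
      LocI ℚ_[17] (-((D : ℤ) * s 1)) ((D : ℤ) * s 0 - (D : ℤ) * s 1) d := by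
  have hD17 := (h.pD (by norm_num) hD).1
  subst hD17
  have hp17 : Nat.Prime 17 := by norm_num
  have sq17 : Squarefree (17 : ℤ) := by
    have := (Nat.prime_iff_prime_int.1 hp17).squarefree
    exact_mod_cast this
  have hdK : (d : ℚ_[17]) ≠ 0 := by exact_mod_cast hd.ne_zero
  have h17K : (((17 : ℤ) : ℤ) : ℚ_[17]) ≠ 0 := by norm_num
  obtain ⟨u1, u2⟩ := dv_one hp17
  obtain ⟨w1, w2⟩ := sgn17_17
  cases hs : sgn 17 d with
  | false =>
    have hL := pt17 h.s0z h.s1z squarefree_one hd u2 (by rw [hs, u1])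
    have h1K : (((1 : ℤ) : ℤ) : ℚ_[17]) ≠ 0 := by norm_num
    obtain ⟨t1, t2⟩ := loc_tr h1K hdK hdK hL
    exact ⟨t1 ⟨d, rfl⟩, t2 ⟨d, by push_cast; ring⟩⟩
  | true =>
    have hL := pt17 h.s0z h.s1z sq17 hd w1 (by rw [hs, w2])
    obtain ⟨t1, -⟩ := loc_tr h17K hdK hdK hL
    refine ⟨t1 ⟨d, rfl⟩, ?_⟩
    by_cases h17 : (17 : ℤ) ∣ d
    · obtain ⟨e, rfl⟩ := h17
      have he : ¬ (17 : ℤ) ∣ e := by
        rintro ⟨f, rfl⟩
        have := hd 17 ⟨f, by ring⟩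
        rw [Int.isUnit_iff] at this
        omega
      have hes : Squarefree e := hd.squarefree_of_dvd ⟨17, by ring⟩
      have heK : (e : ℚ_[17]) ≠ 0 := by exact_mod_cast hes.ne_zero
      rw [sgn17_mul he] at hs
      have hL2 := pt17 h.s0z h.s1z sq17 hes w1 (by rw [hs, w2])
      obtain ⟨-, t2⟩ := loc_tr h17K heK hdK hL2
      exact t2 ⟨17 * e, by push_cast; ring⟩
    · have hes : Squarefree (17 * d) := by
        rw [← Int.squarefree_natAbs, Int.natAbs_mul, Nat.squarefree_mul_iff]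
        refine ⟨?_, hp17.squarefree, Int.squarefree_natAbs.2 hd⟩
        show Nat.Coprime 17 d.natAbs
        rw [Nat.Prime.coprime_iff_not_dvd hp17]
        intro h1
        exact h17 (by
          have := Int.natCast_dvd.2 h1
          exact_mod_cast this)
      have heK : ((17 * d : ℤ) : ℚ_[17]) ≠ 0 := by exact_mod_cast hes.ne_zero
      have hL2 := pt17 h.s0z h.s1z sq17 hes w1 (by rw [sgn17_mul h17, hs, w2])
      obtain ⟨-, t2⟩ := loc_tr h17K heK hdK hL2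
      exact t2 ⟨17 * d, by push_cast; ring⟩

/-- the data of the second isogeny -/
lemma Hy.h2a (h : Hy s D) : H2 (s 0) (s 1) (s 2) D := by
  have c2 := h.dat.cop012
  refine ⟨h.dat.pos 0, h.dat.pos 1, h.dat.pos 2, h.dat.D0, h.dat.cop01,
    Nat.Coprime.coprime_mul_right c2, h.dat.sqj 0, h.dat.sqj 2, Or.inr ?_,
    fun p hp h1 => (h.pD hp h1).2, ?_, ?_, ?_⟩
  · have := h.dat.dif
    linarith
  · rintro p hp (h1 | h1 | h1) <;> exact h.bj hp h1
  · intro hf d hd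
    have hdK : (d : ℚ_[2]) ≠ 0 := by exact_mod_cast hd.ne_zero
    have h1K : (((1 : ℤ) : ℤ) : ℚ_[2]) ≠ 0 := by norm_num
    exact (loc_tr h1K hdK hdK (h.two hf hd)).1 ⟨d, rfl⟩
  · intro hD hf d hd
    exact (h.seventeen hD hf hd).1

/-- the data of the third isogeny -/
lemma Hy.h2b (h : Hy s D) : H2 (s 1) (s 0) (s 2) D := by
  have c2 := h.dat.cop012
  refine ⟨h.dat.pos 1, h.dat.pos 0, h.dat.pos 2, h.dat.D0, h.dat.cop01.symm,
    Nat.Coprime.coprime_mul_left c2, h.dat.sqj 1, h.dat.sqj 2, Or.inl h.dat.dif,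
    fun p hp h1 => (h.pD hp h1).2, ?_, ?_, ?_⟩
  · rintro p hp (h1 | h1 | h1) <;> exact h.bj hp h1
  · intro hf d hd
    have hdK : (d : ℚ_[2]) ≠ 0 := by exact_mod_cast hd.ne_zero
    have h1K : (((1 : ℤ) : ℤ) : ℚ_[2]) ≠ 0 := by norm_num
    exact (loc_tr h1K hdK hdK (h.two hf hd)).2 ⟨d, by push_cast; ring⟩
  · intro hD hf d hd
    exact (h.seventeen hD hf hd).2

/-- the classes `(e, 1)` -/
lemma Hy.lc1 (h : Hy s D) {e : ℤ} (hs : Squarefree e) (h0 : 0 < e) (h8 : e % 8 = 1)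
    (hp : ∀ p : ℕ, p.Prime → (p : ℤ) ∣ e → p ∣ s 1 ∧ jacobiSym (-((D : ℤ) * s 0)) p = 1)
    (hj : ∀ p : ℕ, p.Prime → (p ∣ s 0 ∨ p ∣ s 2 ∨ p ∣ D) → jacobiSym e p = 1) : LC s D e 1 := by
  refine ⟨hs, squarefree_one, h0, h8, ?_, ?_, ?_, ?_, ?_, ?_⟩
  · intro q hq hqe
    exact ((hp q hq hqe).1.trans (h.dat.sj_dvd 1)).mul_left _
  · intro q hq h2
    have : q ∣ 1 := by exact_mod_cast h2
    exact absurd (Nat.dvd_one.1 this) hq.one_lt.ne'
  · intro p hpp h2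
    obtain ⟨u1, u2⟩ := dv_one hpp
    obtain ⟨v1, v2⟩ := dv_sgn hpp (hj p hpp (Or.inl h2))
    rw [u1, u2, v1, v2]
    unfold LR
    rw [if_pos rfl]
    exact ⟨rfl, rfl⟩
  · intro p hpp h2
    obtain ⟨u1, u2⟩ := dv_one hpp
    rw [u1, u2]
    unfold LR
    rw [if_neg (by decide), if_pos rfl]
    refine ⟨rfl, ?_⟩
    by_cases h3 : (p : ℤ) ∣ e
    · unfold sg0
      rw [(hp p hpp h3).2]
      simp
    · unfold dv
      rw [decide_eq_false h3]
      rfl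
  · intro p hpp h2
    obtain ⟨u1, u2⟩ := dv_one hpp
    obtain ⟨v1, v2⟩ := dv_sgn hpp (hj p hpp (Or.inr (Or.inl h2)))
    rw [u1, u2, v1, v2]
    unfold LR
    rw [if_neg (by decide), if_neg (by decide)]
    exact ⟨rfl, rfl⟩
  · intro hD
    have hp17 : Nat.Prime 17 := by norm_num
    obtain ⟨u1, u2⟩ := dv_one hp17
    obtain ⟨v1, v2⟩ := dv_sgn hp17 (hj 17 hp17 (Or.inr (Or.inr (by rw [hD]))))
    exact ⟨v2, by rw [u2, v1]⟩

/-- the classes `(e, e)` -/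
lemma Hy.lc2 (h : Hy s D) {e : ℤ} (hs : Squarefree e) (h0 : 0 < e) (h8 : e % 8 = 1)
    (hp : ∀ p : ℕ, p.Prime → (p : ℤ) ∣ e → p ∣ s 0 ∧ jacobiSym (-((D : ℤ) * s 1)) p = 1)
    (hj : ∀ p : ℕ, p.Prime → (p ∣ s 1 ∨ p ∣ s 2 ∨ p ∣ D) → jacobiSym e p = 1) : LC s D e e := by
  refine ⟨hs, hs, h0, h8, ?_, ?_, ?_, ?_, ?_, ?_⟩
  · intro q hq hqe
    exact ((hp q hq hqe).1.trans (h.dat.sj_dvd 0)).mul_left _
  · intro q hq hqe
    exact Or.inr (((hp q hq hqe).1.trans (h.dat.sj_dvd 0)).mul_left _)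
  · intro p hpp h2
    unfold LR
    rw [if_pos rfl]
    refine ⟨rfl, ?_⟩
    rw [Bool.xor_self]
    by_cases h3 : (p : ℤ) ∣ e
    · unfold sg0
      rw [(hp p hpp h3).2]
      simp
    · unfold dv
      rw [decide_eq_false h3]
      rfl
  · intro p hpp h2
    obtain ⟨v1, v2⟩ := dv_sgn hpp (hj p hpp (Or.inl h2))
    rw [v1, v2]
    unfold LR
    rw [if_neg (by decide), if_pos rfl]
    exact ⟨rfl, rfl⟩
  · intro p hpp h2
    obtain ⟨v1, v2⟩ := dv_sgn hpp (hj p hpp (Or.inr (Or.inl h2)))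
    rw [v1, v2]
    unfold LR
    rw [if_neg (by decide), if_neg (by decide)]
    exact ⟨rfl, rfl⟩
  · intro hD
    have hp17 : Nat.Prime 17 := by norm_num
    obtain ⟨v1, v2⟩ := dv_sgn hp17 (hj 17 hp17 (Or.inr (Or.inr (by rw [hD]))))
    exact ⟨v2, by rw [v1, v2]⟩

/-- **the second isogeny** -/
theorem Hy.sq1 (h : Hy s D) (h1 : ∀ e : ℤ, ((e, 1) : ℤ × ℤ) ∈ Sel ((D : ℤ) * s 0) ((D : ℤ) * s 1)
    → e = 1) : (SQ (-(-((D : ℤ) * s 0) + ((D : ℤ) * s 1 - (D : ℤ) * s 0)))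
      (-((D : ℤ) * s 0) * ((D : ℤ) * s 1 - (D : ℤ) * s 0))).ncard * 2 ^ (C1 (s 0) (s 1) D).card =
      2 ^ ((G1 (s 0) (s 2) D).card + 2) :=
  h.h2a.sq fun e hs h0 h8 hp hj => h1 e (h.mem (h.lc1 hs h0 h8 hp hj))

/-- **the third isogeny** -/
theorem Hy.sq2 (h : Hy s D) (h1 : ∀ e : ℤ, ((e, e) : ℤ × ℤ) ∈ Sel ((D : ℤ) * s 0) ((D : ℤ) * s 1)
    → e = 1) : (SQ (-(-((D : ℤ) * s 1) + ((D : ℤ) * s 0 - (D : ℤ) * s 1)))
      (-((D : ℤ) * s 1) * ((D : ℤ) * s 0 - (D : ℤ) * s 1))).ncard * 2 ^ (C1 (s 1) (s 0) D).card =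
      2 ^ ((G1 (s 1) (s 2) D).card + 2) :=
  h.h2b.sq fun e hs h0 h8 hp hj => h1 e (h.mem (h.lc2 hs h0 h8 hp hj))

end

end Pool.Agent.X257.PS
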