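import Pool.Agent.X257.PS.Par
import Pool.Agent.W261.RT.Iso
import Pool.Agent.Y667.PA.Pair

/-!
# Project PS: all the equations `y² = x³ + a x² + b x` of a curve
-/

set_option autoImplicit false

namespace Pool.Agent.X257.PS

open Finset Pool.Agent.TH841.LS Pool.Agent.TH841.NO Pool.Agent.W307.SE Polynomial
  Pool.Agent.Y212.RZ Pool.Agent.W262.RK Pool.Agent.W307.FK Pool.Agent.Y667.RP Pool.Agent.Y667.RZ
  Pool.Agent.Y535.RZ

section

variable {K : Type} [Field K] [CharZero K] {A B A' B' m n : ℤ}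

lemma scale_div (hm : m ≠ 0) (_hn : n ≠ 0) (hA : A' * n ^ 2 = A * m ^ 2) :
    (A : K) = A' * ((n : K) / m) ^ 2 := by
  have hmK : (m : K) ≠ 0 := by exact_mod_cast hm
  have h : (A' : K) * n ^ 2 = A * m ^ 2 := by exact_mod_cast congrArg (fun z : ℤ => (z : K)) hA
  field_simp
  linear_combination -h

lemma locI_sc (hm : m ≠ 0) (hn : n ≠ 0) (hA : A' * n ^ 2 = A * m ^ 2)
    (hB : B' * n ^ 2 = B * m ^ 2) {d : ℤ} (h : LocI K A' B' d) : LocI K A B d := by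
  obtain ⟨X, Y, r, hX, hY, hr⟩ := h
  have hmK : (m : K) ≠ 0 := by exact_mod_cast hm
  have hnK : (n : K) ≠ 0 := by exact_mod_cast hn
  have hw : (n : K) / m ≠ 0 := div_ne_zero hnK hmK
  have eA := scale_div (K := K) hm hn hA
  have eB := scale_div (K := K) hm hn hB
  obtain ⟨w, hww⟩ : ∃ w : K, w = (n : K) / m := ⟨_, rfl⟩
  rw [← hww] at hw eA eB
  refine ⟨X * w ^ 2, Y * w ^ 3, r * w, mul_ne_zero hX (pow_ne_zero 2 hw), ?_, ?_⟩
  · rw [eA, eB]
    linear_combination w ^ 6 * hY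
  · rw [hr]; ring

lemma loc_sc (hm : m ≠ 0) (hn : n ≠ 0) (hA : A' * n ^ 2 = A * m ^ 2)
    (hB : B' * n ^ 2 = B * m ^ 2) {d1 d2 : ℤ} (h : Loc K A' B' d1 d2) : Loc K A B d1 d2 := by
  obtain ⟨X, Y, hY0, hY, ⟨r, hr⟩, ⟨t, ht⟩⟩ := h
  have hmK : (m : K) ≠ 0 := by exact_mod_cast hm
  have hnK : (n : K) ≠ 0 := by exact_mod_cast hn
  have hw : (n : K) / m ≠ 0 := div_ne_zero hnK hmK
  have eA := scale_div (K := K) hm hn hA
  have eB := scale_div (K := K) hm hn hB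
  obtain ⟨w, hww⟩ : ∃ w : K, w = (n : K) / m := ⟨_, rfl⟩
  rw [← hww] at hw eA eB
  refine ⟨X * w ^ 2, Y * w ^ 3, mul_ne_zero hY0 (pow_ne_zero 3 hw), ?_, ⟨r * w, ?_⟩, ⟨t * w, ?_⟩⟩
  · rw [eA, eB]
    linear_combination w ^ 6 * hY
  · linear_combination w ^ 2 * hr
  · rw [eA]
    linear_combination w ^ 2 * ht

end

lemma no_half {p : ℕ} [hp : Fact p.Prime] (z : ℚ_[p]) : ‖z‖ ^ 2 ≠ (p : ℝ)⁻¹ := by
  intro h
  have hp1 : (1 : ℝ) < p := by exact_mod_cast hp.out.one_lt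
  by_cases hz : z = 0
  · rw [hz, norm_zero] at h
    have : (0 : ℝ) < (p : ℝ)⁻¹ := inv_pos.2 (by linarith)
    rw [← h] at this
    norm_num at this
  · rw [Padic.norm_eq_zpow_neg_valuation hz, ← zpow_natCast, ← zpow_mul, ← zpow_neg_one] at h
    have := zpow_right_injective₀ (by linarith) hp1.ne' h
    push_cast at this
    omega

/-- a prime of odd valuation of the class of `X` divides `A B` -/
lemma locI_dvd {p : ℕ} [hp : Fact p.Prime] {A B d : ℤ} (hpd : (p : ℤ) ∣ d)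
    (hpd2 : ¬ (p : ℤ) ^ 2 ∣ d) (hl : LocI ℚ_[p] A B d) : (p : ℤ) ∣ A * B := by
  by_contra hcon
  have hpi := Nat.prime_iff_prime_int.1 hp.out
  have n1 : ∀ A : ℤ, ¬ (p : ℤ) ∣ A → ‖(A : ℚ_[p])‖ = 1 := by
    intro A hA
    have h1 := Padic.norm_int_le_one (p := p) A
    have h2 : ¬ ‖(A : ℚ_[p])‖ < 1 := by
      rw [Padic.norm_intCast_lt_one_iff]
      exact hA
    exact le_antisymm h1 (not_lt.1 h2)
  have nA := n1 A (fun h => hcon (h.mul_right _))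
  have nB := n1 B (fun h => hcon (h.mul_left _))
  obtain ⟨e, rfl⟩ := hpd
  have he : ¬ (p : ℤ) ∣ e := fun h => hpd2 (by rw [pow_two]; exact mul_dvd_mul_left _ h)
  have nd : ‖(((p : ℤ) * e : ℤ) : ℚ_[p])‖ = (p : ℝ)⁻¹ := by
    push_cast
    rw [norm_mul, n1 e he, mul_one, Padic.norm_p]
  obtain ⟨X, Y, r, hX, hY, hr⟩ := hl
  have hr0 : r ≠ 0 := by
    rintro rfl
    exact hX (by rw [hr]; ring)
  have hrn : ‖r‖ ≠ 0 := norm_ne_zero_iff.2 hr0
  have hXn : ‖X‖ ≠ 0 := norm_ne_zero_iff.2 hX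
  have eX : ‖X‖ = (p : ℝ)⁻¹ * ‖r‖ ^ 2 := by rw [hr, norm_mul, nd, norm_pow]
  have eX' : ‖X‖ / ‖r‖ ^ 2 = (p : ℝ)⁻¹ := by rw [eX]; field_simp
  have eY : ‖Y‖ ^ 2 = ‖X‖ * ‖X - A‖ * ‖X - B‖ := by rw [← norm_pow, hY, norm_mul, norm_mul]
  have key : ∀ A : ℤ, ‖(A : ℚ_[p])‖ = 1 → ‖X‖ ≠ 1 → ‖X - (A : ℚ_[p])‖ = max ‖X‖ 1 := by
    intro A hA h
    rw [sub_eq_add_neg, Padic.add_eq_max_of_ne (by rw [norm_neg, hA]; exact h), norm_neg, hA]
  rcases lt_trichotomy ‖X‖ 1 with h | h | h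
  · rw [key A nA h.ne, key B nB h.ne, max_eq_right h.le, mul_one, mul_one] at eY
    apply no_half (Y / r)
    rw [norm_div, div_pow, eY, eX']
  · apply no_half (1 / r)
    rw [norm_div, div_pow, norm_one, one_pow, ← eX', h]
  · rw [key A nA h.ne', key B nB h.ne', max_eq_left h.le] at eY
    apply no_half (Y / (X * r))
    rw [norm_div, div_pow, eY, norm_mul, mul_pow, ← eX']
    field_simp

lemma sq_sub {A B A' B' m n : ℤ} (hm : m ≠ 0) (hn : n ≠ 0) (hA : A' * n ^ 2 = A * m ^ 2)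
    (hB : B' * n ^ 2 = B * m ^ 2) (A0 : A ≠ 0) (B0 : B ≠ 0) (AB : A ≠ B) (A0' : A' ≠ 0)
    (B0' : B' ≠ 0) (AB' : A' ≠ B') : SQ (-(A' + B')) (A' * B') ⊆ SQ (-(A + B)) (A * B) := by
  rintro d ⟨hs, hdv, hr, hp⟩
  obtain ⟨q1, q2⟩ := QULf.qul A' B' d A0' B0' AB' hs.ne_zero hdv
  have hr1 := locI_sc hm hn hA hB (q1.1 hr)
  have hp1 : ∀ (p : ℕ) [Fact p.Prime], LocI ℚ_[p] A B d := fun p _ =>
    locI_sc hm hn hA hB ((q2 p).1 (hp p))
  have hd : d ∣ A * B := by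
    rw [← Int.natAbs_dvd_natAbs]
    have h1 : Squarefree d.natAbs := Int.squarefree_natAbs.2 hs
    rw [← Nat.prod_primeFactors_of_squarefree h1]
    apply Finset.prod_primes_dvd
    · intro p hp
      exact (Nat.prime_of_mem_primeFactors hp).prime
    · intro p hpm
      have hpp := Nat.prime_of_mem_primeFactors hpm
      have : Fact p.Prime := ⟨hpp⟩
      have hpd : (p : ℤ) ∣ d := Int.natCast_dvd.2 (Nat.dvd_of_mem_primeFactors hpm)
      rw [← Int.natCast_dvd]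
      refine locI_dvd hpd ?_ (hp1 p)
      intro h1
      rw [pow_two] at h1
      have := hs _ h1
      rw [Int.isUnit_iff] at this
      have := hpp.two_le
      omega
  obtain ⟨q3, q4⟩ := QULf.qul A B d A0 B0 AB hs.ne_zero hd
  exact ⟨hs, hd, q3.2 hr1, fun p _ => (q4 p).2 (hp1 p)⟩

/-- **invariance** -/
lemma sq_inv {A B A' B' m n : ℤ} (hm : m ≠ 0) (hn : n ≠ 0) (hA : A' * n ^ 2 = A * m ^ 2)
    (hB : B' * n ^ 2 = B * m ^ 2) (A0 : A ≠ 0) (B0 : B ≠ 0) (AB : A ≠ B) (A0' : A' ≠ 0)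
    (B0' : B' ≠ 0) (AB' : A' ≠ B') : SQ (-(A' + B')) (A' * B') = SQ (-(A + B)) (A * B) :=
  Set.Subset.antisymm (sq_sub hm hn hA hB A0 B0 AB A0' B0' AB')
    (sq_sub hn hm hA.symm hB.symm A0' B0' AB' A0 B0 AB)

/-- the parity statement for one equation: the second group of quartics is trivial, the dimension of
the first is even -/
def Gd (a b : ℤ) : Prop := SQ (-2 * a) (a ^ 2 - 4 * b) ⊆ {1} ∧ Even (Nat.log 2 (SQ a b).ncard)

/-- the parity statement for the curve with the roots `0`, `A`, `B` and its isogeny with kernel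
`(0, 0)` -/
def GE (A B : ℤ) : Prop := (∀ d : ℤ, Squarefree d → Loc ℝ A B 1 d →
    (∀ (p : ℕ) [Fact p.Prime], Loc ℚ_[p] A B 1 d) → d = 1) ∧
  Even (Nat.log 2 (SQ (-(A + B)) (A * B)).ncard)

lemma gd_of {A B A' B' m n : ℤ} (hm : m ≠ 0) (hn : n ≠ 0) (hA : A' * n ^ 2 = A * m ^ 2)
    (hB : B' * n ^ 2 = B * m ^ 2) (A0 : A ≠ 0) (B0 : B ≠ 0) (AB : A ≠ B) (h : GE A B) :
    Gd (-(A' + B')) (A' * B') := by
  have hm2 : m ^ 2 ≠ 0 := pow_ne_zero 2 hm
  have hn2 : n ^ 2 ≠ 0 := pow_ne_zero 2 hn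
  have A0' : A' ≠ 0 := by
    rintro rfl
    exact mul_ne_zero A0 hm2 (by rw [← hA, zero_mul])
  have B0' : B' ≠ 0 := by
    rintro rfl
    exact mul_ne_zero B0 hm2 (by rw [← hB, zero_mul])
  have AB' : A' ≠ B' := by
    rintro rfl
    exact AB (mul_right_cancel₀ hm2 (hA.symm.trans hB))
  constructor
  · have e1 : -2 * -(A' + B') = 2 * (A' + B') := by ring
    have e2 : (-(A' + B')) ^ 2 - 4 * (A' * B') = (A' - B') ^ 2 := by ring
    rw [e1, e2]
    rintro d ⟨hs, hdv, hr, hp⟩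
    obtain ⟨q1, q2⟩ := QUMf.qum A' B' d A0' B0' AB' hs.ne_zero hdv
    exact h.1 d hs (loc_sc hm hn hA hB (q1 hr)) fun p _ => loc_sc hm hn hA hB (q2 p (hp p))
  · rw [sq_inv hm hn hA hB A0 B0 AB A0' B0' AB']
    exact h.2

/-- a rational number `A v²` which is a root of a monic quadratic polynomial -/
lemma int_root {x : ℚ} {a b : ℤ} (h : x ^ 2 + a * x + b = 0) : ∃ y : ℤ, x = y := by
  have h1 : IsIntegral ℤ x := by
    refine ⟨X ^ 2 + C a * X + C b, by monicity!, ?_⟩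
    simp only [eval₂_add, eval₂_mul, eval₂_pow, eval₂_X, eval₂_C]
    exact h
  obtain ⟨y, hy⟩ := IsIntegrallyClosed.isIntegral_iff.1 h1
  exact ⟨y, by rw [← hy]; rfl⟩

/-- the equations with the roots `0`, `A v²`, `B v²` -/
lemma gd_rat {A B : ℤ} {v : ℚ} (hv : v ≠ 0) {a b : ℤ} (ha : (a : ℚ) = -(A + B) * v ^ 2)
    (hb : (b : ℚ) = A * B * v ^ 4) (A0 : A ≠ 0) (B0 : B ≠ 0) (AB : A ≠ B) (h : GE A B) :
    Gd a b := by
  obtain ⟨A', hA'⟩ := int_root (x := A * v ^ 2) (a := a) (b := b) (by rw [ha, hb]; ring)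
  obtain ⟨B', hB'⟩ := int_root (x := B * v ^ 2) (a := a) (b := b) (by rw [ha, hb]; ring)
  have hn : (v.den : ℤ) ≠ 0 := by exact_mod_cast v.den_ne_zero
  have hm : v.num ≠ 0 := Rat.num_ne_zero.2 hv
  have hnQ : (v.den : ℚ) ≠ 0 := by exact_mod_cast v.den_ne_zero
  have hvn : v * v.den = v.num := Rat.mul_den_eq_num v
  have e1 : A' * (v.den : ℤ) ^ 2 = A * v.num ^ 2 := by
    have : (A' : ℚ) * (v.den : ℚ) ^ 2 = A * (v.num : ℚ) ^ 2 := by
      rw [← hA', ← hvn]; ring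
    exact_mod_cast this
  have e2 : B' * (v.den : ℤ) ^ 2 = B * v.num ^ 2 := by
    have : (B' : ℚ) * (v.den : ℚ) ^ 2 = B * (v.num : ℚ) ^ 2 := by
      rw [← hB', ← hvn]; ring
    exact_mod_cast this
  have e3 : a = -(A' + B') := by
    have : (a : ℚ) = -(A' + B') := by rw [ha, ← hA', ← hB']; ring
    exact_mod_cast this
  have e4 : b = A' * B' := by
    have : (b : ℚ) = A' * B' := by rw [hb, ← hA', ← hB']; ring
    exact_mod_cast this
  rw [e3, e4]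
  exact gd_of hm hn e1 e2 A0 B0 AB h

open WeierstrassCurve in
/-- **all the equations** of the curve with the roots `-k`, `A - k`, `B - k` -/
theorem gd_all {A B k : ℤ} (hk : A + B = 3 * k) (A0 : A ≠ 0) (B0 : B ≠ 0) (AB : A ≠ B)
    (h0 : GE A B) (h1 : GE (-A) (B - A)) (h2 : GE (-B) (A - B)) {a b : ℤ}
    (C : VariableChange ℚ) (hC : C • (⟨0, 0, 0, ((A * B - 3 * k ^ 2 : ℤ) : ℚ),
      ((k * (A - k) * (B - k) : ℤ) : ℚ)⟩ : WeierstrassCurve ℚ) = ⟨0, a, 0, b, 0⟩) :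
    Gd a b ∧ Nonempty ((⟨0, 0, 0, ((A * B - 3 * k ^ 2 : ℤ) : ℚ),
      ((k * (A - k) * (B - k) : ℤ) : ℚ)⟩ : WeierstrassCurve ℚ).toAffine.Point ≃+
        (⟨0, a, 0, b, 0⟩ : WeierstrassCurve ℚ).toAffine.Point) := by
  obtain ⟨u, hu⟩ : ∃ u : ℚ, u = (C.u : ℚ) := ⟨_, rfl⟩
  have hu0 : u ≠ 0 := by rw [hu]; exact C.u.ne_zero
  have hui : ((C.u⁻¹ : ℚˣ) : ℚ) = u⁻¹ := by rw [hu, Units.val_inv_eq_inv_val]
  have a1 := congrArg WeierstrassCurve.a₁ hC
  have a2 := congrArg WeierstrassCurve.a₂ hC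
  have a3 := congrArg WeierstrassCurve.a₃ hC
  have a4 := congrArg WeierstrassCurve.a₄ hC
  have a6 := congrArg WeierstrassCurve.a₆ hC
  rw [variableChange_a₁] at a1
  rw [variableChange_a₂] at a2
  rw [variableChange_a₃] at a3
  rw [variableChange_a₄] at a4
  rw [variableChange_a₆] at a6
  simp only [hui] at a1 a2 a3 a4 a6
  have hui0 : u⁻¹ ≠ 0 := inv_ne_zero hu0
  have hs : C.s = 0 := by
    have := (mul_eq_zero.1 a1).resolve_left hui0
    linarith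
  have ht : C.t = 0 := by
    have := (mul_eq_zero.1 a3).resolve_left (pow_ne_zero 3 hui0)
    linarith
  rw [hs] at a2 a4
  rw [ht] at a4 a6
  obtain ⟨r, hr⟩ : ∃ r : ℚ, r = C.r := ⟨_, rfl⟩
  rw [← hr] at a2 a4 a6
  have hkQ : (A : ℚ) + B = 3 * k := by exact_mod_cast hk
  have hroot := (mul_eq_zero.1 a6).resolve_left (pow_ne_zero 6 hui0)
  push_cast at a4 hroot
  have hfac : (r + k) * ((r - (A - k)) * (r - (B - k))) = 0 := by
    linear_combination hroot - (r ^ 2 + 2 * k * r) * hkQ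
  have ha : (a : ℚ) = 3 * r * u⁻¹ ^ 2 := by rw [← a2]; ring
  have hb : (b : ℚ) = (A * B - 3 * k ^ 2 + 3 * r ^ 2) * u⁻¹ ^ 4 := by rw [← a4]; ring
  refine ⟨?_, ?_⟩
  · rcases mul_eq_zero.1 hfac with h | h
    · have hr1 : r = -k := by linarith
      refine gd_rat hui0 ?_ ?_ A0 B0 AB h0
      · rw [ha, hr1]
        linear_combination (u⁻¹ ^ 2) * hkQ
      · rw [hb, hr1]; ring
    · rcases mul_eq_zero.1 h with h | h
      · have hr1 : r = A - k := by linarith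
        refine gd_rat (A := -A) (B := B - A) hui0 ?_ ?_ (neg_ne_zero.2 A0) (by omega) (by omega) h1
        · rw [ha, hr1]
          push_cast
          linear_combination (u⁻¹ ^ 2) * hkQ
        · rw [hb, hr1]
          push_cast
          linear_combination (2 * A * u⁻¹ ^ 4) * hkQ
      · have hr1 : r = B - k := by linarith
        refine gd_rat (A := -B) (B := A - B) hui0 ?_ ?_ (neg_ne_zero.2 B0) (by omega) (by omega) h2
        · rw [ha, hr1]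
          push_cast
          linear_combination (u⁻¹ ^ 2) * hkQ
        · rw [hb, hr1]
          push_cast
          linear_combination (2 * B * u⁻¹ ^ 4) * hkQ
  · have hi := Pool.Agent.W261.RT.iso 0 (((A * B - 3 * k ^ 2 : ℤ) : ℚ))
      ((k * (A - k) * (B - k) : ℤ) : ℚ) r u hu0
    have e : (⟨0, (0 + 3 * r) / u ^ 2, 0, (((A * B - 3 * k ^ 2 : ℤ) : ℚ) + 2 * r * 0 + 3 * r ^ 2) /
        u ^ 4, (((k * (A - k) * (B - k) : ℤ) : ℚ) + r * ((A * B - 3 * k ^ 2 : ℤ) : ℚ) + r ^ 2 * 0 +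
        r ^ 3) / u ^ 6⟩ : WeierstrassCurve ℚ) = ⟨0, a, 0, b, 0⟩ := by
      congr 1
      · rw [ha]; field_simp; ring
      · rw [hb]
        push_cast
        field_simp
        ring
      · rw [div_eq_zero_iff]
        left
        push_cast
        linear_combination hroot
    rw [e] at hi
    exact hi

end Pool.Agent.X257.PS
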