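import Mathlib
import Pool.Agent.TH841.LS.Lin
import Pool.Agent.TH841.NO.Lb

/-!
# Project PS: the exact order of the Selmer group of the 2-isogeny

Linear algebra: the number of the solutions of a system of linear equations over `𝔽₂` whose
transposed system has only the zero solution.
-/

set_option autoImplicit false

namespace Pool.Agent.X257.PS

open Finset Pool.Agent.TH841.LS Pool.Agent.TH841.LS.LINf

/-- the number of the solutions if the rows are linearly independent -/
theorem card_ker {P R : Type} [Fintype P] [Fintype R] [DecidableEq P] [DecidableEq R]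
    (χ : R → P → ZMod 2) (h : ∀ y : R → ZMod 2, (∀ q, ∑ r, y r * χ r q = 0) → y = 0) :
    Nat.card {x : P → ZMod 2 // ∀ r, ∑ q, x q * χ r q = 0} * 2 ^ Fintype.card R =
      2 ^ Fintype.card P := by
  classical
  obtain ⟨M, hM⟩ : ∃ M : Matrix R P (ZMod 2), M = Matrix.of χ := ⟨_, rfl⟩
  have hinj : LinearMap.ker (Matrix.mulVecLin M.transpose) = ⊥ := by
    rw [LinearMap.ker_eq_bot']
    intro y hy
    apply h
    intro q
    have := congrFun hy q
    simp only [Matrix.mulVecLin_apply, Matrix.mulVec, dotProduct, Matrix.transpose_apply, hM,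
      Matrix.of_apply, Pi.zero_apply] at this
    rw [← this]
    exact Finset.sum_congr rfl fun r _ => mul_comm _ _
  have hrT : M.transpose.rank = Fintype.card R := by
    have h1 := LinearMap.finrank_range_add_finrank_ker (Matrix.mulVecLin M.transpose)
    rw [hinj, finrank_bot, add_zero, Module.finrank_fintype_fun_eq_card] at h1
    exact h1
  have hr : M.rank = Fintype.card R := by rw [← Matrix.rank_transpose, hrT]
  have h2 := LinearMap.finrank_range_add_finrank_ker (Matrix.mulVecLin M)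
  rw [Module.finrank_fintype_fun_eq_card] at h2
  have h3 : Module.finrank (ZMod 2) (LinearMap.range (Matrix.mulVecLin M)) = Fintype.card R := hr
  rw [h3] at h2
  have e1 : {x : P → ZMod 2 // ∀ r, ∑ q, x q * χ r q = 0} ≃
      LinearMap.ker (Matrix.mulVecLin M) := by
    refine Equiv.subtypeEquivRight fun x => ?_
    rw [LinearMap.mem_ker]
    constructor
    · intro hx
      funext r
      simp only [Matrix.mulVecLin_apply, Matrix.mulVec, dotProduct, hM, Matrix.of_apply,
        Pi.zero_apply]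
      rw [← hx r]
      exact Finset.sum_congr rfl fun q _ => mul_comm _ _
    · intro hx r
      have := congrFun hx r
      simp only [Matrix.mulVecLin_apply, Matrix.mulVec, dotProduct, hM, Matrix.of_apply,
        Pi.zero_apply] at this
      rw [← this]
      exact Finset.sum_congr rfl fun q _ => mul_comm _ _
  rw [Nat.card_congr e1, Nat.card_eq_fintype_card, Module.card_eq_pow_finrank (K := ZMod 2),
    ZMod.card, ← pow_add, ← h2, add_comm]

/-- the character of conductor 4 -/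
def s4 (n : ℤ) : ZMod 2 := if n % 4 = 3 then 1 else 0

/-- the character `(2 / n)` -/
def s8 (n : ℤ) : ZMod 2 := if n % 8 = 3 ∨ n % 8 = 5 then 1 else 0

/-- the quadratic symbol modulo the prime `p` -/
def sj (p : ℕ) (n : ℤ) : ZMod 2 := if jacobiSym n p = -1 then 1 else 0

/-- the part prime to `p` of a prime `q` -/
def fp (p : ℕ) (q : ℤ) : ℤ := if q = p then 1 else q

/-- `± p ≡ 1` modulo 4 -/
def st (p : ℕ) : ℤ := if p % 4 = 1 then p else -p

lemma s4_mul {a b : ℤ} (ha : a % 2 = 1) (hb : b % 2 = 1) : s4 (a * b) = s4 a + s4 b := by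
  unfold s4
  rw [Int.mul_emod]
  have h1 : a % 4 = 1 ∨ a % 4 = 3 := by omega
  have h2 : b % 4 = 1 ∨ b % 4 = 3 := by omega
  rcases h1 with h1 | h1 <;> rcases h2 with h2 | h2 <;> rw [h1, h2] <;> decide

lemma s8_mul {a b : ℤ} (ha : a % 2 = 1) (hb : b % 2 = 1) : s8 (a * b) = s8 a + s8 b := by
  unfold s8
  rw [Int.mul_emod]
  have h1 : a % 8 = 1 ∨ a % 8 = 3 ∨ a % 8 = 5 ∨ a % 8 = 7 := by omega
  have h2 : b % 8 = 1 ∨ b % 8 = 3 ∨ b % 8 = 5 ∨ b % 8 = 7 := by omega
  rcases h1 with h1 | h1 | h1 | h1 <;> rcases h2 with h2 | h2 | h2 | h2 <;> rw [h1, h2] <;> decide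

lemma sj_mul {p : ℕ} (hp : p.Prime) {a b : ℤ} (ha : ¬ (p : ℤ) ∣ a) (hb : ¬ (p : ℤ) ∣ b) :
    sj p (a * b) = sj p a + sj p b := by
  have key : ∀ a : ℤ, ¬ (p : ℤ) ∣ a → jacobiSym a p = 1 ∨ jacobiSym a p = -1 := by
    intro a ha
    have h0 : jacobiSym a p ≠ 0 := by
      rw [Ne, jacobiSym.eq_zero_iff, not_and, not_not]
      intro _
      exact Int.isCoprime_iff_gcd_eq_one.1
        ((Nat.prime_iff_prime_int.1 hp).coprime_iff_not_dvd.2 ha).symm
    rcases jacobiSym.trichotomy a p with h | h | h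
    · exact absurd h h0
    · exact Or.inl h
    · exact Or.inr h
  unfold sj
  rw [jacobiSym.mul_left]
  rcases key a ha with h1 | h1 <;> rcases key b hb with h2 | h2 <;> rw [h1, h2] <;> decide

lemma sj_zero {p : ℕ} (hp : p.Prime) {a : ℤ} (ha : ¬ (p : ℤ) ∣ a) :
    sj p a = 0 ↔ jacobiSym a p = 1 := by
  have h0 : jacobiSym a p ≠ 0 := by
    rw [Ne, jacobiSym.eq_zero_iff, not_and, not_not]
    intro _
    exact Int.isCoprime_iff_gcd_eq_one.1
      ((Nat.prime_iff_prime_int.1 hp).coprime_iff_not_dvd.2 ha).symm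
  unfold sj
  rcases jacobiSym.trichotomy a p with h | h | h
  · exact absurd h h0
  · rw [h]; decide
  · rw [h]; decide

/-- the index set of the conditions -/
abbrev RR (C : Finset ℕ) : Type := Fin 2 ⊕ C

/-- the matrix -/
def chi (C : Finset ℕ) (G : Finset ℕ) : RR C → G → ZMod 2
  | .inl i, q => if i = 0 then s4 (q : ℕ) else s8 (q : ℕ)
  | .inr r, q => sj r (fp r (q : ℕ))

/-- the integers of the rows -/
def rho (C : Finset ℕ) : RR C → ℤ
  | .inl i => if i = 0 then -1 else 2
  | .inr r => st r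

/-- the integer of a vector of the transposed system -/
def ee (C : Finset ℕ) (y : RR C → ZMod 2) : ℤ := ∏ r, if y r = 1 then rho C r else 1

/-- the same without the factor `q` -/
def eq' (C : Finset ℕ) (y : RR C → ZMod 2) (q : ℕ) : ℤ :=
  ∏ r, if y r = 1 then (match r with
    | .inl i => rho C (.inl i)
    | .inr r => if (r : ℕ) = q then 1 else st r) else 1

/-- the integer `dd G x` without the factor `r` -/
def ddr (G : Finset ℕ) (x : G → ZMod 2) (r : ℕ) : ℤ := ∏ q : G, if x q = 1 then fp r (q : ℕ) else 1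

lemma not_dvd_fp {r : ℕ} (hr : r.Prime) {q : ℕ} (hq : q.Prime) : ¬ (r : ℤ) ∣ fp r q := by
  unfold fp
  split_ifs with h
  · intro h1
    have : r ∣ 1 := by exact_mod_cast h1
    exact hr.one_lt.ne' (Nat.dvd_one.1 this)
  · intro h1
    have h2 : r ∣ q := by exact_mod_cast h1
    exact h (by rw [(Nat.prime_dvd_prime_iff_eq hr hq).1 h2])

/-- the row conditions -/
lemma row4 {G : Finset ℕ} (hG : ∀ p ∈ G, p.Prime ∧ p ≠ 2) (x : G → ZMod 2) :
    dd G x % 2 = 1 ∧ s4 (dd G x) = ∑ q : G, x q * s4 ((q : ℕ) : ℤ) := by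
  unfold dd
  exact s_prod s4 (fun n => n % 2 = 1) rfl rfl
    (fun a b ha hb => ⟨by rw [Int.mul_emod, ha, hb]; rfl, s4_mul ha hb⟩) univ
    (fun q : G => ((q : ℕ) : ℤ)) x (fun q _ => by
      have := (hG q.1 q.2).1.eq_two_or_odd
      have := (hG q.1 q.2).2
      omega)

lemma row8 {G : Finset ℕ} (hG : ∀ p ∈ G, p.Prime ∧ p ≠ 2) (x : G → ZMod 2) :
    s8 (dd G x) = ∑ q : G, x q * s8 ((q : ℕ) : ℤ) := by
  unfold dd
  exact (s_prod s8 (fun n => n % 2 = 1) rfl rfl
    (fun a b ha hb => ⟨by rw [Int.mul_emod, ha, hb]; rfl, s8_mul ha hb⟩) univ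
    (fun q : G => ((q : ℕ) : ℤ)) x (fun q _ => by
      have := (hG q.1 q.2).1.eq_two_or_odd
      have := (hG q.1 q.2).2
      omega)).2

lemma rowj {G : Finset ℕ} (hG : ∀ p ∈ G, p.Prime ∧ p ≠ 2) (x : G → ZMod 2) {r : ℕ}
    (hr : r.Prime) : ¬ (r : ℤ) ∣ ddr G x r ∧
      sj r (ddr G x r) = ∑ q : G, x q * sj r (fp r (q : ℕ)) := by
  unfold ddr
  have h1 : ¬ (r : ℤ) ∣ 1 := by
    intro h1
    have : r ∣ 1 := by exact_mod_cast h1
    exact hr.one_lt.ne' (Nat.dvd_one.1 this)
  refine s_prod (sj r) (fun n => ¬ (r : ℤ) ∣ n) h1 ?_ (fun a b ha hb => ⟨?_, sj_mul hr ha hb⟩) univ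
    (fun q : G => fp r ((q : ℕ) : ℤ)) x (fun q _ => not_dvd_fp hr (hG q.1 q.2).1)
  · unfold sj
    rw [jacobiSym.one_left]
    decide
  · intro h
    rcases (Nat.prime_iff_prime_int.1 hr).dvd_or_dvd h with h | h
    · exact ha h
    · exact hb h

lemma mod8_iff {d : ℤ} (h : d % 2 = 1) : (s4 d = 0 ∧ s8 d = 0) ↔ d % 8 = 1 := by
  unfold s4 s8
  constructor
  · rintro ⟨h1, h2⟩
    by_contra h3
    by_cases h4 : d % 4 = 3
    · rw [if_pos h4] at h1
      exact absurd h1 (by decide)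
    · by_cases h5 : d % 8 = 3 ∨ d % 8 = 5
      · rw [if_pos h5] at h2
        exact absurd h2 (by decide)
      · omega
  · intro h1
    rw [if_neg (by omega), if_neg (by omega)]
    exact ⟨rfl, rfl⟩

/-- **rows**: the vectors satisfying the linear conditions -/
theorem rows {G C : Finset ℕ} (hG : ∀ p ∈ G, p.Prime ∧ p ≠ 2) (hC : ∀ p ∈ C, p.Prime ∧ p ≠ 2)
    (x : G → ZMod 2) : (∀ r, ∑ q, x q * chi C G r q = 0) ↔
      (dd G x % 8 = 1 ∧ ∀ r ∈ C, jacobiSym (ddr G x r) r = 1) := by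
  have h4 := row4 hG x
  have h8 := row8 hG x
  constructor
  · intro h
    refine ⟨(mod8_iff h4.1).1 ⟨?_, ?_⟩, fun r hr => ?_⟩
    · rw [h4.2]
      exact h (.inl 0)
    · rw [h8]
      exact h (.inl 1)
    · obtain ⟨j1, j2⟩ := rowj hG x (hC r hr).1
      rw [← sj_zero (hC r hr).1 j1, j2]
      exact h (.inr ⟨r, hr⟩)
  · rintro ⟨h1, h2⟩ r
    obtain ⟨m1, m2⟩ := (mod8_iff h4.1).2 h1
    rcases r with i | r
    · by_cases hi : i = 0
      · subst hi
        rw [h4.2] at m1
        exact m1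
      · have hi1 : i = 1 := by omega
        subst hi1
        rw [h8] at m2
        exact m2
    · obtain ⟨j1, j2⟩ := rowj hG x (hC r.1 r.2).1
      have h3 := (sj_zero (hC r.1 r.2).1 j1).2 (h2 r.1 r.2)
      rw [j2] at h3
      exact h3

end Pool.Agent.X257.PS
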