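import Pool.Agent.X257.PS.Col
import Pool.Agent.TH841.NO.Pr
import Pool.Agent.TH841.NO.Qul
import Pool.Agent.TH841.NO.Qum
import Pool.Agent.TH841.LS.Loca
import Pool.Agent.TH841.LS.Locb
import Pool.Agent.Y105.RZ.Goods
import Pool.Agent.Y667.RP.Two
import Pool.Agent.Y212.RZ.Low4

/-!
# Project PS: the everywhere locally solvable quartics of the 2-isogeny
-/

set_option autoImplicit false

namespace Pool.Agent.X257.PS

open Finset Pool.Agent.TH841.LS Pool.Agent.TH841.LS.LINf Pool.Agent.TH841.NO Pool.Agent.W307.SE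

/-- the integers of the solutions of the linear system -/
def Ks (C G : Finset ℕ) : Set ℤ :=
  (dd G) '' {x | dd G x % 8 = 1 ∧ ∀ r ∈ C, jacobiSym (ddr G x r) r = 1}

/-- the number of the solutions -/
theorem cnt {G C : Finset ℕ} (hG : ∀ p ∈ G, p.Prime ∧ p ≠ 2) (hC : ∀ p ∈ C, p.Prime ∧ p ≠ 2)
    (H : ∀ y : RR C → ZMod 2, (∀ q ∈ G, jacobiSym (eq2 C y q) q = 1) → ee C y = 1) :
    (Ks C G).ncard * 2 ^ (C.card + 2) = 2 ^ G.card := by
  classical
  have h1 := card_ker (chi C G) (fun y hy => ee_one hC (H y fun q hq =>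
    ((cols hG hC y ⟨q, hq⟩).2).1 (hy ⟨q, hq⟩)))
  have h2 : (Ks C G).ncard = Nat.card {x : G → ZMod 2 // ∀ r, ∑ q, x q * chi C G r q = 0} := by
    unfold Ks
    rw [Set.ncard_image_of_injective _ (fun x y h => dd_inj (fun p hp => (hG p hp).1) h)]
    rw [← Nat.card_coe_set_eq]
    refine Nat.card_congr (Equiv.subtypeEquivRight fun x => ?_)
    exact (rows hG hC x).symm
  rw [h2]
  have h3 : Fintype.card (RR C) = C.card + 2 := by
    rw [Fintype.card_sum, Fintype.card_fin, Fintype.card_coe, add_comm]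
  rw [h3, Fintype.card_coe] at h1
  exact h1

lemma ddr_not {G : Finset ℕ} (x : G → ZMod 2) {r : ℕ} (hr : r ∉ G) : ddr G x r = dd G x := by
  unfold ddr dd
  refine Finset.prod_congr rfl fun q _ => ?_
  have : ((q : ℕ) : ℤ) ≠ r := fun h => hr (by
    have h2 : (q : ℕ) = r := by exact_mod_cast h
    rw [← h2]; exact q.2)
  unfold fp
  rw [if_neg this]

lemma ddr_mem {G : Finset ℕ} (x : G → ZMod 2) (r : G) :
    dd G x = ddr G x r * (if x r = 1 then ((r : ℕ) : ℤ) else 1) := by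
  classical
  unfold dd ddr
  rw [← Finset.mul_prod_erase univ _ (mem_univ r),
    ← Finset.mul_prod_erase univ (fun q : G => if x q = 1 then fp r ((q : ℕ) : ℤ) else 1)
      (mem_univ r)]
  have h1 : (if x r = 1 then fp r ((r : ℕ) : ℤ) else 1) = 1 := by
    unfold fp
    rw [if_pos rfl, ite_self]
  rw [h1, one_mul, mul_comm]
  congr 1
  refine Finset.prod_congr rfl fun q hq => ?_
  have : ((q : ℕ) : ℤ) ≠ ((r : ℕ) : ℤ) := fun h => (ne_of_mem_erase hq) (Subtype.ext (by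
    exact_mod_cast h))
  unfold fp
  rw [if_neg this]

/-- a positive squarefree integer with prime factors in `G` -/
lemma exists_dd {G : Finset ℕ} (hG : ∀ p ∈ G, p.Prime) {d : ℤ} (h0 : 0 < d) (hs : Squarefree d)
    (hd : ∀ p : ℕ, p.Prime → (p : ℤ) ∣ d → p ∈ G) : ∃ x : G → ZMod 2, dd G x = d := by
  classical
  refine ⟨fun q => if ((q : ℕ) : ℤ) ∣ d then 1 else 0, ?_⟩
  obtain ⟨n, rfl⟩ : ∃ n : ℕ, d = n := ⟨d.toNat, (Int.toNat_of_nonneg h0.le).symm⟩
  have hn : Squarefree n := Int.squarefree_natCast.1 hs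
  have hn0 : n ≠ 0 := hn.ne_zero
  unfold dd
  have h1 : ∀ q : G, (if (if (((q : ℕ) : ℤ) ∣ (n : ℤ)) then (1 : ZMod 2) else 0) = 1 then
      ((q : ℕ) : ℤ) else 1) = if ((q : ℕ) ∣ n) then ((q : ℕ) : ℤ) else 1 := by
    intro q
    by_cases h : (q : ℕ) ∣ n
    · rw [if_pos (Int.natCast_dvd_natCast.2 h), if_pos rfl, if_pos h]
    · rw [if_neg (fun h' => h (Int.natCast_dvd_natCast.1 h')), if_neg (by decide), if_neg h]
  rw [Finset.prod_congr rfl fun q _ => h1 q]
  rw [Finset.prod_coe_sort G (fun q => if q ∣ n then ((q : ℕ) : ℤ) else 1), ← Finset.prod_filter]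
  have h2 : G.filter (fun q => q ∣ n) = n.primeFactors := by
    ext q
    rw [mem_filter, Nat.mem_primeFactors]
    constructor
    · rintro ⟨h3, h4⟩
      exact ⟨hG q h3, h4, hn0⟩
    · rintro ⟨h3, h4, -⟩
      exact ⟨hd q h3 (Int.natCast_dvd_natCast.2 h4), h4⟩
  rw [h2]
  have h3 := Nat.prod_primeFactors_of_squarefree hn
  calc ∏ q ∈ n.primeFactors, ((q : ℕ) : ℤ) = ((∏ q ∈ n.primeFactors, q : ℕ) : ℤ) := by
        push_cast; rfl
    _ = n := by rw [h3]

/-- the data -/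
structure Dta (A B : ℤ) (G C : Finset ℕ) : Prop where
  B0 : 0 < B
  BA : B < A
  h8 : A % 8 = 1
  h32 : (32 : ℤ) ∣ A - B
  hG : ∀ p ∈ G, p.Prime ∧ 11 ≤ p
  hd : ∀ p : ℕ, p.Prime → ((p : ℤ) ∣ A * B ↔ p ∈ G)
  ty : ∀ p ∈ G, ((p : ℤ) ∣ A ∧ ¬ (p : ℤ) ^ 2 ∣ A ∧ ¬ (p : ℤ) ∣ B) ∨
    ((p : ℤ) ∣ B ∧ ¬ (p : ℤ) ^ 2 ∣ B ∧ ¬ (p : ℤ) ∣ A) ∨
    ((p : ℤ) ∣ A ∧ (p : ℤ) ∣ B ∧ ¬ (p : ℤ) ^ 2 ∣ A ∧ ¬ (p : ℤ) ^ 2 ∣ B ∧ ¬ (p : ℤ) ^ 2 ∣ A - B ∧
      jacobiSym ((A / p) * (B / p)) p = 1 ∧ jacobiSym (A / p) p = 1 ∧ p ∈ C)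
  hC : ∀ p ∈ C, p.Prime ∧ 11 ≤ p ∧
    (((p : ℤ) ∣ A - B ∧ ¬ (p : ℤ) ∣ A ∧ jacobiSym A p = 1) ∨ ((p : ℤ) ∣ A ∧ (p : ℤ) ∣ B))
  hn : ∀ p : ℕ, p.Prime → p ≠ 2 → (p : ℤ) ∣ A - B → p ∉ C → ¬ (p : ℤ) ∣ A ∧ jacobiSym A p = -1
  sm : ∀ p : ℕ, p.Prime → p ≠ 2 → p < 11 → ¬ (p : ℤ) ∣ A - B

section

variable {A B : ℤ} {G C : Finset ℕ}

lemma sq_jac {p : ℕ} [hp : Fact p.Prime] (hp2 : p ≠ 2) {n : ℤ} (h : jacobiSym n p = 1) :
    IsSquare (n : ℚ_[p]) := by
  have hn : ¬ (p : ℤ) ∣ n := by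
    intro hn
    have h0 : jacobiSym n p = 0 := by
      rw [jacobiSym.eq_zero_iff]
      refine ⟨hp.out.ne_zero, fun h1 => ?_⟩
      have h2 : (p : ℤ) ∣ (Int.gcd n p : ℤ) := Int.dvd_coe_gcd hn dvd_rfl
      rw [h1] at h2
      have : p ∣ 1 := by exact_mod_cast h2
      exact hp.out.one_lt.ne' (Nat.dvd_one.1 this)
    rw [h0] at h
    exact absurd h (by norm_num)
  apply padic_sq hp2 hn
  have h1 : ((n : ℤ) : ZMod p) ≠ 0 := by
    rw [Ne, ZMod.intCast_zmod_eq_zero_iff_dvd]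
    exact hn
  rw [← legendreSym.eq_one_iff p h1, jacobiSym.legendreSym.to_jacobiSym]
  exact h

lemma Dta.A0 (h : Dta A B G C) : A ≠ 0 := by
  have := h.B0
  have := h.BA
  omega

/-- **the necessary conditions** -/
theorem sub1 (h : Dta A B G C) : SQ (-(A + B)) (A * B) ⊆ Ks C G := by
  have hA0 := h.A0
  have hB0 : B ≠ 0 := h.B0.ne'
  have hAB : A ≠ B := h.BA.ne'
  rintro d ⟨hs, hdv, hr, hp⟩
  have hd0 : d ≠ 0 := hs.ne_zero
  obtain ⟨q1, q2⟩ := QULf.qul A B d hA0 hB0 hAB hd0 hdv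
  have hr' := q1.1 hr
  have hpos : 0 < d := by
    obtain ⟨X, Y, r, hX, hY, hXr⟩ := hr'
    by_contra hcon
    have hd : (d : ℝ) ≤ 0 := by exact_mod_cast not_lt.1 hcon
    have hX1 : X < 0 := lt_of_le_of_ne (by rw [hXr]; exact mul_nonpos_of_nonpos_of_nonneg hd (sq_nonneg r)) hX
    have hB1 : (0 : ℝ) < B := by exact_mod_cast h.B0
    have hA1 : (0 : ℝ) < A := by exact_mod_cast h.B0.trans h.BA
    have h1 : 0 < (X - A) * (X - B) := mul_pos_of_neg_of_neg (by linarith) (by linarith)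
    have h2 : X * (X - A) * (X - B) < 0 := by
      rw [mul_assoc]
      exact mul_neg_of_neg_of_pos hX1 h1
    rw [← hY] at h2
    exact absurd h2 (not_lt.2 (sq_nonneg Y))
  have hpr : ∀ p : ℕ, p.Prime → (p : ℤ) ∣ d → p ∈ G := fun p hp hpd =>
    (h.hd p hp).1 (hpd.trans hdv)
  have hGp : ∀ p ∈ G, p.Prime := fun p hp => (h.hG p hp).1
  obtain ⟨x, hx⟩ := exists_dd hGp hpos hs hpr
  have hodd : ¬ (2 : ℤ) ∣ d := by
    intro h2
    have := (h.hG 2 (hpr 2 Nat.prime_two (by exact_mod_cast h2))).2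
    omega
  have hsq2 : ∀ p : ℕ, p.Prime → ¬ (p : ℤ) ^ 2 ∣ d := by
    intro p hp hpd
    rw [← hx] at hpd
    exact sq_dd hGp x hp hpd
  refine ⟨x, ⟨?_, fun r hr => ?_⟩, hx⟩
  · rw [hx]
    apply Pool.Agent.Y667.RP.mod_of_sq hodd
    have : Fact (Nat.Prime 2) := ⟨Nat.prime_two⟩
    obtain ⟨X, Y, r, hX, hY, hXr⟩ := (q2 2).1 (hp 2)
    have hXs : IsSquare X := by
      by_cases hY0 : Y = 0
      · rw [hY0] at hY
        have h1 : X = (A : ℚ_[2]) ∨ X = (B : ℚ_[2]) := by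
          have h2 : X * (X - A) * (X - B) = 0 := by rw [← hY]; ring
          rcases mul_eq_zero.1 h2 with h3 | h3
          · rcases mul_eq_zero.1 h3 with h4 | h4
            · exact absurd h4 hX
            · exact Or.inl (sub_eq_zero.1 h4)
          · exact Or.inr (sub_eq_zero.1 h3)
        have h8 := h.h8
        have h32 := h.h32
        rcases h1 with h1 | h1
        · rw [h1]; exact padic_sq2 h8
        · rw [h1]; exact padic_sq2 (by omega)
      · exact Pool.Agent.Y667.RP.two_sq h.h8 h.h32 hY0 hY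
    have hr0 : r ≠ 0 := by
      rintro rfl
      exact hX (by rw [hXr]; ring)
    have e1 : (d : ℚ_[2]) = X / r ^ 2 := by
      rw [hXr]
      field_simp
    rw [e1]
    exact hXs.div ⟨r, by ring⟩
  · obtain ⟨hrp, h11, hty⟩ := h.hC r hr
    have : Fact r.Prime := ⟨hrp⟩
    have hl := (q2 r).1 (hp r)
    rcases hty with ⟨t1, t2, t3⟩ | ⟨t1, t2⟩
    · have t4 : ¬ (r : ℤ) ∣ B := fun t4 => t2 (by
        have := dvd_add t1 t4
        simpa using this)
      have hrG : r ∉ G := by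
        intro h1
        rcases (Nat.prime_iff_prime_int.1 hrp).dvd_or_dvd ((h.hd r hrp).2 h1) with h2 | h2
        · exact t2 h2
        · exact t4 h2
      rw [ddr_not x hrG, hx]
      exact PRf.pra r A B d (by omega) hAB t2 t1 t3 (fun h1 => hrG (hpr r hrp h1)) hl
    · have hrG : r ∈ G := (h.hd r hrp).1 (dvd_mul_of_dvd_left t1 _)
      have hm := ddr_mem x ⟨r, hrG⟩
      rw [hx] at hm
      simp only at hm
      have hiff := dvd_dd_iff hGp x ⟨r, hrG⟩
      rw [hx] at hiff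
      simp only at hiff
      rcases h.ty r hrG with ⟨u1, u2, u3⟩ | ⟨u1, u2, u3⟩ | ⟨u1, u2, u3, u4, u5, u6, u7, u8⟩
      · exact absurd t2 u3
      · exact absurd t1 u3
      · have hc := PRf.prb r A B d (by omega) u1 u2 u3 u4 u5 u6 (hsq2 r hrp) hl
        unfold chi2 at hc
        by_cases hrd : (r : ℤ) ∣ d
        · rw [if_pos hrd, jacobiSym.mul_left, u7, one_mul] at hc
          rw [if_pos (hiff.1 hrd)] at hm
          have e2 : d / (r : ℤ) = ddr G x r := by
            rw [hm]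
            exact Int.mul_ediv_cancel _ (by exact_mod_cast hrp.ne_zero)
          rw [← e2]
          exact hc
        · rw [if_neg hrd] at hc
          rw [if_neg (fun h' => hrd (hiff.2 h')), mul_one] at hm
          rw [← hm]
          exact hc

lemma locI_of_loc {K : Type} [Field K] {A B d : ℤ} (hd : (d : K) ≠ 0) (h : Loc K A B d 1) :
    LocI K A B d := by
  obtain ⟨x, y, hy, h1, ⟨r, hr⟩, -⟩ := h
  have hx : x ≠ 0 := by
    rintro rfl
    apply hy
    have : y ^ 2 = 0 := by rw [h1]; ring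
    exact pow_eq_zero_iff two_ne_zero |>.1 this
  refine ⟨x, y, r / d, hx, h1, ?_⟩
  field_simp
  linear_combination hr

/-- **the sufficient conditions** -/
theorem sub2 (h : Dta A B G C) : Ks C G ⊆ SQ (-(A + B)) (A * B) := by
  have hA0 := h.A0
  have hB0 : B ≠ 0 := h.B0.ne'
  have hAB : A ≠ B := h.BA.ne'
  have hGp : ∀ p ∈ G, p.Prime := fun p hp => (h.hG p hp).1
  rintro _ ⟨x, ⟨h8, hj⟩, rfl⟩
  have hd0 : dd G x ≠ 0 := (dd_pos hGp x).ne'
  have hdv : dd G x ∣ A * B := dd_dvd hGp (fun p hp => (h.hd p (hGp p hp)).2 hp) x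
  obtain ⟨q1, q2⟩ := QULf.qul A B (dd G x) hA0 hB0 hAB hd0 hdv
  obtain ⟨c1, c2⟩ := LOCBf.locc A B (dd G x) hA0 hB0 hAB hd0
  refine ⟨dd_sqf hGp x, hdv, q1.2 (c2 (dd_pos hGp x)), fun p hpf => (q2 p).2 ?_⟩
  have hp := hpf.out
  by_cases hp2 : p = 2
  · subst hp2
    exact c1 2 (Or.inl (padic_sq2 h8))
  by_cases hpC : p ∈ C
  · obtain ⟨-, h11, hty⟩ := h.hC p hpC
    have hjp := hj p hpC
    apply c1 p
    by_cases hpG : p ∈ G
    · have hm := ddr_mem x ⟨p, hpG⟩
      simp only at hm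
      by_cases hx1 : x ⟨p, hpG⟩ = 1
      · rw [if_pos hx1] at hm
        right
        rcases hty with ⟨t1, t2, t3⟩ | ⟨t1, t2⟩
        · exfalso
          rcases (Nat.prime_iff_prime_int.1 hp).dvd_or_dvd ((h.hd p hp).2 hpG) with h2 | h2
          · exact t2 h2
          · exact t2 (by
              have := dvd_add t1 h2
              simpa using this)
        · rcases h.ty p hpG with ⟨u1, u2, u3⟩ | ⟨u1, u2, u3⟩ | ⟨u1, u2, u3, u4, u5, u6, u7, u8⟩
          · exact absurd t2 u3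
          · exact absurd t1 u3
          · have e1 : A = A / p * p := (Int.ediv_mul_cancel u1).symm
            have e2 : ((dd G x : ℤ) : ℚ_[p]) * A = ((ddr G x p * (A / p) : ℤ) : ℚ_[p]) * p ^ 2 := by
              rw [hm]
              nth_rewrite 1 [e1]
              push_cast
              ring
            rw [e2]
            have h3 : IsSquare ((ddr G x p * (A / p) : ℤ) : ℚ_[p]) := by
              apply sq_jac hp2
              rw [jacobiSym.mul_left, hjp, u7, one_mul]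
            exact h3.mul ⟨p, by ring⟩
      · rw [if_neg hx1, mul_one] at hm
        left
        rw [hm]
        exact sq_jac hp2 hjp
    · left
      rw [ddr_not x hpG] at hjp
      exact sq_jac hp2 hjp
  · by_cases hpD : (p : ℤ) ∣ A - B
    · obtain ⟨n1, n2⟩ := h.hn p hp hp2 hpD hpC
      have n3 : ¬ (p : ℤ) ∣ dd G x := by
        intro h1
        have hpG := dvd_dd hGp x hp h1
        rcases (Nat.prime_iff_prime_int.1 hp).dvd_or_dvd ((h.hd p hp).2 hpG) with h2 | h2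
        · exact n1 h2
        · exact n1 (by
            have := dvd_add hpD h2
            simpa using this)
      apply c1 p
      have n4 : jacobiSym (dd G x) p ≠ 0 := by
        rw [Ne, jacobiSym.eq_zero_iff, not_and, not_not]
        intro _
        exact Int.isCoprime_iff_gcd_eq_one.1
          ((Nat.prime_iff_prime_int.1 hp).coprime_iff_not_dvd.2 n3).symm
      rcases jacobiSym.trichotomy (dd G x) p with h1 | h1 | h1
      · exact absurd h1 n4
      · exact Or.inl (sq_jac hp2 h1)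
      · right
        have h2 : jacobiSym (dd G x * A) p = 1 := by
          rw [jacobiSym.mul_left, h1, n2]
          norm_num
        have h3 := sq_jac hp2 h2
        push_cast at h3
        exact h3
    · by_cases hpd : (p : ℤ) ∣ dd G x
      · have hpG := dvd_dd hGp x hp hpd
        have h11 := (h.hG p hpG).2
        have hsq := sq_dd hGp x hp
        have key : ∀ {A : ℤ}, A ≠ 0 → (p : ℤ) ∣ A → ¬ (p : ℤ) ^ 2 ∣ A → Odd (padicValInt p A) := by
          intro A hA0 k1 k2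
          have k3 : 1 ≤ padicValInt p A := by
            have := (padicValInt_dvd_iff (p := p) 1 A).1 (by simpa using k1)
            exact this.resolve_left hA0
          have k4 : ¬ 2 ≤ padicValInt p A := fun k4 =>
            k2 ((padicValInt_dvd_iff (p := p) 2 A).2 (Or.inr k4))
          have k5 : padicValInt p A = 1 := by omega
          rw [k5]
          exact odd_one
        rcases h.ty p hpG with ⟨u1, u2, u3⟩ | ⟨u1, u2, u3⟩ | ⟨u1, u2, u3, u4, u5, u6, u7, u8⟩
        · exact LOCBf.locb p A B (dd G x) h11 hA0 hB0 hd0 u3 (key hA0 u1 u2) hpd hsq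
        · exact locI_swap (LOCBf.locb p B A (dd G x) h11 hB0 hA0 hd0 u3 (key hB0 u1 u2) hpd hsq)
        · exact absurd u8 hpC
      · by_cases h11 : 11 ≤ p
        · exact LOCAf.loca p A B (dd G x) h11 hA0 hB0 hpD hpd
        · have hpG : p ∉ G := fun h1 => h11 (h.hG p h1).2
          have h1 : ¬ (p : ℤ) ∣ A * B := fun h1 => hpG ((h.hd p hp).1 h1)
          apply locI_of_loc (by exact_mod_cast hd0)
          apply Pool.Agent.Y105.RZ.GOODS p A B (dd G x) 1
          · intro h2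
            have hpi := Nat.prime_iff_prime_int.1 hp
            rcases hpi.dvd_or_dvd h2 with h3 | h3
            · rw [mul_assoc] at h3
              rcases hpi.dvd_or_dvd h3 with h4 | h4
              · have : p ∣ 2 := by exact_mod_cast h4
                exact hp2 ((Nat.prime_dvd_prime_iff_eq hp Nat.prime_two).1 this)
              · exact h1 h4
            · exact hpD h3
          · exact hpd
          · intro h2
            have : p ∣ 1 := by exact_mod_cast h2
            exact hp.one_lt.ne' (Nat.dvd_one.1 this)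

/-- **the group of the everywhere locally solvable quartics** -/
theorem sq_eq (h : Dta A B G C) : SQ (-(A + B)) (A * B) = Ks C G :=
  Set.Subset.antisymm (sub1 h) (sub2 h)

end

end Pool.Agent.X257.PS
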