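import Pool.Agent.X257.PS.D12

/-!
# Project PS: the parity of the dimensions
-/

set_option autoImplicit false

namespace Pool.Agent.X257.PS

open Finset Pool.Agent.TH841.LS Pool.Agent.TH841.NO Pool.Agent.W307.SE
  Pool.Agent.Y212.RZ Pool.Agent.W262.RK Pool.Agent.W307.FK Pool.Agent.Y667.RP Pool.Agent.Y667.RZ
  Pool.Agent.Y535.RZ

/-- the number of the prime divisors `p` of `n` with `(x / p) = 1` -/
def SS (x : ℤ) (n : ℕ) : ℕ := (n.primeFactors.filter (fun p => jacobiSym x p = 1)).card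

lemma jprod (x : ℤ) (T : Finset ℕ) (hT : ∀ p ∈ T, p.Prime) :
    jacobiSym x (∏ p ∈ T, p) = ∏ p ∈ T, jacobiSym x p := by
  classical
  induction T using Finset.induction_on with
  | empty => simp
  | insert a T ha ih =>
    have h1 : a ≠ 0 := (hT a (mem_insert_self _ _)).ne_zero
    have h2 : ∏ p ∈ T, p ≠ 0 :=
      Finset.prod_ne_zero_iff.2 fun p hp => (hT p (mem_insert_of_mem hp)).ne_zero
    rw [prod_insert ha, prod_insert ha, jacobiSym.mul_right' _ h1 h2,
      ih fun p hp => hT p (mem_insert_of_mem hp)]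

lemma neg_SS {x : ℤ} {n : ℕ} (hn : Squarefree n) (hx : ∀ p : ℕ, p.Prime → p ∣ n → ¬ (p : ℤ) ∣ x) :
    (-1 : ℤ) ^ SS x n = (-1) ^ n.primeFactors.card * jacobiSym x n := by
  have h1 : jacobiSym x n = ∏ p ∈ n.primeFactors, jacobiSym x p := by
    conv_lhs => rw [← Nat.prod_primeFactors_of_squarefree hn]
    exact jprod x _ fun p hp => Nat.prime_of_mem_primeFactors hp
  rw [h1, ← Finset.prod_const, ← Finset.prod_mul_distrib]
  unfold SS
  rw [← Finset.prod_const, Finset.prod_filter]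
  refine Finset.prod_congr rfl fun p hp => ?_
  have hpp := Nat.prime_of_mem_primeFactors hp
  have hpx := hx p hpp (Nat.dvd_of_mem_primeFactors hp)
  have h6 : jacobiSym x p ≠ 0 := by
    rw [Ne, jacobiSym.eq_zero_iff, not_and, not_not]
    intro _
    exact Int.isCoprime_iff_gcd_eq_one.1
      ((Nat.prime_iff_prime_int.1 hpp).coprime_iff_not_dvd.2 hpx).symm
  rcases jacobiSym.trichotomy x p with h7 | h7 | h7
  · exact absurd h7 h6
  · rw [if_pos h7, h7]; ring
  · rw [if_neg (by rw [h7]; decide), h7]; ring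

lemma even_iff_pow {k : ℕ} : Even k ↔ (-1 : ℤ) ^ k = 1 :=
  (neg_one_pow_eq_one_iff_even (by norm_num)).symm

section

variable {s : Fin 3 → ℕ} {D : ℕ}

lemma jone {n : ℕ} (h : n % 8 = 1) : jacobiSym (-1) n = 1 ∧ jacobiSym 2 n = 1 := by
  have ho : Odd n := Nat.odd_iff.2 (by omega)
  refine ⟨?_, ?_⟩
  · rw [jacobiSym.at_neg_one ho, ZMod.χ₄_nat_one_mod_four (by omega)]
  · rw [jacobiSym.at_two ho, ZMod.χ₈_nat_eq_if_mod_eight]
    simp [h]
    omega

/-- the three symbols are equal -/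
lemma Hy.kap (h : Hy s D) : jacobiSym (s 0) (s 1) = jacobiSym (s 1) (s 0) ∧
    jacobiSym (s 0) (s 2) = jacobiSym (s 1) (s 0) := by
  have m0 := h.m0
  have m1 := h.m1
  have o1 : Odd (s 1) := Nat.odd_iff.2 (by omega)
  have o2 : Odd (s 2) := by
    have := h.dat.odd
    rw [h.dat.P3] at this
    exact (Nat.odd_mul.1 this).2
  refine ⟨jacobiSym.quadratic_reciprocity_one_mod_four (by omega) o1, ?_⟩
  have e1 : (s 1 : ℤ) = s 0 * 1 + -1 * 2 ^ 5 * s 2 := by
    have := h.dat.dif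
    linarith
  have e2 : jacobiSym (s 1) (s 0) = jacobiSym (-1 * 2 ^ 5 * s 2) (s 0) := by
    rw [e1, jacobiSym.mod_left, jacobiSym.mod_left (-1 * 2 ^ 5 * (s 2 : ℤ))]
    congr 1
    rw [Int.mul_add_emod_self_left]
  rw [e2, jacobiSym.mul_left, jacobiSym.mul_left, jacobiSym.pow_left, (jone m0).1, (jone m0).2]
  rw [jacobiSym.quadratic_reciprocity_one_mod_four (by omega) o2]
  ring

/-- the sign of the twist -/
lemma Hy.epsD (h : Hy s D) : jacobiSym D (s 0) = 1 ∧ jacobiSym D (s 1) = 1 ∧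
    jacobiSym D (s 2) = (-1) ^ D.primeFactors.card := by
  rcases h.hD with h1 | h1
  · subst h1
    rw [Nat.cast_one, jacobiSym.one_left, jacobiSym.one_left, jacobiSym.one_left]
    simp
  · subst h1
    have hp17 : Nat.Prime 17 := by norm_num
    have key : ∀ n : ℕ, Odd n → jacobiSym ((17 : ℕ) : ℤ) n = jacobiSym n 17 := fun n hn =>
      jacobiSym.quadratic_reciprocity_one_mod_four (by norm_num) hn
    have o0 : Odd (s 0) := Nat.odd_iff.2 (by have := h.m0; omega)
    have o1 : Odd (s 1) := Nat.odd_iff.2 (by have := h.m1; omega)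
    have o2 : Odd (s 2) := by
      have := h.dat.odd
      rw [h.dat.P3] at this
      exact (Nat.odd_mul.1 this).2
    rw [key _ o0, key _ o1, key _ o2, hp17.primeFactors, card_singleton, pow_one]
    have z0 := h.s0z
    have z1 := h.s1z
    have hdif := h.dat.dif
    refine ⟨?_, ?_, ?_⟩
    · rw [jac17 (y := 1) (by omega), jacobiSym.one_left]
    · rw [jac17 (y := 15) (by omega)]
      norm_num
    · rw [jac17 (y := 7) (by omega)]
      norm_num

/-- the symbols of the twisted curve -/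
lemma Hy.sym (h : Hy s D) : jacobiSym (-((D : ℤ) * s 1)) (s 0) = jacobiSym (s 1) (s 0) ∧
    jacobiSym (-((D : ℤ) * s 0)) (s 1) = jacobiSym (s 1) (s 0) ∧
    jacobiSym ((D : ℤ) * s 0) (s 2) = (-1) ^ D.primeFactors.card * jacobiSym (s 1) (s 0) := by
  obtain ⟨d0, d1, d2⟩ := h.epsD
  obtain ⟨k1, k2⟩ := h.kap
  have e : ∀ x : ℤ, -((D : ℤ) * x) = -1 * D * x := fun x => by ring
  refine ⟨?_, ?_, ?_⟩
  · rw [e, jacobiSym.mul_left, jacobiSym.mul_left, (jone h.m0).1, d0, one_mul, one_mul]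
  · rw [e, jacobiSym.mul_left, jacobiSym.mul_left, (jone h.m1).1, d1, one_mul, one_mul, k1]
  · rw [jacobiSym.mul_left, d2, k2]

/-- the numbers of the split primes -/
lemma Hy.nSS (h : Hy s D) : (-1 : ℤ) ^ SS (-((D : ℤ) * s 1)) (s 0) =
      (-1) ^ (s 0).primeFactors.card * jacobiSym (s 1) (s 0) ∧
    (-1 : ℤ) ^ SS (-((D : ℤ) * s 0)) (s 1) =
      (-1) ^ (s 1).primeFactors.card * jacobiSym (s 1) (s 0) ∧
    (-1 : ℤ) ^ SS ((D : ℤ) * s 0) (s 2) = (-1) ^ (s 2).primeFactors.card *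
      ((-1) ^ D.primeFactors.card * jacobiSym (s 1) (s 0)) := by
  obtain ⟨j0, j1, j2⟩ := h.sym
  refine ⟨?_, ?_, ?_⟩
  · rw [neg_SS (h.dat.sqj 0), j0]
    intro p hp hpn
    rw [dvd_neg, dvd_D hp (h.dat.hD hp hpn)]
    exact cop_nd hp h.dat.cop01 hpn
  · rw [neg_SS (h.dat.sqj 1), j1]
    intro p hp hpn
    rw [dvd_neg, dvd_D hp (h.dat.hD hp hpn)]
    exact cop_nd hp h.dat.cop01.symm hpn
  · rw [neg_SS (h.dat.sqj 2), j2]
    intro p hp hpn
    rw [dvd_D hp (h.dat.hD hp hpn)]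
    exact fun h' => cop_nd hp h.dat.cop012.symm hpn (h'.mul_right _)

lemma Hy.ksq (h : Hy s D) : jacobiSym (s 1) (s 0) * jacobiSym (s 1) (s 0) = 1 := by
  have h1 : Int.gcd (s 1 : ℤ) (s 0 : ℕ) = 1 := by
    rw [Int.gcd_natCast_natCast]
    exact h.dat.cop01.symm
  have := jacobiSym.sq_one h1
  rwa [pow_two] at this

/-- the number of the split primes of the untwisted curve -/
lemma Hy.nsplit (h : Hy s D) : ((∏ j, s j).primeFactors \ sgF (s 0) (s 1) (∏ j, s j)).card =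
    SS (-(s 1 : ℤ)) (s 0) + SS (-(s 0 : ℤ)) (s 1) + SS (s 0 : ℤ) (s 2) := by
  classical
  have hne : ∀ {x : ℤ} {p : ℕ}, p.Prime → ¬ (p : ℤ) ∣ x → (jacobiSym x p = 1 ↔
      ¬ jacobiSym x p = -1) := by
    intro x p hp hx
    have h6 : jacobiSym x p ≠ 0 := by
      rw [Ne, jacobiSym.eq_zero_iff, not_and, not_not]
      intro _
      exact Int.isCoprime_iff_gcd_eq_one.1
        ((Nat.prime_iff_prime_int.1 hp).coprime_iff_not_dvd.2 hx).symm
    rcases jacobiSym.trichotomy x p with h7 | h7 | h7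
    · exact absurd h7 h6
    · rw [h7]; decide
    · rw [h7]; decide
  have n0 : ∀ p : ℕ, p.Prime → p ∣ s 0 → ¬ (p : ℤ) ∣ -(s 1 : ℤ) := by
    intro p hp hpn
    rw [dvd_neg, Int.natCast_dvd_natCast]
    exact cop_nd hp h.dat.cop01 hpn
  have n1 : ∀ p : ℕ, p.Prime → p ∣ s 1 → ¬ (p : ℤ) ∣ -(s 0 : ℤ) := by
    intro p hp hpn
    rw [dvd_neg, Int.natCast_dvd_natCast]
    exact cop_nd hp h.dat.cop01.symm hpn
  have n2 : ∀ p : ℕ, p.Prime → p ∣ s 2 → ¬ (p : ℤ) ∣ (s 0 : ℤ) := by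
    intro p hp hpn
    rw [Int.natCast_dvd_natCast]
    exact fun h' => cop_nd hp h.dat.cop012.symm hpn (h'.mul_right _)
  have hun : (∏ j, s j).primeFactors \ sgF (s 0) (s 1) (∏ j, s j) =
      ((s 0).primeFactors.filter (fun p => jacobiSym (-(s 1 : ℤ)) p = 1) ∪
        (s 1).primeFactors.filter (fun p => jacobiSym (-(s 0 : ℤ)) p = 1)) ∪
        (s 2).primeFactors.filter (fun p => jacobiSym (s 0 : ℤ) p = 1) := by
    ext p
    rw [mem_sdiff, mem_union, mem_union, mem_filter, mem_filter, mem_filter, Nat.mem_primeFactors,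
      Nat.mem_primeFactors, Nat.mem_primeFactors, Nat.mem_primeFactors]
    constructor
    · rintro ⟨⟨hp, h1, -⟩, h2⟩
      obtain ⟨e0, e1, e2⟩ := h.dat.memE hp h1
      rw [h.dat.P3] at h1
      rcases hp.dvd_mul.1 h1 with h3 | h3
      · rcases hp.dvd_mul.1 h3 with h3 | h3
        · left; left
          rw [e0 h3] at h2
          exact ⟨⟨hp, h3, (h.dat.pos 0).ne'⟩, (hne hp (n0 p hp h3)).2 h2⟩
        · left; right
          rw [e1 h3] at h2
          exact ⟨⟨hp, h3, (h.dat.pos 1).ne'⟩, (hne hp (n1 p hp h3)).2 h2⟩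
      · right
        rw [e2 h3] at h2
        exact ⟨⟨hp, h3, (h.dat.pos 2).ne'⟩, (hne hp (n2 p hp h3)).2 h2⟩
    · rintro ((⟨⟨hp, h3, -⟩, h2⟩ | ⟨⟨hp, h3, -⟩, h2⟩) | ⟨⟨hp, h3, -⟩, h2⟩)
      · have h1 := h3.trans (h.dat.sj_dvd 0)
        obtain ⟨e0, e1, e2⟩ := h.dat.memE hp h1
        refine ⟨⟨hp, h1, h.dat.sq.ne_zero⟩, ?_⟩
        rw [e0 h3]
        exact (hne hp (n0 p hp h3)).1 h2
      · have h1 := h3.trans (h.dat.sj_dvd 1)
        obtain ⟨e0, e1, e2⟩ := h.dat.memE hp h1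
        refine ⟨⟨hp, h1, h.dat.sq.ne_zero⟩, ?_⟩
        rw [e1 h3]
        exact (hne hp (n1 p hp h3)).1 h2
      · have h1 := h3.trans (h.dat.sj_dvd 2)
        obtain ⟨e0, e1, e2⟩ := h.dat.memE hp h1
        refine ⟨⟨hp, h1, h.dat.sq.ne_zero⟩, ?_⟩
        rw [e2 h3]
        exact (hne hp (n2 p hp h3)).1 h2
  rw [hun, card_union_of_disjoint, card_union_of_disjoint]
  · rfl
  · rw [disjoint_left]
    intro p h1 h2
    rw [mem_filter, Nat.mem_primeFactors] at h1 h2
    exact cop_nd h1.1.1 h.dat.cop01 h1.1.2.1 h2.1.2.1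
  · rw [disjoint_left]
    intro p h1 h2
    rw [mem_union, mem_filter, mem_filter, Nat.mem_primeFactors, Nat.mem_primeFactors] at h1
    rw [mem_filter, Nat.mem_primeFactors] at h2
    rcases h1 with h1 | h1
    · exact cop_nd h1.1.1 h.dat.cop012.symm h2.1.2.1 (h1.1.2.1.mul_right _)
    · exact cop_nd h1.1.1 h.dat.cop012.symm h2.1.2.1 (h1.1.2.1.mul_left _)

/-- the parity hypothesis -/
def PH (s : Fin 3 → ℕ) (D : ℕ) : Prop :=
  Even (((∏ j, s j).primeFactors \ sgF (s 0) (s 1) (∏ j, s j)).card + D.primeFactors.card)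

lemma Hy.one (h : Hy s D) : Hy s 1 :=
  ⟨⟨h.dat.sq, h.dat.odd, Nat.coprime_one_right _, h.dat.dif, one_pos⟩, Or.inl rfl, h.big, h.m0, h.m1,
    h.n0, h.n1⟩

lemma Hy.ph (h : Hy s D) (hP : PH s D) : (-1 : ℤ) ^ (s 0).primeFactors.card *
    (-1) ^ (s 1).primeFactors.card * (-1) ^ (s 2).primeFactors.card * jacobiSym (s 1) (s 0) =
      (-1) ^ D.primeFactors.card := by
  unfold PH at hP
  rw [even_iff_pow, h.nsplit, pow_add, pow_add, pow_add] at hP
  obtain ⟨a0, a1, a2⟩ := h.one.nSS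
  rw [Nat.cast_one, one_mul] at a0 a1 a2
  have e1 : (-1 : ℤ) ^ (Nat.primeFactors 1).card = 1 := by simp
  rw [e1, one_mul] at a2
  rw [a0, a1, a2] at hP
  have k := h.ksq
  have hD : ((-1 : ℤ) ^ D.primeFactors.card) * (-1) ^ D.primeFactors.card = 1 := by
    rw [← pow_add]
    exact (Even.add_self _).neg_one_pow
  generalize (-1 : ℤ) ^ (s 0).primeFactors.card = x0 at *
  generalize (-1 : ℤ) ^ (s 1).primeFactors.card = x1 at *
  generalize (-1 : ℤ) ^ (s 2).primeFactors.card = x2 at *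
  generalize (-1 : ℤ) ^ D.primeFactors.card = x3 at *
  generalize jacobiSym (s 1) (s 0) = κ at *
  linear_combination x3 * hP - x0 * x1 * x2 * κ * hD - x0 * x1 * x2 * κ * (x3 * x3) * k

lemma cardU {m n : ℕ} (hm : m ≠ 0) (hn : n ≠ 0) (h : m.Coprime n) :
    (m * n).primeFactors.card = m.primeFactors.card + n.primeFactors.card := by
  rw [Nat.primeFactors_mul hm hn, card_union_of_disjoint h.disjoint_primeFactors]

/-- the parity for the first isogeny -/
theorem Hy.par0 (h : Hy s D) (hP : PH s D) : Even ((G0 s D).card + (C0 s D).card) := by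
  have hph := h.ph hP
  obtain ⟨a0, a1, a2⟩ := h.nSS
  have k := h.ksq
  have z0 := (h.dat.pos 0).ne'
  have z1 := (h.dat.pos 1).ne'
  have cD : (s 0 * s 1).Coprime D := by
    have h1 := h.dat.co
    rw [h.dat.P3] at h1
    exact Nat.Coprime.coprime_mul_right h1
  have e1 : (G0 s D).card = (s 0).primeFactors.card + (s 1).primeFactors.card +
      D.primeFactors.card := by
    unfold G0
    rw [cardU (mul_ne_zero z0 z1) h.dat.D0.ne' cD, cardU z0 z1 h.dat.cop01]
  have e2 : (C0 s D).card = SS ((D : ℤ) * s 0) (s 2) + D.primeFactors.card := by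
    unfold C0 SS
    rw [card_union_of_disjoint]
    rw [disjoint_left]
    intro p h1 h2
    rw [mem_filter, Nat.mem_primeFactors] at h1
    rw [Nat.mem_primeFactors] at h2
    exact h.dat.hD h1.1.1 h1.1.2.1 h2.2.1
  rw [even_iff_pow, e1, e2, pow_add, pow_add, pow_add, pow_add, a2]
  have hD : ((-1 : ℤ) ^ D.primeFactors.card) * (-1) ^ D.primeFactors.card = 1 := by
    rw [← pow_add]
    exact (Even.add_self _).neg_one_pow
  generalize (-1 : ℤ) ^ (s 0).primeFactors.card = x0 at *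
  generalize (-1 : ℤ) ^ (s 1).primeFactors.card = x1 at *
  generalize (-1 : ℤ) ^ (s 2).primeFactors.card = x2 at *
  generalize (-1 : ℤ) ^ D.primeFactors.card = x3 at *
  generalize jacobiSym (s 1) (s 0) = κ at *
  linear_combination (x3 * x3 * x3) * hph + (x3 * x3 + 1) * hD

/-- the parity for the other isogenies -/
theorem Hy.par1 (h : Hy s D) (hP : PH s D) :
    Even ((G1 (s 0) (s 2) D).card + (C1 (s 0) (s 1) D).card) ∧
      Even ((G1 (s 1) (s 2) D).card + (C1 (s 1) (s 0) D).card) := by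
  have hph := h.ph hP
  obtain ⟨a0, a1, a2⟩ := h.nSS
  have k := h.ksq
  have z0 := (h.dat.pos 0).ne'
  have z1 := (h.dat.pos 1).ne'
  have z2 := (h.dat.pos 2).ne'
  have c2 := h.dat.cop012
  have hco := h.dat.co
  rw [h.dat.P3] at hco
  have cD : ∀ x, x ∣ s 0 * s 1 * s 2 → x.Coprime D := fun x hx => Nat.Coprime.coprime_dvd_left hx hco
  have e1 : (G1 (s 0) (s 2) D).card = (s 0).primeFactors.card + (s 2).primeFactors.card +
      D.primeFactors.card := by
    unfold G1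
    rw [cardU (mul_ne_zero z0 z2) h.dat.D0.ne' (cD _ ⟨s 1, by ring⟩),
      cardU z0 z2 (Nat.Coprime.coprime_mul_right c2)]
  have e2 : (G1 (s 1) (s 2) D).card = (s 1).primeFactors.card + (s 2).primeFactors.card +
      D.primeFactors.card := by
    unfold G1
    rw [cardU (mul_ne_zero z1 z2) h.dat.D0.ne' (cD _ ⟨s 0, by ring⟩),
      cardU z1 z2 (Nat.Coprime.coprime_mul_left c2)]
  have e3 : (C1 (s 0) (s 1) D).card = SS (-((D : ℤ) * s 0)) (s 1) := rfl
  have e4 : (C1 (s 1) (s 0) D).card = SS (-((D : ℤ) * s 1)) (s 0) := rfl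
  have hD : ((-1 : ℤ) ^ D.primeFactors.card) * (-1) ^ D.primeFactors.card = 1 := by
    rw [← pow_add]
    exact (Even.add_self _).neg_one_pow
  rw [even_iff_pow, even_iff_pow, e1, e2, e3, e4, pow_add, pow_add, pow_add, pow_add, pow_add,
    pow_add, a0, a1]
  generalize (-1 : ℤ) ^ (s 0).primeFactors.card = x0 at *
  generalize (-1 : ℤ) ^ (s 1).primeFactors.card = x1 at *
  generalize (-1 : ℤ) ^ (s 2).primeFactors.card = x2 at *
  generalize (-1 : ℤ) ^ D.primeFactors.card = x3 at *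
  generalize jacobiSym (s 1) (s 0) = κ at *
  exact ⟨by linear_combination x3 * hph + hD, by linear_combination x3 * hph + hD⟩

end

end Pool.Agent.X257.PS
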