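import Pool.Agent.X257.PS.Loc
import Pool.Agent.Y667.PA.MainR
import Pool.Agent.Y667.ISO.Stm

/-!
# Project PS: the classes `(1, e)`
-/

set_option autoImplicit false

namespace Pool.Agent.X257.PS

open Finset Pool.Agent.TH841.LS Pool.Agent.TH841.LS.LINf Pool.Agent.TH841.NO Pool.Agent.W307.SE
  Pool.Agent.Y212.RZ Pool.Agent.W262.RK Pool.Agent.W307.FK Pool.Agent.Y667.RP Pool.Agent.Y667.RZ

lemma sqf_part {A x y : ℤ} (h : A = x * y ^ 2) (hA : ¬ IsSquare A) : x ≠ 1 := by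
  rintro rfl
  exact hA ⟨y, by rw [h]; ring⟩

/-- if the 2-Selmer group has at most 4 elements then there is no class `(1, e)` -/
theorem one_of_sel {A B e : ℤ} (hA : A ≠ 0) (hB : B ≠ 0) (hAB : A ≠ B) (nA : ¬ IsSquare A)
    (nB : ¬ IsSquare B) (nAB : ¬ IsSquare (A * B)) (hf : (Sel A B).Finite)
    (hc : (Sel A B).ncard ≤ 4) (he : ((1, e) : ℤ × ℤ) ∈ Sel A B) : e = 1 := by
  by_contra hne
  obtain ⟨x1, y1, sx1, hy1, e1, -, -⟩ := exists_sf (A * B) (mul_ne_zero hA hB)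
  obtain ⟨x2, y2, sx2, hy2, e2, -, -⟩ := exists_sf A hA
  obtain ⟨x3, y3, sx3, hy3, e3, -, -⟩ := exists_sf B hB
  obtain ⟨z1, w1, sz1, hw1, g1, -, -⟩ := exists_sf (-A) (neg_ne_zero.2 hA)
  obtain ⟨z2, w2, sz2, hw2, g2, -, -⟩ := exists_sf (A * (A - B))
    (mul_ne_zero hA (sub_ne_zero.2 hAB))
  obtain ⟨z3, w3, sz3, hw3, g3, -, -⟩ := exists_sf (B - A) (sub_ne_zero.2 hAB.symm)
  have m0 : ((1, 1) : ℤ × ℤ) ∈ Sel A B :=
    ⟨squarefree_one, squarefree_one, loc_one A B, fun p _ => loc_one A B⟩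
  have m1 : ((x1, z1) : ℤ × ℤ) ∈ Sel A B :=
    ⟨sx1, sz1, loc_zero hA hB e1 hy1 g1 hw1, fun p _ => loc_zero hA hB e1 hy1 g1 hw1⟩
  have m2 : ((x2, z2) : ℤ × ℤ) ∈ Sel A B :=
    ⟨sx2, sz2, loc_A hA hAB e2 hy2 g2 hw2, fun p _ => loc_A hA hAB e2 hy2 g2 hw2⟩
  have m3 : ((x3, z3) : ℤ × ℤ) ∈ Sel A B :=
    ⟨sx3, sz3, loc_B hB hAB e3 hy3 g3 hw3, fun p _ => loc_B hB hAB e3 hy3 g3 hw3⟩
  have n1 := sqf_part e1 nAB
  have n2 := sqf_part e2 nA
  have n3 := sqf_part e3 nB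
  have sqc : ∀ {u v : ℤ}, u ≠ 0 → IsSquare (u ^ 2 * v) → IsSquare v := by
    intro u v hu h
    obtain ⟨r, hr⟩ := h
    have h1 : u ∣ r := by
      have : u ^ 2 ∣ r ^ 2 := ⟨v, by rw [hr]; ring⟩
      exact (Int.pow_dvd_pow_iff two_ne_zero).1 this
    obtain ⟨c, rfl⟩ := h1
    refine ⟨c, mul_left_cancel₀ (pow_ne_zero 2 hu) (by linear_combination hr)⟩
  have n12 : x1 ≠ x2 := by
    intro h
    apply nB
    apply sqc hA
    refine ⟨x1 * y1 * y2, ?_⟩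
    calc A ^ 2 * B = (A * B) * A := by ring
      _ = (x1 * y1 ^ 2) * (x2 * y2 ^ 2) := by rw [e1, ← e2]
      _ = _ := by rw [← h]; ring
  have n13 : x1 ≠ x3 := by
    intro h
    apply nA
    apply sqc hB
    refine ⟨x1 * y1 * y3, ?_⟩
    calc B ^ 2 * A = (A * B) * B := by ring
      _ = (x1 * y1 ^ 2) * (x3 * y3 ^ 2) := by rw [e1, ← e3]
      _ = _ := by rw [← h]; ring
  have n23 : x2 ≠ x3 := by
    intro h
    apply nAB
    refine ⟨x2 * y2 * y3, ?_⟩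
    calc A * B = (x2 * y2 ^ 2) * (x3 * y3 ^ 2) := by rw [← e2, ← e3]
      _ = _ := by rw [← h]; ring
  have hsub : ({(1, e), (1, 1), (x1, z1), (x2, z2), (x3, z3)} : Set (ℤ × ℤ)) ⊆ Sel A B := by
    rintro z (rfl | rfl | rfl | rfl | rfl)
    · exact he
    · exact m0
    · exact m1
    · exact m2
    · exact m3
  have hcard : ({(1, e), (1, 1), (x1, z1), (x2, z2), (x3, z3)} : Set (ℤ × ℤ)).ncard = 5 := by
    rw [Set.ncard_insert_of_notMem, Set.ncard_insert_of_notMem, Set.ncard_insert_of_notMem,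
      Set.ncard_pair]
    · exact fun h => n23 (congrArg Prod.fst h)
    · rintro (h | h)
      · exact n12 (congrArg Prod.fst h)
      · exact n13 (congrArg Prod.fst h)
    · rintro (h | h | h)
      · exact n1 (congrArg Prod.fst h).symm
      · exact n2 (congrArg Prod.fst h).symm
      · exact n3 (congrArg Prod.fst h).symm
    · rintro (h | h | h | h)
      · exact hne (congrArg Prod.snd h)
      · exact n1 (congrArg Prod.fst h).symm
      · exact n2 (congrArg Prod.fst h).symm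
      · exact n3 (congrArg Prod.fst h).symm
  have := Set.ncard_le_ncard hsub hf
  omega

/-- the second set of quartics is trivial -/
theorem sq_dual {A B : ℤ} (hA : A ≠ 0) (hB : B ≠ 0) (hAB : A ≠ B)
    (h1 : ∀ e : ℤ, ((1, e) : ℤ × ℤ) ∈ Sel A B → e = 1) : SQ (2 * (A + B)) ((A - B) ^ 2) ⊆ {1} := by
  rintro d ⟨hs, hdv, hr, hp⟩
  obtain ⟨q1, q2⟩ := QUMf.qum A B d hA hB hAB hs.ne_zero hdv
  exact h1 d ⟨squarefree_one, hs, q1 hr, fun p _ => q2 p (hp p)⟩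

lemma log_dual {A B : ℤ} (hA : A ≠ 0) (hB : B ≠ 0) (hAB : A ≠ B)
    (h1 : ∀ e : ℤ, ((1, e) : ℤ × ℤ) ∈ Sel A B → e = 1) :
    Nat.log 2 (SQ (2 * (A + B)) ((A - B) ^ 2)).ncard = 0 := by
  have h2 := Set.ncard_le_ncard (sq_dual hA hB hAB h1) (Set.finite_singleton _)
  rw [Set.ncard_singleton] at h2
  exact Nat.log_eq_zero_iff.2 (Or.inl (by omega))

/-- the symbols -/
lemma dv_sgn {p : ℕ} (hp : p.Prime) {e : ℤ} (h : jacobiSym e p = 1) :
    dv p e = false ∧ sgn p e = false := by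
  have hn : ¬ (p : ℤ) ∣ e := by
    intro hn
    have h0 : jacobiSym e p = 0 := by
      rw [jacobiSym.eq_zero_iff]
      refine ⟨hp.ne_zero, fun h1 => ?_⟩
      have h2 : (p : ℤ) ∣ (Int.gcd e p : ℤ) := Int.dvd_coe_gcd hn dvd_rfl
      rw [h1] at h2
      have : p ∣ 1 := by exact_mod_cast h2
      exact hp.one_lt.ne' (Nat.dvd_one.1 this)
    rw [h0] at h
    exact absurd h (by norm_num)
  refine ⟨decide_eq_false hn, ?_⟩
  have hg : Int.gcd e p = 1 := Int.isCoprime_iff_gcd_eq_one.1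
    ((Nat.prime_iff_prime_int.1 hp).coprime_iff_not_dvd.2 hn).symm
  unfold sgn sg0
  rw [hg, Nat.cast_one, Int.ediv_one, h]
  rfl

lemma sgn_fac {p : ℕ} (hp : p.Prime) {e e' : ℤ} {c : ℤ} (hc : c = 1 ∨ c = p) (h : e = e' * c)
    (h1 : jacobiSym e' p = 1) : sgn p e = false := by
  rcases hc with rfl | rfl
  · rw [mul_one] at h
    rw [h]
    exact (dv_sgn hp h1).2
  · have hg : Int.gcd e p = p := by
      rw [h]
      have : Int.gcd (e' * (p : ℤ)) p = p := by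
        rw [Int.gcd_comm, Int.gcd_eq_natAbs_left (dvd_mul_left _ _)]
        rfl
      exact this
    unfold sgn sg0
    rw [hg, h, Int.mul_ediv_cancel _ (by exact_mod_cast hp.ne_zero), h1]
    rfl

end Pool.Agent.X257.PS
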